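import Pool.Agent.Work.MP_db9399_clj_helper75.CLJ8

/-!
# MP_db9399, SWG, block CLJ: closedness of the class graphs, final form (helper75, note 1584)
-/

set_option autoImplicit false
set_option linter.unusedSectionVars false

namespace Pool.Agent.Work.MP_db9399_clj.helper75

open Finset Classical
open Pool.Agent.Work.MP_db9399_all (nb)
open Pool.Agent.Work.MP_db9399_cg (cdg)
open Pool.Agent.Work.MP_db9399_sg
open Pool.Agent.Work.MP_db9399_xc.helper38 (Clx lgt)

universe u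

/-- **CLJ.** Small sets of active vertices expand; near-closed sets of active vertices contain few
vertices of `O`. `a` = light threshold of the clusters, `gC` = their scale, `t` = errors of the
shares, `g` = scale of the closedness. -/
def Stmt_CLJ : Prop :=
  ∀ MS δ C C2 c c0 : ℝ, 1 ≤ MS → 0 < δ → 1 ≤ C → 0 ≤ C2 → 0 < c → c ≤ 1 → 0 < c0 →
    ∃ κ : ℝ, 0 < κ ∧ κ ≤ 1 ∧
    ∀ {W B I V : Type u} [Fintype W] [Fintype B] [Fintype I] [Fintype V]
      (G Bk H : SimpleGraph W) (d D : ℕ) (bl : W → Option B) (op : B → B)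
      (bo : I × Bool → Option B) (ι : W → V) (Gh : SimpleGraph V) (nd : V → Option (I × Bool))
      (A : Finset V) (ζ a gC t g t1 t2 t3 t4 t5 t6 : ℝ) (Cs : Finset (Finset W)),
      24 ≤ D → D ≤ d → (d : ℝ) ≤ C * D → ζ ≤ 1 / 8 → 0 < a → a ≤ κ → 0 < gC → gC ≤ 1 →
      t ≤ κ * gC ^ 2 → 0 ≤ g → g ≤ κ * gC ^ 2 → Tls d c t t1 t2 t3 t4 t5 t6 →
      Clx G d ((1 + 2 * C2) * MS) ζ a gC Cs →
      (∀ Q ∈ Cs, ((Q ∩ OO bl ∩ lgt G d a Cs).card : ℝ) ≤ κ * d) →
      Blx G Bk H d bl op (fun v => nd (ι v)) bo →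
      Shr G Bk H d bl (fun v => nd (ι v)) bo c t1 t2 t3 t4 t5 t6 MS →
      Gdx ι H bl bo Gh nd A D C2 c0 →
      (∀ T : Finset V, T ⊆ A → (T.card : ℝ) ≤ 1 / 4 * D → 1 / 4 * (T.card : ℝ) ≤ cut2 Gh D T) ∧
      ∀ T : Finset V, T ⊆ A → (T.card : ℝ) ≤ MS * D → cut2 Gh D T ≤ g * D →
        ((T.filter fun v => nd v = none).card : ℝ) ≤ δ * D

/-- small sets expand -/
theorem small {V : Type u} [Fintype V] {Gh : SimpleGraph V} {D : ℕ} {A : Finset V} (hD : 24 ≤ D)
    (sup : ∀ v w, Gh.Adj v w → v ∈ A)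
    (deg : ∀ v ∈ A, (nb Gh v).card ≤ D ∧ D ≤ (nb Gh v).card + 1)
    (T : Finset V) (hTA : T ⊆ A) (hT : (T.card : ℝ) ≤ 1 / 4 * D) :
    1 / 4 * (T.card : ℝ) ≤ cut2 Gh D T := by
  have hD0 : (24 : ℝ) ≤ D := by exact_mod_cast hD
  have h1 : ∀ v ∈ A, (D : ℝ) ≤ (nb Gh v).card + 1 := fun v hv => by exact_mod_cast (deg v hv).2
  rw [cut2_eq, le_div_iff₀ (by positivity)]
  have h2 : ∀ y ∈ A, ((nb Gh y ∩ T).card : ℝ) * (D / 2) ≤
      ((nb Gh y ∩ T).card : ℝ) * ((nb Gh y \ T).card : ℝ) := by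
    intro y hy
    refine mul_le_mul_of_nonneg_left ?_ (Nat.cast_nonneg _)
    have h3 := card_isd (nb Gh y) T
    have h4 : ((nb Gh y ∩ T).card : ℝ) ≤ T.card := card_le_of_sub inter_subset_right
    have h5 := h1 y hy
    linarith
  have h3 : ∑ y, ((nb Gh y ∩ T).card : ℝ) * (D / 2) ≤
      ∑ y, ((nb Gh y ∩ T).card : ℝ) * ((nb Gh y \ T).card : ℝ) := by
    refine sum_le_sum fun y _ => ?_
    by_cases hy : y ∈ A
    · exact h2 y hy
    · have : nb Gh y = ∅ := by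
        rw [eq_empty_iff_forall_notMem]
        intro w hw
        exact hy (sup y w (mem_nb.1 hw))
      rw [this]
      simp
  refine le_trans ?_ h3
  rw [← sum_mul]
  have h4 : ∑ y : V, ((nb Gh y ∩ T).card : ℝ) = ∑ v ∈ T, ((nb Gh v).card : ℝ) := by
    rw [dcount]
    simp
  rw [h4]
  have h5 : (T.card : ℝ) * (D - 1) ≤ ∑ v ∈ T, ((nb Gh v).card : ℝ) := by
    rw [← nsmul_eq_mul]
    refine card_nsmul_le_sum _ _ _ fun v hv => ?_
    have := h1 v (hTA hv)
    linarith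
  have h6 := mul_le_mul_of_nonneg_right h5 (show 0 ≤ (D : ℝ) / 2 by positivity)
  refine le_trans ?_ h6
  have h7 : (0 : ℝ) ≤ T.card := Nat.cast_nonneg _
  have h8 : 1 / 4 * (D : ℝ) ^ 2 ≤ (D - 1) * (D / 2) := by nlinarith
  have h9 := mul_le_mul_of_nonneg_left h8 h7
  linarith

theorem PP_nonneg {MS M c c0 : ℝ} (hMS : 0 ≤ MS) (hM : 0 ≤ M) (hc : 0 < c) (hc0 : 0 < c0) :
    0 ≤ PP MS M c c0 := by
  unfold PP
  positivity

theorem P2_nonneg {MS c c0 : ℝ} (hMS : 0 ≤ MS) (hc : 0 < c) (hc0 : 0 < c0) :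
    0 ≤ P2 MS c c0 := by
  unfold P2
  positivity

theorem stmt_CLJ : Stmt_CLJ.{u} := by
  intro MS δ C C2 c c0 hMS hδ hC hC2 hc hc1 hc0
  have hMS0 : 0 < MS := by linarith
  have hC0 : 0 < C := by linarith
  set M : ℝ := (1 + 2 * C2) * MS with hM
  have hM1 : 1 ≤ M := by
    rw [hM]
    nlinarith
  have hM0 : 0 < M := by linarith
  set P : ℝ := PP MS M c c0 with hP
  have hP0 : 0 ≤ P := PP_nonneg hMS0.le hM0.le hc hc0
  set Q2 : ℝ := P2 MS c c0 with hQ2
  have hQ20 : 0 ≤ Q2 := P2_nonneg hMS0.le hc hc0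
  obtain ⟨κ1, hκ1, k11, k12⟩ : ∃ κ1 : ℝ, 0 < κ1 ∧ κ1 ≤ c / 90 ∧ κ1 ≤ c * δ / (144 * M * C) :=
    ⟨min (c / 90) (c * δ / (144 * M * C)), lt_min (by positivity) (by positivity),
      min_le_left _ _, min_le_right _ _⟩
  obtain ⟨κ, hκ, k1, k2, k3, k4, k5, k6⟩ : ∃ κ : ℝ, 0 < κ ∧ κ ≤ κ1 / (MS + 1) ∧
      κ ≤ κ1 * c ^ 2 * δ / (822 * (P + 1) * C) ∧ κ ≤ δ / (3 * C * (Q2 + 1)) ∧ κ ≤ c0 ∧
      κ ≤ 1 / 3 ∧ κ ≤ δ / (56 * M * C) := by
    refine ⟨min (κ1 / (MS + 1)) (min (κ1 * c ^ 2 * δ / (822 * (P + 1) * C))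
      (min (δ / (3 * C * (Q2 + 1))) (min c0 (min (1 / 3) (δ / (56 * M * C)))))), ?_, ?_, ?_, ?_,
      ?_, ?_, ?_⟩
    · refine lt_min (by positivity) (lt_min (by positivity) (lt_min (by positivity)
        (lt_min hc0 (lt_min (by positivity) (by positivity)))))
    · exact min_le_left _ _
    · exact (min_le_right _ _).trans (min_le_left _ _)
    · exact (min_le_right _ _).trans ((min_le_right _ _).trans (min_le_left _ _))
    · exact (min_le_right _ _).trans ((min_le_right _ _).trans ((min_le_right _ _).trans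
        (min_le_left _ _)))
    · exact (min_le_right _ _).trans ((min_le_right _ _).trans ((min_le_right _ _).trans
        ((min_le_right _ _).trans (min_le_left _ _))))
    · exact (min_le_right _ _).trans ((min_le_right _ _).trans ((min_le_right _ _).trans
        ((min_le_right _ _).trans (min_le_right _ _))))
  refine ⟨κ, hκ, by linarith, ?_⟩
  intro W B I V _ _ _ _ G Bk H d D bl op bo ι Gh nd A ζ a gC t g t1 t2 t3 t4 t5 t6 Cs hD hDd hdC
    hζ ha haκ hgC hgC1 htκ hg hgκ hT hCl hQ hB hS hG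
  refine ⟨small hD hG.sup hG.deg, ?_⟩
  intro T hTA hTc hcut
  by_contra hcon
  rw [not_le] at hcon
  have hd : 0 < d := by omega
  have hd0 : (0 : ℝ) < d := by exact_mod_cast hd
  have hDr : (D : ℝ) ≤ d := by exact_mod_cast hDd
  have hgC2 : gC ^ 2 ≤ gC := by nlinarith
  have hgC20 : 0 < gC ^ 2 := by positivity
  have hτ1 : κ * gC ^ 2 ≤ c0 := by nlinarith
  have hτθ : (MS + 1) * (κ * gC ^ 2) ≤ κ1 * gC := by
    have e1 : (MS + 1) * κ ≤ κ1 := by
      have := mul_le_mul_of_nonneg_left k1 (show 0 ≤ MS + 1 by linarith)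
      rwa [mul_div_cancel₀ _ (show MS + 1 ≠ 0 by linarith)] at this
    have e2 : 0 ≤ (MS + 1) * κ := by positivity
    calc (MS + 1) * (κ * gC ^ 2) = (MS + 1) * κ * gC ^ 2 := by ring
      _ ≤ κ1 * gC := mul_le_mul e1 hgC2 hgC20.le hκ1.le
  have htt : ∀ {x : ℝ}, x ≤ t * d → x ≤ κ * gC ^ 2 * d := fun h =>
    h.trans (mul_le_mul_of_nonneg_right htκ hd0.le)
  have htt2 : ∀ {x : ℝ}, x ≤ t * d ^ 2 → x ≤ κ * gC ^ 2 * d ^ 2 := fun h =>
    h.trans (mul_le_mul_of_nonneg_right htκ (by positivity))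
  have htwo := two (M := M) (τ := κ * gC ^ 2) (θ := κ1 * gC) hB hS hG hD hDd hMS0.le hC2 hM hc hc1
    hc0 hg hgκ (hgκ.trans hτ1) (by positivity) (by nlinarith) hT.n1 hT.n2 hT.n3 hT.n4 hT.n5 hT.n6
    hT.h12 hT.h34 (htt hT.u1) (htt hT.u2) (htt2 hT.u3) (htt2 hT.u4) (htt hT.u5) (htt2 hT.u6) hτθ
    hTc hcut
  -- size of `T ∩ O`
  have hO := real_O hG hTA
  have hTO : δ * D < (((rl ι T) ∩ OO bl).card : ℝ) := lt_of_lt_of_le hcon hO
  have hTO2 : δ / C * d ≤ (((rl ι T) ∩ OO bl).card : ℝ) := by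
    refine le_trans ?_ hTO.le
    rw [div_mul_eq_mul_div, div_le_iff₀ hC0]
    have := mul_le_mul_of_nonneg_left hdC hδ.le
    linarith
  have hTG2 : δ / C * d ≤ ((TG bl bo (full nd T) (rl ι T)).card : ℝ) :=
    hTO2.trans (card_le_of_sub subset_union_left)
  have hTGM : ((TG bl bo (full nd T) (rl ι T)).card : ℝ) ≤ M * d := by
    have e1 := card_TG hB hG hC2 T
    have e2 : (T.card : ℝ) ≤ MS * d := hTc.trans (mul_le_mul_of_nonneg_left hDr hMS0.le)
    have e3 := mul_le_mul_of_nonneg_left e2 (show 0 ≤ 1 + 2 * C2 by linarith)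
    rw [hM]
    linarith
  -- the numbers of edges
  have hGB : GB MS M c c0 (κ * gC ^ 2) (κ1 * gC) d ≤ gC * (δ / C) * (d : ℝ) ^ 2 := by
    unfold GB
    refine mul_le_mul_of_nonneg_right ?_ (by positivity)
    have e0 : κ * gC ^ 2 / (κ1 * gC) = κ / κ1 * gC := by
      field_simp
    have e1 : 274 * (P / c ^ 2) * (κ * gC ^ 2 / (κ1 * gC)) ≤ gC * (δ / C) / 3 := by
      rw [e0]
      have e2 : κ / κ1 ≤ c ^ 2 * δ / (822 * (P + 1) * C) := by
        rw [div_le_iff₀ hκ1]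
        refine k2.trans (le_of_eq ?_)
        ring
      have e3 : 274 * (P / c ^ 2) * (κ / κ1) ≤ δ / C / 3 := by
        have e4 : 274 * (P / c ^ 2) * (κ / κ1) ≤
            274 * (P / c ^ 2) * (c ^ 2 * δ / (822 * (P + 1) * C)) :=
          mul_le_mul_of_nonneg_left e2 (by positivity)
        refine e4.trans ?_
        have e5 : 274 * (P / c ^ 2) * (c ^ 2 * δ / (822 * (P + 1) * C)) =
            P / (P + 1) * (δ / C / 3) := by
          field_simp
          ring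
        rw [e5]
        have e6 : P / (P + 1) ≤ 1 := by
          rw [div_le_one (by positivity)]
          linarith
        have e7 : 0 ≤ δ / C / 3 := by positivity
        nlinarith
      have e8 := mul_le_mul_of_nonneg_right e3 hgC.le
      calc 274 * (P / c ^ 2) * (κ / κ1 * gC) = 274 * (P / c ^ 2) * (κ / κ1) * gC := by ring
        _ ≤ δ / C / 3 * gC := e8
        _ = gC * (δ / C) / 3 := by ring
    have e2 : 48 * M / c * (κ1 * gC) ≤ gC * (δ / C) / 3 := by
      have e3 : 48 * M / c * κ1 ≤ δ / C / 3 := by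
        refine (mul_le_mul_of_nonneg_left k12 (by positivity)).trans (le_of_eq ?_)
        field_simp
        norm_num
      have e8 := mul_le_mul_of_nonneg_right e3 hgC.le
      calc 48 * M / c * (κ1 * gC) = 48 * M / c * κ1 * gC := by ring
        _ ≤ δ / C / 3 * gC := e8
        _ = gC * (δ / C) / 3 := by ring
    have e3 : Q2 * (κ * gC ^ 2) ≤ gC * (δ / C) / 3 := by
      have e4 : Q2 * κ ≤ δ / C / 3 := by
        refine (mul_le_mul_of_nonneg_left k3 hQ20).trans ?_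
        have e5 : Q2 * (δ / (3 * C * (Q2 + 1))) = Q2 / (Q2 + 1) * (δ / C / 3) := by
          field_simp
        rw [e5]
        have e6 : Q2 / (Q2 + 1) ≤ 1 := by
          rw [div_le_one (by positivity)]
          linarith
        have e7 : 0 ≤ δ / C / 3 := by positivity
        nlinarith
      calc Q2 * (κ * gC ^ 2) = Q2 * κ * gC ^ 2 := by ring
        _ ≤ δ / C / 3 * gC := mul_le_mul e4 hgC2 hgC20.le (by positivity)
        _ = gC * (δ / C) / 3 := by ring
    linarith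
  have hTGd : gC * (δ / C) * (d : ℝ) ^ 2 ≤
      gC * d * ((TG bl bo (full nd T) (rl ι T)).card : ℝ) := by
    have e1 := mul_le_mul_of_nonneg_left hTG2 (show 0 ≤ gC * (d : ℝ) by positivity)
    refine le_trans (le_of_eq ?_) e1
    ring
  have hU := card_UG hd hB.reg _ _ htwo.2
  have hU' : ((UG G d bl bo (full nd T) (full nd (Up Gh D T)) (rl ι T)).card : ℝ) ≤
      (1 + gC) * ((TG bl bo (full nd T) (rl ι T)).card : ℝ) := by
    have e1 : GB MS M c c0 (κ * gC ^ 2) (κ1 * gC) d / d ≤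
        gC * ((TG bl bo (full nd T) (rl ι T)).card : ℝ) := by
      rw [div_le_iff₀ hd0]
      have := hGB.trans hTGd
      linarith
    linarith
  have hfew := few hd hM0.le hκ.le hζ ha (haκ.trans k5) hgC1 hCl hQ _ _
    ((rl ι T) ∩ OO bl) subset_union_left hTGM hU' (htwo.1.trans (hGB.trans hTGd))
  have e1 : (rl ι T) ∩ OO bl ∩ OO bl = (rl ι T) ∩ OO bl := by
    rw [inter_assoc, inter_self]
  rw [e1] at hfew
  have e2 : 50 * M * a ^ 2 * d + 6 * M * (κ * d) ≤ δ * D := by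
    have e3 : a ^ 2 ≤ κ := by nlinarith
    have e4 : 50 * M * a ^ 2 * d ≤ 50 * M * κ * d := by
      have := mul_le_mul_of_nonneg_left e3 (show 0 ≤ 50 * M * (d : ℝ) by positivity)
      linarith
    have e5 : 56 * M * κ * d ≤ 56 * M * κ * (C * D) :=
      mul_le_mul_of_nonneg_left hdC (by positivity)
    have e6 : 56 * M * κ * C ≤ δ := by
      have := mul_le_mul_of_nonneg_left k6 (show 0 ≤ 56 * M * C by positivity)
      rw [mul_div_cancel₀ _ (show 56 * M * C ≠ 0 by positivity)] at this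
      linarith
    have e7 := mul_le_mul_of_nonneg_right e6 (Nat.cast_nonneg (α := ℝ) D)
    linarith
  linarith

end Pool.Agent.Work.MP_db9399_clj.helper75
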