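import Pool.Agent.Work.MP_db9399_sg.Interface

/-!
# MP_db9399, SWG, block CLJ, part 1: near-closed pairs and the sides of the gadgets (helper75)
-/

set_option autoImplicit false

namespace Pool.Agent.Work.MP_db9399_clj.helper75

open Finset Classical
open Pool.Agent.Work.MP_db9399_all (nb)
open Pool.Agent.Work.MP_db9399_cg (cdg)
open Pool.Agent.Work.MP_db9399_sg

universe u

section Gen

variable {V : Type u} [Fintype V]

theorem mem_nb {G : SimpleGraph V} {v w : V} : w ∈ nb G v ↔ G.Adj v w := by simp [nb]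

/-- double counting -/
theorem dcount (S : SimpleGraph V) (A B : Finset V) :
    ∑ v ∈ A, ((nb S v ∩ B).card : ℝ) = ∑ w ∈ B, ((nb S w ∩ A).card : ℝ) := by
  have h : ∀ (A B : Finset V), ∑ v ∈ A, ((nb S v ∩ B).card : ℝ) =
      ∑ v ∈ A, ∑ w ∈ B, (if S.Adj v w then (1 : ℝ) else 0) := by
    intro A B
    refine sum_congr rfl fun v _ => ?_
    rw [← sum_filter, sum_const, nsmul_eq_mul, mul_one]
    congr 2
    ext w
    simp [mem_nb, and_comm]
  rw [h, h, sum_comm]
  refine sum_congr rfl fun w _ => sum_congr rfl fun v _ => ?_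
  simp [S.adj_comm]

/-- sum of the codegrees -/
theorem scdg (S : SimpleGraph V) (A B : Finset V) :
    ∑ u ∈ A, ∑ w ∈ B, cdg S u w =
      ∑ y, ((nb S y ∩ A).card : ℝ) * ((nb S y ∩ B).card : ℝ) := by
  have h1 : ∀ u w, cdg S u w =
      ∑ y, (if S.Adj u y then (1 : ℝ) else 0) * (if S.Adj w y then (1 : ℝ) else 0) := by
    intro u w
    rw [cdg]
    have : ∀ y, (if S.Adj u y then (1 : ℝ) else 0) * (if S.Adj w y then (1 : ℝ) else 0) =
        if y ∈ nb S u ∩ nb S w then 1 else 0 := by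
      intro y
      simp only [mem_inter, mem_nb]
      by_cases h1 : S.Adj u y <;> by_cases h2 : S.Adj w y <;> simp [h1, h2]
    rw [sum_congr rfl fun y _ => this y, ← sum_filter, sum_const, nsmul_eq_mul, mul_one]
    congr 2
    ext y
    simp
  have h2 : ∀ (y : V) (A : Finset V), ((nb S y ∩ A).card : ℝ) =
      ∑ u ∈ A, (if S.Adj u y then (1 : ℝ) else 0) := by
    intro y A
    rw [← sum_filter, sum_const, nsmul_eq_mul, mul_one]
    congr 2
    ext u
    simp [mem_nb, and_comm, S.adj_comm]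
  simp only [h1, h2]
  calc ∑ u ∈ A, ∑ w ∈ B, ∑ y, (if S.Adj u y then (1 : ℝ) else 0) *
        (if S.Adj w y then (1 : ℝ) else 0) =
      ∑ u ∈ A, ∑ y, ∑ w ∈ B, (if S.Adj u y then (1 : ℝ) else 0) *
        (if S.Adj w y then (1 : ℝ) else 0) := sum_congr rfl fun u _ => sum_comm
    _ = ∑ y, ∑ u ∈ A, ∑ w ∈ B, (if S.Adj u y then (1 : ℝ) else 0) *
        (if S.Adj w y then (1 : ℝ) else 0) := sum_comm
    _ = _ := by
        refine sum_congr rfl fun y _ => ?_
        rw [sum_mul_sum]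

/-- the two-step boundary -/
theorem cut2_eq (S : SimpleGraph V) (R : ℕ) (T : Finset V) :
    cut2 S R T = (∑ y, ((nb S y ∩ T).card : ℝ) * ((nb S y \ T).card : ℝ)) / (R : ℝ) ^ 2 := by
  have h : ∀ y, nb S y \ T = nb S y ∩ (univ \ T) := by
    intro y
    ext x
    simp
  simp only [h]
  rw [← scdg, cut2, sum_div]
  exact sum_congr rfl fun u _ => by rw [sum_div]

theorem card_isd (A B : Finset V) : ((A ∩ B).card : ℝ) + ((A \ B).card : ℝ) = A.card := by
  exact_mod_cast card_inter_add_card_sdiff A B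

/-- the partner of `T` -/
noncomputable def Up (S : SimpleGraph V) (D : ℕ) (T : Finset V) : Finset V :=
  univ.filter fun y => D ≤ 2 * (nb S y ∩ T).card

variable {S : SimpleGraph V} {D : ℕ} {T : Finset V} {g : ℝ}

theorem cut_sum (hD : 0 < D) (hc : cut2 S D T ≤ g * D) :
    ∑ y, ((nb S y ∩ T).card : ℝ) * ((nb S y \ T).card : ℝ) ≤ g * (D : ℝ) ^ 3 := by
  have hD0 : (0 : ℝ) < D := by exact_mod_cast hD
  rw [cut2_eq, div_le_iff₀ (by positivity)] at hc
  calc _ ≤ g * D * (D : ℝ) ^ 2 := hc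
    _ = _ := by ring

/-- few edges leave from `U` to the complement of `T` -/
theorem pairU (hD : 0 < D) (hc : cut2 S D T ≤ g * D) :
    ∑ y ∈ Up S D T, ((nb S y \ T).card : ℝ) ≤ 2 * g * (D : ℝ) ^ 2 := by
  have hD0 : (0 : ℝ) < D := by exact_mod_cast hD
  have h1 : ∀ y ∈ Up S D T, (D : ℝ) / 2 * ((nb S y \ T).card : ℝ) ≤
      ((nb S y ∩ T).card : ℝ) * ((nb S y \ T).card : ℝ) := by
    intro y hy
    refine mul_le_mul_of_nonneg_right ?_ (Nat.cast_nonneg _)
    have h2 : D ≤ 2 * (nb S y ∩ T).card := (mem_filter.1 hy).2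
    have h3 : (D : ℝ) ≤ 2 * ((nb S y ∩ T).card : ℝ) := by exact_mod_cast h2
    linarith
  have h2 : (D : ℝ) / 2 * ∑ y ∈ Up S D T, ((nb S y \ T).card : ℝ) ≤ g * (D : ℝ) ^ 3 := by
    rw [mul_sum]
    refine (sum_le_sum h1).trans (le_trans ?_ (cut_sum hD hc))
    exact sum_le_sum_of_subset_of_nonneg (subset_univ _) fun y _ _ => by positivity
  have h3 : (D : ℝ) / 2 * (2 * g * (D : ℝ) ^ 2) = g * (D : ℝ) ^ 3 := by ring
  rw [← h3] at h2
  exact le_of_mul_le_mul_left h2 (by positivity)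

/-- few edges leave from `T` to the complement of `U` -/
theorem pairT (hD : 2 ≤ D) (hdeg : ∀ y, nb S y ∩ T ≠ ∅ → D ≤ (nb S y).card + 1)
    (hc : cut2 S D T ≤ g * D) :
    ∑ v ∈ T, ((nb S v \ Up S D T).card : ℝ) ≤ 4 * g * (D : ℝ) ^ 2 := by
  have hD0 : (2 : ℝ) ≤ D := by exact_mod_cast hD
  have h0 : ∀ v, nb S v \ Up S D T = nb S v ∩ (univ \ Up S D T) := by
    intro v
    ext x
    simp
  simp only [h0]
  rw [dcount]
  have h1 : ∀ y ∈ univ \ Up S D T, (D : ℝ) / 4 * ((nb S y ∩ T).card : ℝ) ≤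
      ((nb S y ∩ T).card : ℝ) * ((nb S y \ T).card : ℝ) := by
    intro y hy
    rw [mem_sdiff] at hy
    have h2 : 2 * (nb S y ∩ T).card < D := by
      by_contra hcon
      exact hy.2 (mem_filter.2 ⟨mem_univ _, not_lt.1 hcon⟩)
    by_cases h3 : nb S y ∩ T = ∅
    · rw [h3]
      simp
    rw [mul_comm ((D : ℝ) / 4)]
    refine mul_le_mul_of_nonneg_left ?_ (Nat.cast_nonneg _)
    have h4 := hdeg y h3
    have h5 : (nb S y ∩ T).card + (nb S y \ T).card = (nb S y).card :=
      card_inter_add_card_sdiff _ _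
    have h6 : D ≤ 2 * (nb S y \ T).card + 1 := by omega
    have h7 : (D : ℝ) ≤ 2 * ((nb S y \ T).card : ℝ) + 1 := by exact_mod_cast h6
    linarith
  have h2 : (D : ℝ) / 4 * ∑ y ∈ univ \ Up S D T, ((nb S y ∩ T).card : ℝ) ≤ g * (D : ℝ) ^ 3 := by
    rw [mul_sum]
    refine (sum_le_sum h1).trans (le_trans ?_ (cut_sum (by omega) hc))
    exact sum_le_sum_of_subset_of_nonneg (subset_univ _) fun y _ _ => by positivity
  have h3 : (D : ℝ) / 4 * (4 * g * (D : ℝ) ^ 2) = g * (D : ℝ) ^ 3 := by ring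
  rw [← h3] at h2
  exact le_of_mul_le_mul_left h2 (by positivity)

end Gen

section Sides

variable {V I : Type u} [Fintype V] [Fintype I] {S : SimpleGraph V} {D : ℕ} {T : Finset V}
  {g c β : ℝ} {nd : V → Option (I × Bool)}

omit [Fintype I] in
theorem mem_nsd {i : I} {s : Bool} {v : V} : v ∈ nsd nd i s ↔ nd v = some (i, s) := by
  simp [nsd]

/-- the smaller part of a side -/
noncomputable def mn (nd : V → Option (I × Bool)) (T : Finset V) (p : I × Bool) : ℝ :=
  min ((T ∩ nsd nd p.1 p.2).card : ℝ) ((nsd nd p.1 p.2 \ T).card : ℝ)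

omit [Fintype I] in
theorem mn_nonneg (T : Finset V) (p : I × Bool) : 0 ≤ mn nd T p :=
  le_min (Nat.cast_nonneg _) (Nat.cast_nonneg _)

/-- `T` contains at least half of the side -/
def full (nd : V → Option (I × Bool)) (T : Finset V) (p : I × Bool) : Prop :=
  (nsd nd p.1 p.2 \ T).card ≤ (T ∩ nsd nd p.1 p.2).card

omit [Fintype I] in
theorem mn_full {p : I × Bool} (h : full nd T p) : mn nd T p = (nsd nd p.1 p.2 \ T).card :=
  min_eq_right (by exact_mod_cast h)

omit [Fintype I] in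
theorem mn_not {p : I × Bool} (h : ¬ full nd T p) : mn nd T p = (T ∩ nsd nd p.1 p.2).card :=
  min_eq_left (by exact_mod_cast (not_le.1 h).le)

omit [Fintype I] in
theorem half_full {p : I × Bool} (h : full nd T p) :
    ((nsd nd p.1 p.2).card : ℝ) ≤ 2 * ((T ∩ nsd nd p.1 p.2).card : ℝ) := by
  have h1 := card_isd (nsd nd p.1 p.2) T
  rw [inter_comm] at h1
  have h2 : ((nsd nd p.1 p.2 \ T).card : ℝ) ≤ (T ∩ nsd nd p.1 p.2).card := by exact_mod_cast h
  linarith

omit [Fintype I] in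
theorem half_not {p : I × Bool} (h : ¬ full nd T p) :
    ((nsd nd p.1 p.2).card : ℝ) ≤ 2 * ((nsd nd p.1 p.2 \ T).card : ℝ) := by
  have h1 := card_isd (nsd nd p.1 p.2) T
  rw [inter_comm] at h1
  have h2 : ((T ∩ nsd nd p.1 p.2).card : ℝ) ≤ (nsd nd p.1 p.2 \ T).card := by
    exact_mod_cast (not_le.1 h).le
  linarith

omit [Fintype I] in
/-- product of the two parts of a side -/
theorem mn_mul {p : I × Bool} (h8 : 8 * D ≤ (nsd nd p.1 p.2).card) (T : Finset V) :
    4 * (D : ℝ) * mn nd T p ≤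
      ((T ∩ nsd nd p.1 p.2).card : ℝ) * ((nsd nd p.1 p.2 \ T).card : ℝ) := by
  have h9 : (8 : ℝ) * D ≤ (nsd nd p.1 p.2).card := by exact_mod_cast h8
  by_cases h : full nd T p
  · have h1 := half_full h
    rw [mn_full h]
    exact mul_le_mul_of_nonneg_right (by linarith) (Nat.cast_nonneg _)
  · have h1 := half_not h
    rw [mn_not h, mul_comm]
    exact mul_le_mul_of_nonneg_left (by linarith) (Nat.cast_nonneg _)

/-- sum over the sides of the number of vertices of `A` in the side -/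
theorem sum_sides (nd : V → Option (I × Bool)) (A : Finset V) (f : V → ℝ)
    (hf : ∀ v ∈ A, 0 ≤ f v) :
    ∑ p : I × Bool, ∑ v ∈ A ∩ nsd nd p.1 p.2, f v ≤ ∑ v ∈ A, f v := by
  rw [← sum_biUnion]
  · refine sum_le_sum_of_subset_of_nonneg ?_ fun v hv _ => hf v hv
    intro v hv
    rw [mem_biUnion] at hv
    obtain ⟨p, _, h⟩ := hv
    exact (mem_inter.1 h).1
  · intro p _ q _ hpq
    rw [Function.onFun, disjoint_left]
    intro v h1 h2
    have h3 := mem_nsd.1 (mem_inter.1 h1).2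
    have h4 := mem_nsd.1 (mem_inter.1 h2).2
    rw [h3] at h4
    exact hpq (Prod.ext (Prod.mk.inj (Option.some.inj h4)).1 (Prod.mk.inj (Option.some.inj h4)).2)

/-- **Sides and `T`**: every side is nearly contained in `T` or nearly disjoint from `T`. -/
theorem sidesT (hD : 0 < D) (hc0 : 0 < c) (h8 : ∀ i s, 8 * D ≤ (nsd nd i s).card)
    (hcd : ∀ i s, ∀ u ∈ nsd nd i s, ∀ w ∈ nsd nd i s, c * D ≤ cdg S u w)
    (hc : cut2 S D T ≤ g * D) : ∑ p : I × Bool, mn nd T p ≤ g * D / (4 * c) := by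
  have hD0 : (0 : ℝ) < D := by exact_mod_cast hD
  have h1 : ∀ p : I × Bool, 4 * c * mn nd T p ≤
      ∑ u ∈ T ∩ nsd nd p.1 p.2, ∑ w ∈ univ \ T, cdg S u w / (D : ℝ) ^ 2 := by
    intro p
    have h2 : ∀ u ∈ T ∩ nsd nd p.1 p.2, ((nsd nd p.1 p.2 \ T).card : ℝ) * (c / D) ≤
        ∑ w ∈ univ \ T, cdg S u w / (D : ℝ) ^ 2 := by
      intro u hu
      have h3 : ∑ w ∈ nsd nd p.1 p.2 \ T, cdg S u w / (D : ℝ) ^ 2 ≤
          ∑ w ∈ univ \ T, cdg S u w / (D : ℝ) ^ 2 := by
        refine sum_le_sum_of_subset_of_nonneg ?_ fun w _ _ => ?_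
        · exact sdiff_subset_sdiff (subset_univ _) subset_rfl
        · rw [cdg]
          positivity
      refine le_trans ?_ h3
      rw [← nsmul_eq_mul]
      refine card_nsmul_le_sum _ _ _ fun w hw => ?_
      have h4 := hcd p.1 p.2 u (mem_inter.1 hu).2 w (mem_sdiff.1 hw).1
      rw [div_le_div_iff₀ hD0 (by positivity)]
      have h5 := mul_le_mul_of_nonneg_right h4 hD0.le
      have e : c * (D : ℝ) ^ 2 = c * D * D := by ring
      rw [e]
      exact h5
    have h3 : ((T ∩ nsd nd p.1 p.2).card : ℝ) * (((nsd nd p.1 p.2 \ T).card : ℝ) * (c / D)) ≤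
        ∑ u ∈ T ∩ nsd nd p.1 p.2, ∑ w ∈ univ \ T, cdg S u w / (D : ℝ) ^ 2 := by
      rw [← nsmul_eq_mul]
      exact card_nsmul_le_sum _ _ _ h2
    refine le_trans ?_ h3
    have h4 := mn_mul (h8 p.1 p.2) T
    have h5 : 4 * c * mn nd T p = 4 * D * mn nd T p * (c / D) := by
      field_simp
    rw [h5]
    have h6 := mul_le_mul_of_nonneg_right h4 (show 0 ≤ c / (D : ℝ) by positivity)
    linarith
  have h2 : 4 * c * ∑ p : I × Bool, mn nd T p ≤ g * D := by
    rw [mul_sum]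
    refine (sum_le_sum fun p _ => h1 p).trans (le_trans ?_ hc)
    refine sum_sides nd T _ fun v _ => sum_nonneg fun w _ => ?_
    rw [cdg]
    positivity
  rw [le_div_iff₀ (by positivity)]
  linarith

/-- **Sides and `U`** -/
theorem sidesU {U : Finset V} {G1 G2 : ℝ} (hD : 0 < D) (hc0 : 0 < c)
    (hdeg : ∀ v, (nb S v).card ≤ D) (h8 : ∀ i s, 8 * D ≤ (nsd nd i s).card)
    (hcd : ∀ i s, ∀ u ∈ nsd nd i s, ∀ w ∈ nsd nd i s, c * D ≤ cdg S u w)
    (p1 : ∑ v ∈ T, ((nb S v \ U).card : ℝ) ≤ G1) (p2 : ∑ y ∈ U, ((nb S y \ T).card : ℝ) ≤ G2) :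
    ∑ p : I × Bool, mn nd U p ≤ (G1 + G2) / (4 * c * D) := by
  have hD0 : (0 : ℝ) < D := by exact_mod_cast hD
  have hdr : ∀ v, ((nb S v).card : ℝ) ≤ D := fun v => by exact_mod_cast hdeg v
  have hU : ∀ v, nb S v \ U = nb S v ∩ (univ \ U) := fun v => by
    ext x
    simp
  -- for one side
  have h1 : ∀ p : I × Bool, 4 * c * (D : ℝ) ^ 2 * mn nd U p ≤
      ∑ u ∈ U ∩ nsd nd p.1 p.2, ∑ w ∈ nsd nd p.1 p.2 \ U, cdg S u w := by
    intro p
    have h2 : ∀ u ∈ U ∩ nsd nd p.1 p.2, ((nsd nd p.1 p.2 \ U).card : ℝ) * (c * D) ≤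
        ∑ w ∈ nsd nd p.1 p.2 \ U, cdg S u w := by
      intro u hu
      rw [← nsmul_eq_mul]
      exact card_nsmul_le_sum _ _ _ fun w hw =>
        hcd p.1 p.2 u (mem_inter.1 hu).2 w (mem_sdiff.1 hw).1
    have h3 : ((U ∩ nsd nd p.1 p.2).card : ℝ) * (((nsd nd p.1 p.2 \ U).card : ℝ) * (c * D)) ≤
        ∑ u ∈ U ∩ nsd nd p.1 p.2, ∑ w ∈ nsd nd p.1 p.2 \ U, cdg S u w := by
      rw [← nsmul_eq_mul]
      exact card_nsmul_le_sum _ _ _ h2
    refine le_trans ?_ h3
    have h6 := mul_le_mul_of_nonneg_right (mn_mul (h8 p.1 p.2) U)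
      (show 0 ≤ c * (D : ℝ) by positivity)
    have e : 4 * c * (D : ℝ) ^ 2 * mn nd U p = 4 * D * mn nd U p * (c * D) := by ring
    linarith
  -- middle vertices in `T` and outside
  have h2 : ∀ p : I × Bool, ∑ u ∈ U ∩ nsd nd p.1 p.2, ∑ w ∈ nsd nd p.1 p.2 \ U, cdg S u w ≤
      ∑ z ∈ T, (((nb S z \ U) ∩ nsd nd p.1 p.2).card : ℝ) * D +
        ∑ u ∈ U ∩ nsd nd p.1 p.2, ((nb S u \ T).card : ℝ) * D := by
    intro p
    rw [scdg, ← sum_add_sum_compl T]
    refine add_le_add (sum_le_sum fun z _ => ?_) ?_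
    · have a1 : ((nb S z ∩ (U ∩ nsd nd p.1 p.2)).card : ℝ) ≤ D :=
        le_trans (by exact_mod_cast card_le_card inter_subset_left) (hdr z)
      have a2 : nb S z ∩ (nsd nd p.1 p.2 \ U) = (nb S z \ U) ∩ nsd nd p.1 p.2 := by
        ext x
        simp only [mem_inter, mem_sdiff]
        tauto
      rw [a2, mul_comm]
      exact mul_le_mul_of_nonneg_left a1 (Nat.cast_nonneg _)
    · calc ∑ z ∈ Tᶜ, ((nb S z ∩ (U ∩ nsd nd p.1 p.2)).card : ℝ) *
            ((nb S z ∩ (nsd nd p.1 p.2 \ U)).card : ℝ) ≤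
          ∑ z ∈ Tᶜ, ((nb S z ∩ (U ∩ nsd nd p.1 p.2)).card : ℝ) * D := by
            refine sum_le_sum fun z _ => mul_le_mul_of_nonneg_left ?_ (Nat.cast_nonneg _)
            exact le_trans (by exact_mod_cast card_le_card inter_subset_left) (hdr z)
        _ = (∑ u ∈ U ∩ nsd nd p.1 p.2, ((nb S u ∩ Tᶜ).card : ℝ)) * D := by
            rw [← sum_mul, dcount]
        _ = _ := by
            rw [sum_mul]
            refine sum_congr rfl fun u _ => ?_
            congr 3
            ext x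
            simp
  have h3 : 4 * c * (D : ℝ) ^ 2 * ∑ p : I × Bool, mn nd U p ≤ (G1 + G2) * D := by
    rw [mul_sum]
    refine (sum_le_sum fun p _ => (h1 p).trans (h2 p)).trans ?_
    rw [sum_add_distrib, add_mul]
    refine add_le_add ?_ ?_
    · rw [sum_comm]
      calc ∑ z ∈ T, ∑ p : I × Bool, (((nb S z \ U) ∩ nsd nd p.1 p.2).card : ℝ) * D ≤
          ∑ z ∈ T, ((nb S z \ U).card : ℝ) * D := by
            refine sum_le_sum fun z _ => ?_
            rw [← sum_mul]
            refine mul_le_mul_of_nonneg_right ?_ hD0.le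
            have := sum_sides nd (nb S z \ U) (fun _ => (1 : ℝ)) (fun _ _ => zero_le_one)
            simpa using this
        _ ≤ G1 * D := by
            rw [← sum_mul]
            exact mul_le_mul_of_nonneg_right p1 hD0.le
    · refine (sum_sides nd U (fun u => ((nb S u \ T).card : ℝ) * D) fun v _ => by positivity).trans ?_
      rw [← sum_mul]
      exact mul_le_mul_of_nonneg_right p2 hD0.le
  rw [le_div_iff₀ (by positivity)]
  have e : 4 * c * (D : ℝ) ^ 2 * ∑ p : I × Bool, mn nd U p =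
      ((∑ p : I × Bool, mn nd U p) * (4 * c * D)) * D := by ring
  rw [e] at h3
  exact le_of_mul_le_mul_right h3 hD0

omit [Fintype I] in
/-- **Opposite sides**: `T` contains `(i, s)` iff `U` contains `(i, !s)`. -/
theorem oppo {i : I} {s : Bool} (hD : 24 ≤ D) (hβ : β ≤ 1 / 8)
    (hdeg : ∀ v, (nb S v).card ≤ D)
    (hho : ∀ v ∈ nsd nd i (!s), (1 - β) * D - 1 ≤ ((nb S v ∩ nsd nd i s).card : ℝ))
    (h8 : 8 * D ≤ (nsd nd i (!s)).card) (hmn : mn nd T (i, s) < D) :
    full nd T (i, s) ↔ full nd (Up S D T) (i, !s) := by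
  have hD0 : (24 : ℝ) ≤ D := by exact_mod_cast hD
  have h8' : (8 : ℝ) * D ≤ (nsd nd i (!s)).card := by exact_mod_cast h8
  have hdr : ∀ v, ((nb S v).card : ℝ) ≤ D := fun v => by exact_mod_cast hdeg v
  constructor
  · intro hf
    rw [mn_full hf] at hmn
    simp only at hmn
    by_contra hn
    have h1 := half_not hn
    simp only at h1
    -- vertices of the side outside `U`
    have h2 : ∀ y ∈ nsd nd i (!s) \ Up S D T, (D : ℝ) / 3 ≤
        ((nb S y ∩ (nsd nd i s \ T)).card : ℝ) := by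
      intro y hy
      rw [mem_sdiff] at hy
      have h3 := hho y hy.1
      have h4 : 2 * (nb S y ∩ T).card < D := by
        by_contra hcon
        exact hy.2 (mem_filter.2 ⟨mem_univ _, not_lt.1 hcon⟩)
      have h5 : (2 : ℝ) * ((nb S y ∩ T).card : ℝ) < D := by exact_mod_cast h4
      have h6 : ((nb S y ∩ nsd nd i s).card : ℝ) ≤ ((nb S y ∩ T).card : ℝ) +
          ((nb S y ∩ (nsd nd i s \ T)).card : ℝ) := by
        have : nb S y ∩ nsd nd i s ⊆ (nb S y ∩ T) ∪ (nb S y ∩ (nsd nd i s \ T)) := by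
          intro x
          simp only [mem_inter, mem_union, mem_sdiff]
          tauto
        exact_mod_cast (card_le_card this).trans (card_union_le _ _)
      nlinarith
    have h3 : ((nsd nd i (!s) \ Up S D T).card : ℝ) * (D / 3) ≤
        ((nsd nd i s \ T).card : ℝ) * D := by
      have h4 : ((nsd nd i (!s) \ Up S D T).card : ℝ) * (D / 3) ≤
          ∑ y ∈ nsd nd i (!s) \ Up S D T, ((nb S y ∩ (nsd nd i s \ T)).card : ℝ) := by
        rw [← nsmul_eq_mul]
        exact card_nsmul_le_sum _ _ _ h2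
      refine h4.trans ?_
      rw [dcount, ← nsmul_eq_mul]
      refine sum_le_card_nsmul _ _ _ fun x _ => ?_
      exact le_trans (by exact_mod_cast card_le_card inter_subset_left) (hdr x)
    have h4 : (4 : ℝ) * D ≤ ((nsd nd i (!s) \ Up S D T).card : ℝ) := by linarith
    have h5 : 4 * (D : ℝ) * (D / 3) ≤ ((nsd nd i s \ T).card : ℝ) * D :=
      (mul_le_mul_of_nonneg_right h4 (by positivity)).trans h3
    nlinarith
  · intro hf
    by_contra hn
    rw [mn_not hn] at hmn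
    simp only at hmn
    have h1 := half_full hf
    simp only at h1
    have h2 : ∀ y ∈ Up S D T ∩ nsd nd i (!s), (D : ℝ) / 3 ≤
        ((nb S y ∩ (T ∩ nsd nd i s)).card : ℝ) := by
      intro y hy
      rw [mem_inter] at hy
      have h3 := hho y hy.2
      have h4 : D ≤ 2 * (nb S y ∩ T).card := (mem_filter.1 hy.1).2
      have h5 : (D : ℝ) ≤ 2 * ((nb S y ∩ T).card : ℝ) := by exact_mod_cast h4
      have h6 : ((nb S y ∩ T).card : ℝ) + ((nb S y ∩ nsd nd i s).card : ℝ) ≤
          ((nb S y).card : ℝ) + ((nb S y ∩ (T ∩ nsd nd i s)).card : ℝ) := by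
        have h7 := card_union_add_card_inter (nb S y ∩ T) (nb S y ∩ nsd nd i s)
        have h9 : (nb S y ∩ T) ∩ (nb S y ∩ nsd nd i s) = nb S y ∩ (T ∩ nsd nd i s) := by
          ext x
          simp only [mem_inter]
          tauto
        rw [h9] at h7
        have h10 : ((nb S y ∩ T) ∪ (nb S y ∩ nsd nd i s)).card ≤ (nb S y).card :=
          card_le_card (union_subset inter_subset_left inter_subset_left)
        have h11 : (nb S y ∩ T).card + (nb S y ∩ nsd nd i s).card ≤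
            (nb S y).card + (nb S y ∩ (T ∩ nsd nd i s)).card := by omega
        exact_mod_cast h11
      have h7 := hdr y
      nlinarith
    have h3 : ((Up S D T ∩ nsd nd i (!s)).card : ℝ) * (D / 3) ≤
        ((T ∩ nsd nd i s).card : ℝ) * D := by
      have h4 : ((Up S D T ∩ nsd nd i (!s)).card : ℝ) * (D / 3) ≤
          ∑ y ∈ Up S D T ∩ nsd nd i (!s), ((nb S y ∩ (T ∩ nsd nd i s)).card : ℝ) := by
        rw [← nsmul_eq_mul]
        exact card_nsmul_le_sum _ _ _ h2
      refine h4.trans ?_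
      rw [dcount, ← nsmul_eq_mul]
      refine sum_le_card_nsmul _ _ _ fun x _ => ?_
      exact le_trans (by exact_mod_cast card_le_card inter_subset_left) (hdr x)
    have h4 : (4 : ℝ) * D ≤ ((Up S D T ∩ nsd nd i (!s)).card : ℝ) := by linarith
    have h5 : 4 * (D : ℝ) * (D / 3) ≤ ((T ∩ nsd nd i s).card : ℝ) * D :=
      (mul_le_mul_of_nonneg_right h4 (by positivity)).trans h3
    nlinarith

/-- number of the full sides -/
theorem nfull {MS : ℝ} (hD : 0 < D) (h8 : ∀ i s, 8 * D ≤ (nsd nd i s).card)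
    (hT : (T.card : ℝ) ≤ MS * D) :
    (((univ : Finset (I × Bool)).filter fun p => full nd T p).card : ℝ) ≤ MS / 4 := by
  have hD0 : (0 : ℝ) < D := by exact_mod_cast hD
  have h1 : ∀ p ∈ (univ : Finset (I × Bool)).filter (fun p => full nd T p),
      4 * (D : ℝ) ≤ ((T ∩ nsd nd p.1 p.2).card : ℝ) := by
    intro p hp
    have h2 := half_full (mem_filter.1 hp).2
    have h3 : (8 : ℝ) * D ≤ (nsd nd p.1 p.2).card := by exact_mod_cast h8 p.1 p.2
    linarith
  have h2 : (((univ : Finset (I × Bool)).filter fun p => full nd T p).card : ℝ) * (4 * D) ≤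
      MS * D := by
    rw [← nsmul_eq_mul]
    refine (card_nsmul_le_sum _ _ _ h1).trans (le_trans ?_ hT)
    refine (sum_le_sum_of_subset_of_nonneg (subset_univ _) fun _ _ _ => Nat.cast_nonneg _).trans ?_
    have := sum_sides nd T (fun _ => (1 : ℝ)) (fun _ _ => zero_le_one)
    simpa using this
  rw [le_div_iff₀ (by norm_num)]
  have h3 : (((univ : Finset (I × Bool)).filter fun p => full nd T p).card : ℝ) * 4 * D ≤
      MS * D := by linarith
  exact le_of_mul_le_mul_right h3 hD0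

end Sides

end Pool.Agent.Work.MP_db9399_clj.helper75
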