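import Pool.Agent.Work.MP_db9399_sg.Interface
import Pool.Agent.Work.MP_db9399_xc_helper38.ATOMS

/-!
# MP_db9399, SWG, block CLJ: what the closedness of `Gh_j` needs (helper75, note 1584)

`W` = real vertices, `X` = dummies, `G` real graph, `Bk` its bulk edges, `H` = real edges of one
class. Blocks: `bl v = some b`; `bl v = none` exactly at the vertices of `O`. `op b` = opposite block
(for pieces of type B the other side, for types N, K the block itself). Node sides
`p = (i, s)` of the class, contained in the block `b` if `bo p = some b`; `bo p = none`: the node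
consists of dummies. Only lower bounds for `H`.
-/

set_option autoImplicit false

namespace Pool.Agent.Work.MP_db9399_clj.helper75

open Finset Classical
open Pool.Agent.Work.MP_db9399_all (nb)
open Pool.Agent.Work.MP_db9399_cg (cdg)
open Pool.Agent.Work.MP_db9399_sg

universe u

section Defs

variable {W B I : Type u} [Fintype W] [Fintype B] [Fintype I]

/-- the vertices outside the blocks -/
noncomputable def OO (bl : W → Option B) : Finset W := univ.filter fun v => bl v = none

/-- the vertices of the block `b` -/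
noncomputable def blk (bl : W → Option B) (b : B) : Finset W := univ.filter fun v => bl v = some b

/-- number of the neighbours of `x` in the block `b` -/
noncomputable def nB (G : SimpleGraph W) (bl : W → Option B) (x : W) (b : B) : ℝ :=
  ((nb G x ∩ blk bl b).card : ℝ)

/-- number of the edges of `E` between `A` and `B` (ordered) -/
noncomputable def eE (E : SimpleGraph W) (A A' : Finset W) : ℝ :=
  ∑ v ∈ A, ((nb E v ∩ A').card : ℝ)

/-- the vertices in blocks `b'` with few edges to the block `b` -/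
noncomputable def scB (E : SimpleGraph W) (bl : W → Option B) (t : ℝ) (b : B) : Finset W :=
  univ.filter fun w => ∃ b', bl w = some b' ∧ eE E (blk bl b) (blk bl b') < t

/-- the vertices of `O` with few neighbours in the block `b` -/
noncomputable def scO (G : SimpleGraph W) (bl : W → Option B) (t : ℝ) (b : B) : Finset W :=
  (OO bl).filter fun x => nB G bl x b < t

/-- the vertices in blocks where `x` has few neighbours -/
noncomputable def scV (G : SimpleGraph W) (bl : W → Option B) (t : ℝ) (x : W) : Finset W :=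
  univ.filter fun w => ∃ b, bl w = some b ∧ nB G bl x b < t

/-- the vertices of `O` with at least `d / 2` neighbours in blocks outside `F` -/
noncomputable def lgF (G : SimpleGraph W) (bl : W → Option B) (d : ℕ) (F : Finset B) : Finset W :=
  (OO bl).filter fun y =>
    (d : ℝ) / 2 ≤ ((nb G y ∩ univ.filter fun w => ∃ b, bl w = some b ∧ b ∉ F).card : ℝ)

/-- codegree through `O` -/
noncomputable def cO (G : SimpleGraph W) (bl : W → Option B) (u w : W) : ℝ :=
  ((nb G u ∩ nb G w ∩ OO bl).card : ℝ)

/-- Blocks and node sides. -/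
structure Blx (G Bk H : SimpleGraph W) (d : ℕ) (bl : W → Option B) (op : B → B)
    (nd0 : W → Option (I × Bool)) (bo : I × Bool → Option B) : Prop where
  reg : ∀ v, (nb G v).card = d
  opp : ∀ b, op (op b) = b
  BG : Bk ≤ G
  bk : ∀ v w, Bk.Adj v w → ∃ b, bl v = some b ∧ bl w = some (op b)
  HG : ∀ v w, H.Adj v w → G.Adj v w ∧ ¬ Bk.Adj v w
  Ha : ∀ v w, H.Adj v w → bl v = none ∨ nd0 v ≠ none
  nd : ∀ v p, nd0 v = some p → ∃ b, bo p = some b ∧ bl v = some b
  bop : ∀ i s, bo (i, !s) = (bo (i, s)).map op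
  bex : ∀ b, ∃ p, bo p = some b

/-- Shares of the class in the edges of `G`: lower bounds. `t1` error at a vertex, `t2` threshold
for the pairs (vertex, block), `t3` error for a block, `t4` threshold for the pairs of blocks. -/
structure Shr (G Bk H : SimpleGraph W) (d : ℕ) (bl : W → Option B) (nd0 : W → Option (I × Bool))
    (bo : I × Bool → Option B) (c t1 t2 t3 t4 t5 t6 K1 : ℝ) : Prop where
  f1 : ∀ x ∈ OO bl, ∀ p b, bo p = some b →
    c * nB G bl x b ≤ ((nb H x ∩ nsd nd0 p.1 p.2).card : ℝ) + t1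
  f2 : ∀ x ∈ OO bl, c * ((nb G x ∩ scV G bl t2 x).card : ℝ) ≤
    ((nb H x ∩ scV G bl t2 x).card : ℝ) + t1
  f3 : ∀ p b, bo p = some b → c * eE G (blk bl b) (scO G bl t2 b) ≤
    eE H (nsd nd0 p.1 p.2) (scO G bl t2 b) + t3
  f4 : ∀ p q b b', bo p = some b → bo q = some b' → c * eE (G \ Bk) (blk bl b) (blk bl b') ≤
    eE H (nsd nd0 p.1 p.2) (nsd nd0 q.1 q.2) + t3
  f5 : ∀ p b, bo p = some b → c * eE (G \ Bk) (blk bl b) (scB (G \ Bk) bl t4 b) ≤
    eE H (nsd nd0 p.1 p.2) (scB (G \ Bk) bl t4 b) + t3
  f6 : ∀ u ∈ OO bl, ∀ w ∈ OO bl, u ≠ w → t5 ≤ cO G bl u w → c * cO G bl u w ≤ cO H bl u w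
  f6' : ∀ u ∈ OO bl, c * ∑ w ∈ (OO bl).filter (fun w => cO G bl u w < t5), cO G bl u w ≤
    ∑ w ∈ (OO bl).filter (fun w => cO G bl u w < t5), cO H bl u w + t6
  f7 : ∀ u ∈ OO bl, ∀ F : Finset B, (F.card : ℝ) ≤ K1 →
    c * ((nb G u ∩ lgF G bl d F).card : ℝ) ≤ ((nb H u ∩ lgF G bl d F).card : ℝ) + t1
  f8 : ∀ y ∈ OO bl, c * ((nb G y ∩ OO bl).card : ℝ) ≤ ((nb H y ∩ OO bl).card : ℝ) + t1

end Defs

end Pool.Agent.Work.MP_db9399_clj.helper75
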