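import Pool.Agent.Work.MP_db9399_clj_helper75.CLJ1
import Pool.Agent.Work.MP_db9399_clj_helper75.Defs

/-!
# MP_db9399, SWG, block CLJ, part 3: light blocks (helper75, note 1584)
-/

set_option autoImplicit false
set_option linter.unusedSectionVars false

namespace Pool.Agent.Work.MP_db9399_clj.helper75

open Finset Classical
open Pool.Agent.Work.MP_db9399_all (nb)
open Pool.Agent.Work.MP_db9399_sg

universe u

section Basic

variable {W B I : Type u} [Fintype W] [Fintype B] [Fintype I]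

/-- A near-closed pair `(T, U)` of sets of real vertices; `fT`, `fU` = full node sides. -/
structure NC (H : SimpleGraph W) (nd0 : W → Option (I × Bool)) (T U : Finset W)
    (fT fU : I × Bool → Prop) (mT mU : I × Bool → ℝ) (e m K1 : ℝ) : Prop where
  eT : ∑ v ∈ T, ((nb H v \ U).card : ℝ) ≤ e
  eU : ∑ v ∈ U, ((nb H v \ T).card : ℝ) ≤ e
  lT : ∀ p, fT p → ((nsd nd0 p.1 p.2 \ T).card : ℝ) ≤ mT p
  nT : ∀ p, ¬ fT p → ((T ∩ nsd nd0 p.1 p.2).card : ℝ) ≤ mT p
  lU : ∀ p, fU p → ((nsd nd0 p.1 p.2 \ U).card : ℝ) ≤ mU p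
  nU : ∀ p, ¬ fU p → ((U ∩ nsd nd0 p.1 p.2).card : ℝ) ≤ mU p
  mT0 : ∀ p, 0 ≤ mT p
  mU0 : ∀ p, 0 ≤ mU p
  sT : ∑ p, mT p ≤ m
  sU : ∑ p, mU p ≤ m
  kT : ((univ.filter fun p => fT p).card : ℝ) ≤ K1
  kU : ((univ.filter fun p => fU p).card : ℝ) ≤ K1

theorem NC.swap {H : SimpleGraph W} {nd0 : W → Option (I × Bool)} {T U : Finset W}
    {fT fU : I × Bool → Prop} {mT mU : I × Bool → ℝ} {e m K1 : ℝ}
    (h : NC H nd0 T U fT fU mT mU e m K1) : NC H nd0 U T fU fT mU mT e m K1 :=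
  ⟨h.eU, h.eT, h.lU, h.nU, h.lT, h.nT, h.mU0, h.mT0, h.sU, h.sT, h.kU, h.kT⟩

/-- vertices in full blocks -/
noncomputable def FS (bl : W → Option B) (bo : I × Bool → Option B) (f : I × Bool → Prop) : Finset W :=
  univ.filter fun w => ∃ b, bl w = some b ∧ ∀ p, bo p = some b → f p

/-- vertices in blocks which are not full -/
noncomputable def NS (bl : W → Option B) (bo : I × Bool → Option B) (f : I × Bool → Prop) : Finset W :=
  univ.filter fun w => ∃ b, bl w = some b ∧ ¬ ∀ p, bo p = some b → f p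

/-- active vertices of the sides with the property `P` -/
noncomputable def AS (nd0 : W → Option (I × Bool)) (P : I × Bool → Prop) : Finset W :=
  univ.filter fun w => ∃ p, nd0 w = some p ∧ P p

variable {G Bk H : SimpleGraph W} {d : ℕ} {bl : W → Option B} {op : B → B}
  {nd0 : W → Option (I × Bool)} {bo : I × Bool → Option B} {c t1 t2 t3 t4 t5 t6 K1 Δ e m : ℝ}
  {T U : Finset W} {fT fU : I × Bool → Prop} {mT mU : I × Bool → ℝ}

omit [Fintype W] [Fintype B] [Fintype I] in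
/-- disjoint subsets -/
theorem disj_sum {ι : Type*} (F : Finset ι) (C : ι → Finset W) (Z : Finset W)
    (h1 : ∀ i ∈ F, C i ⊆ Z) (h2 : ∀ i ∈ F, ∀ j ∈ F, i ≠ j → Disjoint (C i) (C j)) :
    ∑ i ∈ F, ((C i).card : ℝ) ≤ Z.card := by
  have : ∑ i ∈ F, (C i).card ≤ Z.card := by
    rw [← card_biUnion h2]
    exact card_le_card (biUnion_subset.2 h1)
  exact_mod_cast this

omit [Fintype B] [Fintype I] in
theorem mem_AS {P : I × Bool → Prop} {w : W} : w ∈ AS nd0 P ↔ ∃ p, nd0 w = some p ∧ P p := by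
  simp [AS]

/-- the blocks with the property `Pb` in which `v` has many neighbours -/
noncomputable def fatF (G : SimpleGraph W) (bl : W → Option B) (t2 : ℝ) (v : W)
    (Pb : B → Prop) : Finset B := univ.filter fun b => t2 ≤ nB G bl v b ∧ Pb b

omit [Fintype I] in
theorem mem_fatF {v : W} {Pb : B → Prop} {b : B} :
    b ∈ fatF G bl t2 v Pb ↔ t2 ≤ nB G bl v b ∧ Pb b := by simp [fatF]

theorem mem_NS {f : I × Bool → Prop} {w : W} :
    w ∈ NS bl bo f ↔ ∃ b, bl w = some b ∧ ¬ ∀ p, bo p = some b → f p := by simp [NS]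

theorem mem_FS {f : I × Bool → Prop} {w : W} :
    w ∈ FS bl bo f ↔ ∃ b, bl w = some b ∧ ∀ p, bo p = some b → f p := by simp [FS]

omit [Fintype B] [Fintype I] in
theorem mem_blk {b : B} {v : W} : v ∈ blk bl b ↔ bl v = some b := by simp [blk]

omit [Fintype B] in
theorem mem_OO {v : W} : v ∈ OO bl ↔ bl v = none := by simp [OO]

omit [Fintype B] [Fintype I] in
theorem eE_comm (E : SimpleGraph W) (A A' : Finset W) : eE E A A' = eE E A' A := dcount E A A'

omit [Fintype B] [Fintype I] in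
theorem eE_mono {E E' : SimpleGraph W} (hE : E ≤ E') {A A1 A' A1' : Finset W} (h : A ⊆ A1)
    (h' : A' ⊆ A1') : eE E A A' ≤ eE E' A1 A1' := by
  unfold eE
  refine le_trans (sum_le_sum fun v _ => ?_)
    (sum_le_sum_of_subset_of_nonneg h fun _ _ _ => Nat.cast_nonneg _)
  refine Nat.cast_le.2 (card_le_card fun x hx => ?_)
  rw [mem_inter, mem_nb] at hx ⊢
  exact ⟨hE hx.1, h' hx.2⟩

omit [Fintype B] [Fintype I] in
theorem eE_nonneg (E : SimpleGraph W) (A A' : Finset W) : 0 ≤ eE E A A' :=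
  sum_nonneg fun _ _ => Nat.cast_nonneg _

omit [Fintype B] [Fintype I] in
theorem eE_union (E : SimpleGraph W) (A A1 A2 A' : Finset W) (h : A' ⊆ A1 ∪ A2) :
    eE E A A' ≤ eE E A A1 + eE E A A2 := by
  unfold eE
  rw [← sum_add_distrib]
  refine sum_le_sum fun v _ => ?_
  have : nb E v ∩ A' ⊆ (nb E v ∩ A1) ∪ (nb E v ∩ A2) := by
    intro x hx
    rw [mem_inter] at hx
    rcases mem_union.1 (h hx.2) with h1 | h1
    · exact mem_union_left _ (mem_inter.2 ⟨hx.1, h1⟩)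
    · exact mem_union_right _ (mem_inter.2 ⟨hx.1, h1⟩)
  exact_mod_cast (card_le_card this).trans (card_union_le _ _)

omit [Fintype B] [Fintype I] in
/-- edges at a set of light vertices -/
theorem eE_light {A A' : Finset W} (hA : ∀ v ∈ A, ((nb H v).card : ℝ) ≤ Δ) :
    eE H A A' ≤ A.card * Δ := by
  unfold eE
  rw [← nsmul_eq_mul]
  refine sum_le_card_nsmul _ _ _ fun v hv => ?_
  exact le_trans (by exact_mod_cast card_le_card inter_subset_left) (hA v hv)

theorem nsd_sub (hB : Blx G Bk H d bl op nd0 bo) {p : I × Bool} {b : B} (hp : bo p = some b) :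
    nsd nd0 p.1 p.2 ⊆ blk bl b := by
  intro v hv
  obtain ⟨b', h1, h2⟩ := hB.nd v p (mem_nsd.1 hv)
  rw [hp] at h1
  rw [mem_blk, h2, Option.some.inj h1]

theorem nd_notO (hB : Blx G Bk H d bl op nd0 bo) {v : W} {p : I × Bool} (h : nd0 v = some p) :
    v ∉ OO bl := by
  intro h1
  obtain ⟨b, _, h2⟩ := hB.nd v p h
  rw [mem_OO, h2] at h1
  exact Option.some_ne_none _ h1

omit [Fintype W] [Fintype B] [Fintype I] in
theorem nsd_disj {V : Type u} [Fintype V] {nd : V → Option (I × Bool)} {p q : I × Bool}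
    (h : p ≠ q) : Disjoint (nsd nd p.1 p.2) (nsd nd q.1 q.2) := by
  rw [disjoint_left]
  intro v h1 h2
  have h3 := mem_nsd.1 h1
  have h4 := mem_nsd.1 h2
  rw [h3] at h4
  exact h (Option.some.inj h4)

/-- `R` : vertices of `U` in sides which are not `U`-full -/
noncomputable def RS (nd0 : W → Option (I × Bool)) (f : I × Bool → Prop) (U : Finset W) :
    Finset W := U ∩ AS nd0 fun p => ¬ f p

/-- `Q` : vertices of `T`-full sides outside `T` -/
noncomputable def QS (nd0 : W → Option (I × Bool)) (f : I × Bool → Prop) (T : Finset W) :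
    Finset W := AS nd0 f \ T

theorem card_RS (hn : ∀ p, ¬ fU p → ((U ∩ nsd nd0 p.1 p.2).card : ℝ) ≤ mU p)
    (h0 : ∀ p, 0 ≤ mU p) (hs : ∑ p, mU p ≤ m) : ((RS nd0 fU U).card : ℝ) ≤ m := by
  have h1 : RS nd0 fU U ⊆ (univ.filter fun p => ¬ fU p).biUnion fun p => U ∩ nsd nd0 p.1 p.2 := by
    intro v hv
    rw [RS, mem_inter, mem_AS] at hv
    obtain ⟨hv1, p, hp, hpf⟩ := hv
    rw [mem_biUnion]
    exact ⟨p, mem_filter.2 ⟨mem_univ _, hpf⟩, mem_inter.2 ⟨hv1, mem_nsd.2 hp⟩⟩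
  have h2 : ((RS nd0 fU U).card : ℝ) ≤
      ∑ p ∈ univ.filter fun p => ¬ fU p, ((U ∩ nsd nd0 p.1 p.2).card : ℝ) := by
    exact_mod_cast (card_le_card h1).trans card_biUnion_le
  refine h2.trans (le_trans (sum_le_sum fun p hp => hn p (mem_filter.1 hp).2) (le_trans ?_ hs))
  exact sum_le_sum_of_subset_of_nonneg (subset_univ _) fun p _ _ => h0 p

theorem card_QS (hn : ∀ p, fT p → ((nsd nd0 p.1 p.2 \ T).card : ℝ) ≤ mT p)
    (h0 : ∀ p, 0 ≤ mT p) (hs : ∑ p, mT p ≤ m) : ((QS nd0 fT T).card : ℝ) ≤ m := by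
  have h1 : QS nd0 fT T ⊆ (univ.filter fun p => fT p).biUnion fun p => nsd nd0 p.1 p.2 \ T := by
    intro v hv
    rw [QS, mem_sdiff, mem_AS] at hv
    obtain ⟨⟨p, hp, hpf⟩, hv1⟩ := hv
    rw [mem_biUnion]
    exact ⟨p, mem_filter.2 ⟨mem_univ _, hpf⟩, mem_sdiff.2 ⟨mem_nsd.2 hp, hv1⟩⟩
  have h2 : ((QS nd0 fT T).card : ℝ) ≤
      ∑ p ∈ univ.filter fun p => fT p, ((nsd nd0 p.1 p.2 \ T).card : ℝ) := by
    exact_mod_cast (card_le_card h1).trans card_biUnion_le
  refine h2.trans (le_trans (sum_le_sum fun p hp => hn p (mem_filter.1 hp).2) (le_trans ?_ hs))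
  exact sum_le_sum_of_subset_of_nonneg (subset_univ _) fun p _ _ => h0 p

theorem light_AS (hB : Blx G Bk H d bl op nd0 bo) (hΔ : ∀ v ∉ OO bl, ((nb H v).card : ℝ) ≤ Δ)
    {P : I × Bool → Prop} : ∀ v ∈ AS nd0 P, ((nb H v).card : ℝ) ≤ Δ := by
  intro v hv
  rw [mem_AS] at hv
  obtain ⟨p, hp, _⟩ := hv
  exact hΔ v (nd_notO hB hp)

theorem eE_RS (hB : Blx G Bk H d bl op nd0 bo) (hΔ : ∀ v ∉ OO bl, ((nb H v).card : ℝ) ≤ Δ)
    (hΔ0 : 0 ≤ Δ) (hn : ∀ p, ¬ fU p → ((U ∩ nsd nd0 p.1 p.2).card : ℝ) ≤ mU p)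
    (h0 : ∀ p, 0 ≤ mU p) (hs : ∑ p, mU p ≤ m) (A : Finset W) :
    eE H A (RS nd0 fU U) ≤ m * Δ := by
  rw [eE_comm]
  refine (eE_light fun v hv => light_AS hB hΔ v (mem_inter.1 hv).2).trans ?_
  exact mul_le_mul_of_nonneg_right (card_RS hn h0 hs) hΔ0

theorem eE_QS (hB : Blx G Bk H d bl op nd0 bo) (hΔ : ∀ v ∉ OO bl, ((nb H v).card : ℝ) ≤ Δ)
    (hΔ0 : 0 ≤ Δ) (hn : ∀ p, fT p → ((nsd nd0 p.1 p.2 \ T).card : ℝ) ≤ mT p)
    (h0 : ∀ p, 0 ≤ mT p) (hs : ∑ p, mT p ≤ m) (A : Finset W) :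
    eE H A (QS nd0 fT T) ≤ m * Δ := by
  rw [eE_comm]
  refine (eE_light fun v hv => light_AS hB hΔ v (mem_sdiff.1 hv).1).trans ?_
  exact mul_le_mul_of_nonneg_right (card_QS hn h0 hs) hΔ0

/-- fat pairs: selection of node sides -/
theorem fatsel (hB : Blx G Bk H d bl op nd0 bo) (hS : Shr G Bk H d bl nd0 bo c t1 t2 t3 t4 t5 t6 K1)
    (hc : 0 < c) (h12 : 2 * t1 ≤ c * t2) {v : W} (hv : v ∈ OO bl) (F : Finset B)
    (P : I × Bool → Prop) (hF : ∀ b ∈ F, t2 ≤ nB G bl v b ∧ ∃ p, bo p = some b ∧ P p) :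
    c * ∑ b ∈ F, nB G bl v b ≤ 2 * ((nb H v ∩ AS nd0 P).card : ℝ) := by
  rcases F.eq_empty_or_nonempty with hF0 | ⟨b0, hb0⟩
  · rw [hF0]
    simp
  obtain ⟨p0, _⟩ := (hF b0 hb0).2
  have : Nonempty (I × Bool) := ⟨p0⟩
  choose! q hq using fun b hb => (hF b hb).2
  have h1 : ∀ b ∈ F, c * nB G bl v b ≤ 2 * ((nb H v ∩ nsd nd0 (q b).1 (q b).2).card : ℝ) := by
    intro b hb
    have h2 := hS.f1 v hv (q b) b (hq b hb).1
    have h3 := mul_le_mul_of_nonneg_left (hF b hb).1 hc.le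
    linarith
  rw [mul_sum]
  refine (sum_le_sum h1).trans ?_
  rw [← mul_sum]
  refine mul_le_mul_of_nonneg_left ?_ (by norm_num)
  refine disj_sum F (fun b => nb H v ∩ nsd nd0 (q b).1 (q b).2) _ ?_ ?_
  · intro b hb x hx
    rw [mem_inter] at hx ⊢
    exact ⟨hx.1, mem_AS.2 ⟨q b, mem_nsd.1 hx.2, (hq b hb).2⟩⟩
  · intro b hb b' hb' hbb
    refine Disjoint.mono inter_subset_right inter_subset_right (nsd_disj fun h => hbb ?_)
    have h1 := (hq b hb).1
    rw [h, (hq b' hb').1] at h1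
    exact (Option.some.inj h1).symm

/-- light neighbours of `v` in a set of blocks, cut into fat and scattered ones -/
theorem fatcut (v : W) (Z : Finset W) (Pb : B → Prop) (hZ : ∀ w ∈ Z, ∃ b, bl w = some b ∧ Pb b) :
    (((nb G v ∩ Z) \ scV G bl t2 v).card : ℝ) ≤
      ∑ b ∈ fatF G bl t2 v Pb, nB G bl v b := by
  have h1 : (nb G v ∩ Z) \ scV G bl t2 v ⊆
      (fatF G bl t2 v Pb).biUnion fun b => nb G v ∩ blk bl b := by
    intro w hw
    rw [mem_sdiff, mem_inter] at hw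
    obtain ⟨b, hb, hPb⟩ := hZ w hw.1.2
    rw [mem_biUnion]
    refine ⟨b, mem_fatF.2 ⟨?_, hPb⟩, mem_inter.2 ⟨hw.1.1, mem_blk.2 hb⟩⟩
    by_contra hcon
    exact hw.2 (mem_filter.2 ⟨mem_univ _, b, hb, not_le.1 hcon⟩)
  unfold nB
  exact_mod_cast (card_le_card h1).trans card_biUnion_le

/-- **Light neighbours outside the full blocks.** -/
theorem lightv (hB : Blx G Bk H d bl op nd0 bo) (hS : Shr G Bk H d bl nd0 bo c t1 t2 t3 t4 t5 t6 K1)
    (hc : 0 < c) (h12 : 2 * t1 ≤ c * t2) (ht2 : 0 ≤ t2) {v : W} (hv : v ∈ OO bl) (U : Finset W)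
    (f : I × Bool → Prop) (hk : ((univ.filter fun p => f p).card : ℝ) ≤ K1) :
    c * ((nb G v ∩ NS bl bo f).card : ℝ) ≤
      3 * (((nb H v \ U).card : ℝ) + ((nb H v ∩ RS nd0 f U).card : ℝ)) + (K1 * t2 + t1) := by
  -- scattered
  have h1 : ((nb H v ∩ scV G bl t2 v).card : ℝ) ≤
      (((nb H v \ U).card : ℝ) + ((nb H v ∩ RS nd0 f U).card : ℝ)) + K1 * t2 := by
    have h2 : nb H v ∩ scV G bl t2 v ⊆ ((nb H v \ U) ∪ (nb H v ∩ RS nd0 f U)) ∪
        (univ.filter fun p => f p).biUnion fun p => nb H v ∩ nsd nd0 p.1 p.2 ∩ scV G bl t2 v := by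
      intro w hw
      have hw' := hw
      rw [mem_inter] at hw
      by_cases hU : w ∈ U
      · have h3 : nd0 w ≠ none := by
          obtain ⟨b, hb, _⟩ := (mem_filter.1 hw.2).2
          rcases hB.Ha w v (mem_nb.1 hw.1).symm with h4 | h4
          · rw [hb] at h4
            exact absurd h4 (Option.some_ne_none _)
          · exact h4
        obtain ⟨p, hp⟩ := Option.ne_none_iff_exists'.1 h3
        by_cases hf : f p
        · refine mem_union_right _ (mem_biUnion.2 ⟨p, mem_filter.2 ⟨mem_univ _, hf⟩, ?_⟩)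
          exact mem_inter.2 ⟨mem_inter.2 ⟨hw.1, mem_nsd.2 hp⟩, hw.2⟩
        · refine mem_union_left _ (mem_union_right _ (mem_inter.2 ⟨hw.1, ?_⟩))
          exact mem_inter.2 ⟨hU, mem_AS.2 ⟨p, hp, hf⟩⟩
      · exact mem_union_left _ (mem_union_left _ (mem_sdiff.2 ⟨hw.1, hU⟩))
    have h3 : ∀ p ∈ univ.filter (fun p => f p),
        ((nb H v ∩ nsd nd0 p.1 p.2 ∩ scV G bl t2 v).card : ℝ) ≤ t2 := by
      intro p _
      rcases (nb H v ∩ nsd nd0 p.1 p.2 ∩ scV G bl t2 v).eq_empty_or_nonempty with h4 | ⟨w, hw⟩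
      · rw [h4]
        simpa using ht2
      · rw [mem_inter, mem_inter] at hw
        obtain ⟨b, hb, hbt⟩ := (mem_filter.1 hw.2).2
        obtain ⟨b', hpb, h5⟩ := hB.nd w p (mem_nsd.1 hw.1.2)
        rw [hb] at h5
        rw [Option.some.inj h5] at hbt
        refine le_trans ?_ hbt.le
        unfold nB
        refine Nat.cast_le.2 (card_le_card fun x hx => ?_)
        rw [mem_inter, mem_inter] at hx
        exact mem_inter.2 ⟨mem_nb.2 (hB.HG v x (mem_nb.1 hx.1.1)).1, nsd_sub hB hpb hx.1.2⟩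
    have h4 : ((nb H v ∩ scV G bl t2 v).card : ℝ) ≤
        (((nb H v \ U).card : ℝ) + ((nb H v ∩ RS nd0 f U).card : ℝ)) +
          ∑ p ∈ univ.filter (fun p => f p),
            ((nb H v ∩ nsd nd0 p.1 p.2 ∩ scV G bl t2 v).card : ℝ) := by
      have h5 := card_le_card h2
      have h6 := card_union_le ((nb H v \ U) ∪ (nb H v ∩ RS nd0 f U))
        ((univ.filter fun p => f p).biUnion fun p => nb H v ∩ nsd nd0 p.1 p.2 ∩ scV G bl t2 v)
      have h7 := card_union_le (nb H v \ U) (nb H v ∩ RS nd0 f U)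
      have h8 := card_biUnion_le (s := univ.filter fun p => f p)
        (t := fun p => nb H v ∩ nsd nd0 p.1 p.2 ∩ scV G bl t2 v)
      have h9 : (nb H v ∩ scV G bl t2 v).card ≤ ((nb H v \ U).card +
          (nb H v ∩ RS nd0 f U).card) + ∑ p ∈ univ.filter (fun p => f p),
            (nb H v ∩ nsd nd0 p.1 p.2 ∩ scV G bl t2 v).card := by omega
      exact_mod_cast h9
    have h5 := sum_le_card_nsmul _ _ _ h3
    rw [nsmul_eq_mul] at h5
    have h6 := mul_le_mul_of_nonneg_right hk ht2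
    linarith
  -- fat
  have h2 : c * (((nb G v ∩ NS bl bo f) \ scV G bl t2 v).card : ℝ) ≤
      2 * (((nb H v \ U).card : ℝ) + ((nb H v ∩ RS nd0 f U).card : ℝ)) := by
    have h3 := fatcut (G := G) (bl := bl) (t2 := t2) v (NS bl bo f) (fun b => ¬ ∀ p, bo p = some b → f p)
      (fun w hw => mem_NS.1 hw)
    have h4 := fatsel hB hS hc h12 hv
      (fatF G bl t2 v fun b => ¬ ∀ p, bo p = some b → f p) (fun p => ¬ f p)
      (fun b hb => by
        obtain ⟨hb1, hb2⟩ := mem_fatF.1 hb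
        simp only [not_forall] at hb2
        obtain ⟨p, hp, hp2⟩ := hb2
        exact ⟨hb1, p, hp, hp2⟩)
    have h5 := mul_le_mul_of_nonneg_left h3 hc.le
    refine h5.trans (h4.trans (mul_le_mul_of_nonneg_left ?_ (by norm_num)))
    have h6 : nb H v ∩ AS nd0 (fun p => ¬ f p) ⊆ (nb H v \ U) ∪ (nb H v ∩ RS nd0 f U) := by
      intro w hw
      rw [mem_inter] at hw
      by_cases hU : w ∈ U
      · exact mem_union_right _ (mem_inter.2 ⟨hw.1, mem_inter.2 ⟨hU, hw.2⟩⟩)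
      · exact mem_union_left _ (mem_sdiff.2 ⟨hw.1, hU⟩)
    exact_mod_cast (card_le_card h6).trans (card_union_le _ _)
  have h3 : ((nb G v ∩ NS bl bo f).card : ℝ) ≤ ((nb G v ∩ scV G bl t2 v).card : ℝ) +
      (((nb G v ∩ NS bl bo f) \ scV G bl t2 v).card : ℝ) := by
    rw [← card_isd (nb G v ∩ NS bl bo f) (scV G bl t2 v)]
    have : ((nb G v ∩ NS bl bo f ∩ scV G bl t2 v).card : ℝ) ≤
        ((nb G v ∩ scV G bl t2 v).card : ℝ) := by
      refine Nat.cast_le.2 (card_le_card fun x hx => ?_)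
      rw [mem_inter, mem_inter] at hx
      exact mem_inter.2 ⟨hx.1.1, hx.2⟩
    linarith
  have h4 := hS.f2 v hv
  have h5 := mul_le_mul_of_nonneg_left h3 hc.le
  linarith

/-- **Fat light neighbours in full blocks.** -/
theorem fullv (hB : Blx G Bk H d bl op nd0 bo) (hS : Shr G Bk H d bl nd0 bo c t1 t2 t3 t4 t5 t6 K1)
    (hc : 0 < c) (h12 : 2 * t1 ≤ c * t2) {v : W} (hv : v ∈ OO bl) (T : Finset W)
    (f : I × Bool → Prop) :
    c * (((nb G v ∩ FS bl bo f) \ scV G bl t2 v).card : ℝ) ≤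
      2 * (((nb H v ∩ T).card : ℝ) + ((nb H v ∩ QS nd0 f T).card : ℝ)) := by
  have h3 := fatcut (G := G) (bl := bl) (t2 := t2) v (FS bl bo f) (fun b => ∀ p, bo p = some b → f p)
    (fun w hw => mem_FS.1 hw)
  have h4 := fatsel hB hS hc h12 hv
    (fatF G bl t2 v fun b => ∀ p, bo p = some b → f p) f
    (fun b hb => by
      obtain ⟨hb1, hb2⟩ := mem_fatF.1 hb
      obtain ⟨p, hp⟩ := hB.bex b
      exact ⟨hb1, p, hp, hb2 p hp⟩)
  have h5 := mul_le_mul_of_nonneg_left h3 hc.le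
  refine h5.trans (h4.trans (mul_le_mul_of_nonneg_left ?_ (by norm_num)))
  have h6 : nb H v ∩ AS nd0 f ⊆ (nb H v ∩ T) ∪ (nb H v ∩ QS nd0 f T) := by
    intro w hw
    rw [mem_inter] at hw
    by_cases hT : w ∈ T
    · exact mem_union_left _ (mem_inter.2 ⟨hw.1, hT⟩)
    · exact mem_union_right _ (mem_inter.2 ⟨hw.1, mem_sdiff.2 ⟨hw.2, hT⟩⟩)
  exact_mod_cast (card_le_card h6).trans (card_union_le _ _)

/-- edges from a `T`-full side -/
theorem sideE (hB : Blx G Bk H d bl op nd0 bo) (hΔ : ∀ v ∉ OO bl, ((nb H v).card : ℝ) ≤ Δ)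
    (hΔ0 : 0 ≤ Δ) (hN : NC H nd0 T U fT fU mT mU e m K1) {p : I × Bool} (hp : fT p)
    (Z : Finset W) : eE H (nsd nd0 p.1 p.2) Z ≤ m * Δ + e + eE H (nsd nd0 p.1 p.2) (Z ∩ U) := by
  have hmp : mT p ≤ m :=
    (single_le_sum (fun q _ => hN.mT0 q) (mem_univ p)).trans hN.sT
  have h1 : ∀ v ∈ nsd nd0 p.1 p.2, ((nb H v).card : ℝ) ≤ Δ := by
    intro v hv
    exact hΔ v (nd_notO hB (mem_nsd.1 hv))
  have h2 := eE_union H (nsd nd0 p.1 p.2) (Z \ U) (Z ∩ U) Z (by
    intro x hx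
    by_cases hU : x ∈ U
    · exact mem_union_right _ (mem_inter.2 ⟨hx, hU⟩)
    · exact mem_union_left _ (mem_sdiff.2 ⟨hx, hU⟩))
  have h3 : eE H (nsd nd0 p.1 p.2) (Z \ U) ≤ m * Δ + e := by
    have h4 : eE H (nsd nd0 p.1 p.2) (Z \ U) = eE H (nsd nd0 p.1 p.2 ∩ T) (Z \ U) +
        eE H (nsd nd0 p.1 p.2 \ T) (Z \ U) := by
      unfold eE
      rw [← sum_union]
      · congr 1
        ext x
        simp only [mem_union, mem_inter, mem_sdiff]
        tauto
      · rw [disjoint_left]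
        intro x hx hx'
        exact (mem_sdiff.1 hx').2 (mem_inter.1 hx).2
    have h5 : eE H (nsd nd0 p.1 p.2 ∩ T) (Z \ U) ≤ e := by
      refine le_trans ?_ hN.eT
      unfold eE
      refine le_trans (sum_le_sum fun v _ => ?_)
        (sum_le_sum_of_subset_of_nonneg inter_subset_right fun _ _ _ => Nat.cast_nonneg _)
      refine Nat.cast_le.2 (card_le_card fun x hx => ?_)
      rw [mem_inter, mem_sdiff] at hx
      exact mem_sdiff.2 ⟨hx.1, hx.2.2⟩
    have h6 : eE H (nsd nd0 p.1 p.2 \ T) (Z \ U) ≤ m * Δ := by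
      refine (eE_light fun v hv => h1 v (mem_sdiff.1 hv).1).trans ?_
      exact mul_le_mul_of_nonneg_right ((hN.lT p hp).trans hmp) hΔ0
    linarith
  linarith

/-- **Scattered edges of a full block.** -/
theorem scatB (hB : Blx G Bk H d bl op nd0 bo) (hS : Shr G Bk H d bl nd0 bo c t1 t2 t3 t4 t5 t6 K1)
    (ht2 : 0 ≤ t2)
    (hΔ : ∀ v ∉ OO bl, ((nb H v).card : ℝ) ≤ Δ)
    (hΔ0 : 0 ≤ Δ) (hN : NC H nd0 T U fT fU mT mU e m K1) {p : I × Bool} {b : B}
    (hpb : bo p = some b) (hp : fT p) :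
    c * eE G (blk bl b) (scO G bl t2 b) ≤
      m * Δ + e + ((U ∩ OO bl).card * t2 + t3) := by
  have h1 := hS.f3 p b hpb
  have h2 := sideE hB hΔ hΔ0 hN hp (scO G bl t2 b)
  have h3 : eE H (nsd nd0 p.1 p.2) (scO G bl t2 b ∩ U) ≤ (U ∩ OO bl).card * t2 := by
    rw [eE_comm]
    unfold eE
    have h4 : ∀ x ∈ scO G bl t2 b ∩ U, ((nb H x ∩ nsd nd0 p.1 p.2).card : ℝ) ≤ t2 := by
      intro x hx
      have h5 := (mem_filter.1 (mem_inter.1 hx).1).2
      refine le_trans ?_ h5.le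
      unfold nB
      refine Nat.cast_le.2 (card_le_card fun y hy => ?_)
      rw [mem_inter] at hy
      exact mem_inter.2 ⟨mem_nb.2 (hB.HG x y (mem_nb.1 hy.1)).1, nsd_sub hB hpb hy.2⟩
    refine (sum_le_card_nsmul _ _ _ h4).trans ?_
    rw [nsmul_eq_mul]
    refine mul_le_mul_of_nonneg_right (Nat.cast_le.2 (card_le_card fun y hy => ?_)) ht2
    rw [mem_inter] at hy ⊢
    exact ⟨hy.2, (mem_filter.1 hy.1).1⟩
  linarith

/-- **Edges from a full block to `O` outside `U`.** -/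
theorem outO (hB : Blx G Bk H d bl op nd0 bo) (hS : Shr G Bk H d bl nd0 bo c t1 t2 t3 t4 t5 t6 K1)
    (hc : 0 < c) (h12 : 2 * t1 ≤ c * t2) (ht2 : 0 ≤ t2)
    (hΔ : ∀ v ∉ OO bl, ((nb H v).card : ℝ) ≤ Δ)
    (hΔ0 : 0 ≤ Δ) (hN : NC H nd0 T U fT fU mT mU e m K1) {p : I × Bool} {b : B}
    (hpb : bo p = some b) (hp : fT p) :
    c * eE G (blk bl b) (OO bl \ U) ≤
      3 * (m * Δ + e) + ((U ∩ OO bl).card * t2 + t3) := by
  have h1 := scatB hB hS ht2 hΔ hΔ0 hN hpb hp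
  have h2 := eE_union G (blk bl b) (scO G bl t2 b) ((OO bl \ U) \ scO G bl t2 b)
    (OO bl \ U) (by
      intro x hx
      by_cases h : x ∈ scO G bl t2 b
      · exact mem_union_left _ h
      · exact mem_union_right _ (mem_sdiff.2 ⟨hx, h⟩))
  have h3 : c * eE G (blk bl b) ((OO bl \ U) \ scO G bl t2 b) ≤ 2 * (m * Δ + e) := by
    have h4 : ∀ x ∈ (OO bl \ U) \ scO G bl t2 b,
        c * ((nb G x ∩ blk bl b).card : ℝ) ≤
          2 * ((nb H x ∩ nsd nd0 p.1 p.2).card : ℝ) := by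
      intro x hx
      rw [mem_sdiff, mem_sdiff] at hx
      have h5 := hS.f1 x hx.1.1 p b hpb
      have h6 : t2 ≤ nB G bl x b := by
        by_contra hcon
        exact hx.2 (mem_filter.2 ⟨hx.1.1, not_le.1 hcon⟩)
      have h7 := mul_le_mul_of_nonneg_left h6 hc.le
      unfold nB at h5 h7
      linarith
    rw [eE_comm]
    unfold eE
    rw [mul_sum]
    refine (sum_le_sum h4).trans ?_
    rw [← mul_sum]
    refine mul_le_mul_of_nonneg_left ?_ (by norm_num)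
    have h5 := sideE hB hΔ hΔ0 hN hp ((OO bl \ U) \ scO G bl t2 b)
    have h6 : ((OO bl \ U) \ scO G bl t2 b) ∩ U = ∅ := by
      ext x
      simp only [mem_inter, mem_sdiff, notMem_empty, iff_false]
      tauto
    rw [h6] at h5
    have h7 : eE H (nsd nd0 p.1 p.2) ∅ = 0 := by simp [eE]
    rw [h7, eE_comm] at h5
    unfold eE at h5
    linarith
  have h4 := mul_le_mul_of_nonneg_left h2 hc.le
  linarith

/-- **Thin edges from a full block to blocks which are not full.** -/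
theorem thinB (hB : Blx G Bk H d bl op nd0 bo) (hS : Shr G Bk H d bl nd0 bo c t1 t2 t3 t4 t5 t6 K1)
    (hc : 0 < c) (h34 : 2 * t3 ≤ c * t4) (ht4 : 0 ≤ t4)
    (hΔ : ∀ v ∉ OO bl, ((nb H v).card : ℝ) ≤ Δ)
    (hΔ0 : 0 ≤ Δ) (hN : NC H nd0 T U fT fU mT mU e m K1) {p : I × Bool} {b : B}
    (hpb : bo p = some b) (hp : fT p) :
    c * eE (G \ Bk) (blk bl b) (NS bl bo fU) ≤ 3 * (2 * m * Δ + e) + (K1 * t4 + t3) := by
  have hHle : H ≤ G \ Bk := by
    intro v w h
    rw [SimpleGraph.sdiff_adj]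
    exact hB.HG v w h
  -- scattered
  have h1 : eE H (nsd nd0 p.1 p.2) (scB (G \ Bk) bl t4 b) ≤ 2 * m * Δ + e + K1 * t4 := by
    have h2 := sideE hB hΔ hΔ0 hN hp (scB (G \ Bk) bl t4 b)
    have h3 : eE H (nsd nd0 p.1 p.2) (scB (G \ Bk) bl t4 b ∩ U) ≤
        eE H (nsd nd0 p.1 p.2) (RS nd0 fU U) + ∑ q ∈ univ.filter (fun q => fU q),
          eE H (nsd nd0 p.1 p.2) (nsd nd0 q.1 q.2 ∩ scB (G \ Bk) bl t4 b) := by
      unfold eE
      rw [sum_comm, ← sum_add_distrib]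
      refine sum_le_sum fun v hv => ?_
      have h4 : nb H v ∩ (scB (G \ Bk) bl t4 b ∩ U) ⊆ (nb H v ∩ RS nd0 fU U) ∪
          (univ.filter fun q => fU q).biUnion fun q =>
            nb H v ∩ (nsd nd0 q.1 q.2 ∩ scB (G \ Bk) bl t4 b) := by
        intro w hw
        rw [mem_inter, mem_inter] at hw
        have h5 : nd0 w ≠ none := by
          obtain ⟨b, hb, _⟩ := (mem_filter.1 hw.2.1).2
          rcases hB.Ha w v (mem_nb.1 hw.1).symm with h4 | h4
          · rw [hb] at h4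
            exact absurd h4 (Option.some_ne_none _)
          · exact h4
        obtain ⟨q, hq⟩ := Option.ne_none_iff_exists'.1 h5
        by_cases hf : fU q
        · refine mem_union_right _ (mem_biUnion.2 ⟨q, mem_filter.2 ⟨mem_univ _, hf⟩, ?_⟩)
          exact mem_inter.2 ⟨hw.1, mem_inter.2 ⟨mem_nsd.2 hq, hw.2.1⟩⟩
        · refine mem_union_left _ (mem_inter.2 ⟨hw.1, mem_inter.2 ⟨hw.2.2, ?_⟩⟩)
          exact mem_AS.2 ⟨q, hq, hf⟩
      have h5 := (card_le_card h4).trans (card_union_le _ _)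
      have h6 := card_biUnion_le (s := univ.filter fun q => fU q)
        (t := fun q => nb H v ∩ (nsd nd0 q.1 q.2 ∩ scB (G \ Bk) bl t4 b))
      exact_mod_cast h5.trans (Nat.add_le_add_left h6 _)
    have h4 : eE H (nsd nd0 p.1 p.2) (RS nd0 fU U) ≤ m * Δ :=
      eE_RS hB hΔ hΔ0 hN.nU hN.mU0 hN.sU _
    have h5 : ∑ q ∈ univ.filter (fun q => fU q),
        eE H (nsd nd0 p.1 p.2) (nsd nd0 q.1 q.2 ∩ scB (G \ Bk) bl t4 b) ≤ K1 * t4 := by
      have h6 : ∀ q ∈ univ.filter (fun q => fU q),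
          eE H (nsd nd0 p.1 p.2) (nsd nd0 q.1 q.2 ∩ scB (G \ Bk) bl t4 b) ≤ t4 := by
        intro q _
        rcases (nsd nd0 q.1 q.2 ∩ scB (G \ Bk) bl t4 b).eq_empty_or_nonempty with h7 | ⟨w, hw⟩
        · rw [h7]
          simpa [eE] using ht4
        · rw [mem_inter] at hw
          obtain ⟨b1, hb, hbt⟩ := (mem_filter.1 hw.2).2
          obtain ⟨b2, hqb, h8⟩ := hB.nd w q (mem_nsd.1 hw.1)
          rw [hb] at h8
          rw [Option.some.inj h8] at hbt
          refine le_trans ?_ hbt.le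
          exact eE_mono hHle (nsd_sub hB hpb) (inter_subset_left.trans (nsd_sub hB hqb))
      have h7 := sum_le_card_nsmul _ _ _ h6
      rw [nsmul_eq_mul] at h7
      exact h7.trans (mul_le_mul_of_nonneg_right hN.kU ht4)
    linarith
  -- fat
  have h2 : c * eE (G \ Bk) (blk bl b) (NS bl bo fU \ scB (G \ Bk) bl t4 b) ≤
      2 * (2 * m * Δ + e) := by
    set F : Finset B := univ.filter fun b' =>
      t4 ≤ eE (G \ Bk) (blk bl b) (blk bl b') ∧ ∃ q, bo q = some b' ∧ ¬ fU q with hF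
    have h3 : eE (G \ Bk) (blk bl b) (NS bl bo fU \ scB (G \ Bk) bl t4 b) ≤
        ∑ b' ∈ F, eE (G \ Bk) (blk bl b) (blk bl b') := by
      unfold eE
      rw [sum_comm]
      refine sum_le_sum fun v _ => ?_
      have h4 : nb (G \ Bk) v ∩ (NS bl bo fU \ scB (G \ Bk) bl t4 b) ⊆
          F.biUnion fun b' => nb (G \ Bk) v ∩ blk bl b' := by
        intro w hw
        rw [mem_inter, mem_sdiff, mem_NS] at hw
        obtain ⟨hw1, ⟨b1, hb, hbf⟩, hw2⟩ := hw
        rw [mem_biUnion]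
        refine ⟨b1, ?_, mem_inter.2 ⟨hw1, mem_blk.2 hb⟩⟩
        rw [hF, mem_filter]
        simp only [not_forall] at hbf
        obtain ⟨q, hq, hq2⟩ := hbf
        refine ⟨mem_univ _, ?_, q, hq, hq2⟩
        by_contra hcon
        exact hw2 (mem_filter.2 ⟨mem_univ _, b1, hb, not_le.1 hcon⟩)
      exact_mod_cast (card_le_card h4).trans card_biUnion_le
    rcases F.eq_empty_or_nonempty with hF0 | ⟨b0, hb0⟩
    · rw [hF0, sum_empty] at h3
      have h4 := eE_nonneg (G \ Bk) (blk bl b) (NS bl bo fU \ scB (G \ Bk) bl t4 b)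
      have h5 := mul_le_mul_of_nonneg_left h3 hc.le
      have h6 : 0 ≤ m * Δ := (eE_nonneg _ _ _).trans
        (eE_RS hB hΔ hΔ0 hN.nU hN.mU0 hN.sU univ)
      have h7 : 0 ≤ e := (sum_nonneg fun _ _ => Nat.cast_nonneg _).trans hN.eT
      linarith
    have h01 := (mem_filter.1 hb0).2.2
    obtain ⟨q0, _⟩ := h01
    have : Nonempty (I × Bool) := ⟨q0⟩
    have hsel : ∀ b' ∈ F, ∃ q, bo q = some b' ∧ ¬ fU q := fun b' hb' => (mem_filter.1 hb').2.2
    choose! q hq using hsel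
    have h4 : ∀ b' ∈ F, c * eE (G \ Bk) (blk bl b) (blk bl b') ≤
        2 * eE H (nsd nd0 p.1 p.2) (nsd nd0 (q b').1 (q b').2) := by
      intro b' hb'
      have h5 := hS.f4 p (q b') b b' hpb (hq b' hb').1
      have h6 := mul_le_mul_of_nonneg_left (mem_filter.1 hb').2.1 hc.le
      linarith
    have h5 : ∑ b' ∈ F, eE H (nsd nd0 p.1 p.2) (nsd nd0 (q b').1 (q b').2) ≤
        eE H (nsd nd0 p.1 p.2) (AS nd0 fun q => ¬ fU q) := by
      unfold eE
      rw [sum_comm]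
      refine sum_le_sum fun v _ => ?_
      refine disj_sum F (fun b' => nb H v ∩ nsd nd0 (q b').1 (q b').2) _ ?_ ?_
      · intro b' hb' x hx
        rw [mem_inter] at hx ⊢
        exact ⟨hx.1, mem_AS.2 ⟨q b', mem_nsd.1 hx.2, (hq b' hb').2⟩⟩
      · intro b1 hb b' hb' hbb
        refine Disjoint.mono inter_subset_right inter_subset_right (nsd_disj fun h => hbb ?_)
        have h1 := (hq b1 hb).1
        rw [h, (hq b' hb').1] at h1
        exact (Option.some.inj h1).symm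
    have h6 := sideE hB hΔ hΔ0 hN hp (AS nd0 fun q => ¬ fU q)
    have h7 : (AS nd0 fun q => ¬ fU q) ∩ U = RS nd0 fU U := by
      rw [RS, inter_comm]
    rw [h7] at h6
    have h8 : eE H (nsd nd0 p.1 p.2) (RS nd0 fU U) ≤ m * Δ :=
      eE_RS hB hΔ hΔ0 hN.nU hN.mU0 hN.sU _
    have h9 : ∑ b' ∈ F, c * eE (G \ Bk) (blk bl b) (blk bl b') ≤
        2 * ∑ b' ∈ F, eE H (nsd nd0 p.1 p.2) (nsd nd0 (q b').1 (q b').2) := by
      rw [mul_sum]
      exact sum_le_sum h4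
    rw [← mul_sum] at h9
    have h10 := mul_le_mul_of_nonneg_left h3 hc.le
    linarith
  have h3 := eE_union (G \ Bk) (blk bl b) (scB (G \ Bk) bl t4 b)
    (NS bl bo fU \ scB (G \ Bk) bl t4 b) (NS bl bo fU) (by
      intro x hx
      by_cases h : x ∈ scB (G \ Bk) bl t4 b
      · exact mem_union_left _ h
      · exact mem_union_right _ (mem_sdiff.2 ⟨hx, h⟩))
  have h4 := hS.f5 p b hpb
  have h5 := mul_le_mul_of_nonneg_left h3 hc.le
  linarith

/-- the full blocks -/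
noncomputable def fB (bo : I × Bool → Option B) (f : I × Bool → Prop) : Finset B :=
  univ.filter fun b => ∀ p, bo p = some b → f p

theorem mem_fB {f : I × Bool → Prop} {b : B} : b ∈ fB bo f ↔ ∀ p, bo p = some b → f p := by
  simp [fB]

/-- number of full blocks -/
theorem card_fB (hB : Blx G Bk H d bl op nd0 bo) {f : I × Bool → Prop}
    (hk : ((univ.filter fun p => f p).card : ℝ) ≤ K1) : ((fB bo f).card : ℝ) ≤ K1 := by
  refine le_trans (Nat.cast_le.2 ?_) hk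
  have h1 : (fB bo f).image some ⊆ (univ.filter fun p => f p).image bo := by
    intro x hx
    obtain ⟨b, hb, rfl⟩ := mem_image.1 hx
    obtain ⟨p, hp⟩ := hB.bex b
    rw [mem_image]
    exact ⟨p, mem_filter.2 ⟨mem_univ _, mem_fB.1 hb p hp⟩, hp⟩
  rw [← card_image_of_injective (fB bo f) (Option.some_injective B)]
  exact (card_le_card h1).trans card_image_le

/-- edges from the full blocks -/
theorem eE_FS (E : SimpleGraph W) (f : I × Bool → Prop) (Z : Finset W) :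
    eE E (FS bl bo f) Z ≤ ∑ b ∈ fB bo f, eE E (blk bl b) Z := by
  unfold eE
  have h1 : FS bl bo f = (fB bo f).biUnion fun b => blk bl b := by
    ext w
    rw [mem_FS, mem_biUnion]
    constructor
    · rintro ⟨b, hb, hf⟩
      exact ⟨b, mem_fB.2 hf, mem_blk.2 hb⟩
    · rintro ⟨b, hf, hb⟩
      exact ⟨b, mem_blk.1 hb, mem_fB.1 hf⟩
  rw [h1, sum_biUnion]
  intro b _ b' _ hbb
  rw [Function.onFun, disjoint_left]
  intro w h2 h3
  rw [mem_blk] at h2 h3
  rw [h2] at h3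
  exact hbb (Option.some.inj h3)

/-- a sum over the full blocks -/
theorem sum_fB (hB : Blx G Bk H d bl op nd0 bo) {f : I × Bool → Prop}
    (hk : ((univ.filter fun p => f p).card : ℝ) ≤ K1) (F : B → ℝ) {Q : ℝ} (hQ : 0 ≤ Q)
    (h : ∀ p b, bo p = some b → f p → F b ≤ Q) : ∑ b ∈ fB bo f, F b ≤ K1 * Q := by
  have h1 : ∀ b ∈ fB bo f, F b ≤ Q := by
    intro b hb
    obtain ⟨p, hp⟩ := hB.bex b
    exact h p b hp (mem_fB.1 hb p hp)
  refine (sum_le_card_nsmul _ _ _ h1).trans ?_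
  rw [nsmul_eq_mul]
  exact mul_le_mul_of_nonneg_right (card_fB hB hk) hQ

/-- scattered neighbours in full blocks -/
theorem scF (f : I × Bool → Prop) :
    ∑ y ∈ OO bl, ((nb G y ∩ FS bl bo f ∩ scV G bl t2 y).card : ℝ) ≤
      ∑ b ∈ fB bo f, eE G (blk bl b) (scO G bl t2 b) := by
  have h1 : ∀ y ∈ OO bl, ((nb G y ∩ FS bl bo f ∩ scV G bl t2 y).card : ℝ) ≤
      ∑ b ∈ fB bo f, if nB G bl y b < t2 then nB G bl y b else 0 := by
    intro y _
    have h2 : nb G y ∩ FS bl bo f ∩ scV G bl t2 y ⊆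
        ((fB bo f).filter fun b => nB G bl y b < t2).biUnion fun b => nb G y ∩ blk bl b := by
      intro w hw
      rw [mem_inter, mem_inter, mem_FS] at hw
      obtain ⟨⟨hw1, b, hb, hf⟩, hw2⟩ := hw
      obtain ⟨b', hb', ht⟩ := (mem_filter.1 hw2).2
      rw [hb] at hb'
      rw [← Option.some.inj hb'] at ht
      rw [mem_biUnion]
      exact ⟨b, mem_filter.2 ⟨mem_fB.2 hf, ht⟩, mem_inter.2 ⟨hw1, mem_blk.2 hb⟩⟩
    rw [← sum_filter]
    unfold nB
    unfold nB at h2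
    exact_mod_cast (card_le_card h2).trans card_biUnion_le
  refine (sum_le_sum h1).trans ?_
  rw [sum_comm]
  refine sum_le_sum fun b _ => ?_
  rw [← sum_filter, eE_comm]
  unfold eE scO nB
  exact le_rfl

end Basic

end Pool.Agent.Work.MP_db9399_clj.helper75
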