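import Mathlib

/-!
# MP_db9399, SWG, block CLJ: the inequality at the vertices of `O` (helper75, note 1584)

For a vertex `y` of `O`: `a`, `b` = neighbours in `O ∩ T`, `O \ T`; `p + r`, `q` = light neighbours
in `T_G`, not in `T_G` (`r` the scattered ones); `x`, `z` = neighbours in the class graph in `T`,
not in `T`; `e1`, `e2` = defects. All of them real numbers.
-/

set_option autoImplicit false

namespace Pool.Agent.Work.MP_db9399_clj.helper75

open Finset

/-- one vertex -/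
theorem one_y {a b p r q x z e1 e2 d c L θ : ℝ} (ha : 0 ≤ a) (hb : 0 ≤ b) (hp : 0 ≤ p)
    (hr : 0 ≤ r) (hq : 0 ≤ q) (hx : 0 ≤ x) (hz : 0 ≤ z) (h1 : 0 ≤ e1) (h2 : 0 ≤ e2) (hd : 0 < d)
    (hc : 0 < c) (hc1 : c ≤ 1) (hL : 0 ≤ L) (hθ : 0 < θ) (hθ1 : 30 * θ ≤ c) (hLθ : L ≤ θ * d)
    (hzd : z ≤ d) (hsum : a + b + p + r + q = d) (hxx : c * (a + b) - L - b ≤ x)
    (hzz : c * (a + b) - L - a ≤ z) (hpp : c * p ≤ x + e1) (hqq : c * q ≤ z + e2 + L) :
    (p * q ≤ (x * z + d * e1) / c ^ 2 + d * e2 / c + p * L / c) ∧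
    (a * q ≤ a * b / θ + (p + r) * q / θ + (if d / 2 ≤ q then d * a else 0) + 6 * (x * z) / c ^ 2 +
      d * e2 / c + 3 * a * L / c) ∧
    (p * b ≤ a * b / θ + (p + r) * q / θ + 2 * (x * z + d * e1) / c ^ 2 +
      8 * θ * d / c * (p + r)) := by
  have hθc : 30 * θ ≤ 1 := hθ1.trans hc1
  have had : a ≤ d := by linarith
  have hbd : b ≤ d := by linarith
  have hpd : p ≤ d := by linarith
  have hqd : q ≤ d := by linarith
  have hab : 0 ≤ a * b / θ := by positivity
  have hprq : 0 ≤ (p + r) * q / θ := by positivity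
  have hif : 0 ≤ (if d / 2 ≤ q then d * a else 0) := by
    split_ifs
    · positivity
    · exact le_rfl
  have hxz : 0 ≤ 6 * (x * z) / c ^ 2 := by positivity
  have hde2 : 0 ≤ d * e2 / c := by positivity
  have hde1 : 0 ≤ d * e1 := by positivity
  have haL : 0 ≤ 3 * a * L / c := by positivity
  have hx2 : 0 ≤ 2 * (x * z + d * e1) / c ^ 2 := by positivity
  have h8 : 0 ≤ 8 * θ * d / c * (p + r) := by positivity
  -- p z
  have hpz : p * z ≤ (x * z + d * e1) / c := by
    rw [le_div_iff₀ hc]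
    have e : p * z * c = c * p * z := by ring
    rw [e]
    have h3 : c * p * z ≤ (x + e1) * z := mul_le_mul_of_nonneg_right hpp hz
    have h4 : e1 * z ≤ d * e1 := by
      rw [mul_comm]
      exact mul_le_mul_of_nonneg_right hzd h1
    linarith
  refine ⟨?_, ?_, ?_⟩
  · -- p q
    have h3 : c * (p * q) ≤ p * z + p * e2 + p * L := by
      have := mul_le_mul_of_nonneg_left hqq hp
      linarith
    have h4 : p * e2 ≤ d * e2 := mul_le_mul_of_nonneg_right hpd h2
    have h5 : p * q ≤ (p * z + p * e2 + p * L) / c := by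
      rw [le_div_iff₀ hc]
      linarith
    have h6 : (p * z + p * e2 + p * L) / c ≤ ((x * z + d * e1) / c + d * e2 + p * L) / c :=
      div_le_div_of_nonneg_right (by linarith) hc.le
    refine h5.trans (h6.trans (le_of_eq ?_))
    field_simp
  · -- a q
    by_cases c1 : θ * d ≤ b
    · have h3 : a * q ≤ a * b / θ := by
        rw [le_div_iff₀ hθ]
        have h4 : q * θ ≤ b := by
          have : q * θ ≤ d * θ := mul_le_mul_of_nonneg_right hqd hθ.le
          linarith
        have h5 : a * (q * θ) ≤ a * b := mul_le_mul_of_nonneg_left h4 ha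
        linarith
      linarith
    by_cases c2 : θ * d ≤ p + r
    · have h3 : a * q ≤ (p + r) * q / θ := by
        rw [le_div_iff₀ hθ]
        have h4 : a * θ ≤ p + r := by
          have : a * θ ≤ d * θ := mul_le_mul_of_nonneg_right had hθ.le
          linarith
        have h5 : a * θ * q ≤ (p + r) * q := mul_le_mul_of_nonneg_right h4 hq
        linarith
      linarith
    by_cases c3 : d / 2 ≤ q
    · have h3 : a * q ≤ (if d / 2 ≤ q then d * a else 0) := by
        rw [if_pos c3, mul_comm]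
        exact mul_le_mul_of_nonneg_right hqd ha
      linarith
    · have c1' : b < θ * d := not_le.1 c1
      have c2' : p + r < θ * d := not_le.1 c2
      have c3' : q < d / 2 := not_le.1 c3
      have hθd : 0 < θ * d := by positivity
      have hθd2 : 30 * (θ * d) ≤ d := by nlinarith
      have h3 : d / 3 ≤ a := by linarith
      have hcd : 30 * (θ * d) ≤ c * d := by nlinarith
      have h4 : c * d / 6 ≤ x := by
        have h5 : c * (d / 3) ≤ c * (a + b) := mul_le_mul_of_nonneg_left (by linarith) hc.le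
        linarith
      have h6 : z ≤ 6 * (x * z) / (c * d) := by
        rw [le_div_iff₀ (by positivity)]
        have := mul_le_mul_of_nonneg_right h4 hz
        linarith
      have h7 : L ≤ 3 * a * L / d := by
        rw [le_div_iff₀ hd]
        have := mul_le_mul_of_nonneg_right h3 hL
        linarith
      have h8' : c * q ≤ 6 * (x * z) / (c * d) + e2 + 3 * a * L / d := by linarith
      have h9 : q ≤ (6 * (x * z) / (c * d) + e2 + 3 * a * L / d) / c := by
        rw [le_div_iff₀ hc]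
        linarith
      have h10 : a * q ≤ d * ((6 * (x * z) / (c * d) + e2 + 3 * a * L / d) / c) :=
        mul_le_mul had h9 hq hd.le
      have h11 : d * ((6 * (x * z) / (c * d) + e2 + 3 * a * L / d) / c) =
          6 * (x * z) / c ^ 2 + d * e2 / c + 3 * a * L / c := by
        field_simp
      linarith
  · -- p b
    by_cases c1 : θ * d ≤ a
    · have h3 : p * b ≤ a * b / θ := by
        rw [le_div_iff₀ hθ]
        have h4 : p * θ ≤ a := by
          have : p * θ ≤ d * θ := mul_le_mul_of_nonneg_right hpd hθ.le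
          linarith
        have h5 : p * θ * b ≤ a * b := mul_le_mul_of_nonneg_right h4 hb
        linarith
      linarith
    by_cases c2 : θ * d ≤ q
    · have h3 : p * b ≤ (p + r) * q / θ := by
        rw [le_div_iff₀ hθ]
        have h4 : b * θ ≤ q := by
          have : b * θ ≤ d * θ := mul_le_mul_of_nonneg_right hbd hθ.le
          linarith
        have h5 : p * (b * θ) ≤ p * q := mul_le_mul_of_nonneg_left h4 hp
        have h6 : 0 ≤ r * q := mul_nonneg hr hq
        linarith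
      linarith
    have c1' : a < θ * d := not_le.1 c1
    have c2' : q < θ * d := not_le.1 c2
    have hθd : 0 < θ * d := by positivity
    by_cases c3 : 4 * θ * d / c ≤ b
    · rw [div_le_iff₀ hc] at c3
      have h3 : c * b / 2 ≤ z := by
        have h4 : 0 ≤ c * a := by positivity
        linarith
      have h5 : p * b ≤ 2 * (p * z) / c := by
        rw [le_div_iff₀ hc]
        have := mul_le_mul_of_nonneg_left h3 hp
        linarith
      have h6 : 2 * (p * z) / c ≤ 2 * ((x * z + d * e1) / c) / c :=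
        div_le_div_of_nonneg_right (by linarith) hc.le
      have h7 : 2 * ((x * z + d * e1) / c) / c = 2 * (x * z + d * e1) / c ^ 2 := by
        field_simp
      linarith
    · have c3' : b < 4 * θ * d / c := not_le.1 c3
      have hcd : 30 * (θ * d) ≤ c * d := by nlinarith
      have h4 : 4 * θ * d / c ≤ 4 * d / 30 := by
        rw [div_le_div_iff₀ hc (by norm_num)]
        linarith
      have hθd2 : 30 * (θ * d) ≤ d := by nlinarith
      have h5 : d / 2 ≤ p + r := by linarith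
      have h6 : p * b ≤ d * (4 * θ * d / c) := mul_le_mul hpd c3'.le hb hd.le
      have h7 : d * (4 * θ * d / c) ≤ 8 * θ * d / c * (p + r) := by
        have h9 : 0 ≤ 8 * θ * d / c := by positivity
        have := mul_le_mul_of_nonneg_left h5 h9
        have e : d * (4 * θ * d / c) = 8 * θ * d / c * (d / 2) := by ring
        linarith
      linarith

/-- **All vertices.** -/
theorem onum {Y : Type*} (s : Finset Y) (a b p r q x z e1 e2 : Y → ℝ)
    {d c L θ m E0 E1 E2 E3 E4 : ℝ} (ha : ∀ y ∈ s, 0 ≤ a y) (hb : ∀ y ∈ s, 0 ≤ b y)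
    (hp : ∀ y ∈ s, 0 ≤ p y) (hr : ∀ y ∈ s, 0 ≤ r y) (hq : ∀ y ∈ s, 0 ≤ q y)
    (hx : ∀ y ∈ s, 0 ≤ x y) (hz : ∀ y ∈ s, 0 ≤ z y) (h1 : ∀ y ∈ s, 0 ≤ e1 y)
    (h2 : ∀ y ∈ s, 0 ≤ e2 y) (hd : 0 < d) (hc : 0 < c) (hc1 : c ≤ 1) (hL : 0 ≤ L) (hθ : 0 < θ)
    (hθ1 : 30 * θ ≤ c) (hLθ : L ≤ θ * d) (hzd : ∀ y ∈ s, z y ≤ d)
    (hsum : ∀ y ∈ s, a y + b y + p y + r y + q y = d)
    (hxx : ∀ y ∈ s, c * (a y + b y) - L - b y ≤ x y)
    (hzz : ∀ y ∈ s, c * (a y + b y) - L - a y ≤ z y) (hpp : ∀ y ∈ s, c * p y ≤ x y + e1 y)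
    (hqq : ∀ y ∈ s, c * q y ≤ z y + e2 y + L) (s0 : ∑ y ∈ s, x y * z y ≤ E0)
    (s1 : ∑ y ∈ s, e1 y ≤ E1) (s1' : ∑ y ∈ s, e2 y ≤ E1) (s2 : ∑ y ∈ s, a y * b y ≤ E2)
    (s3 : ∑ y ∈ s, r y ≤ E3) (s4 : ∑ y ∈ s with d / 2 ≤ q y, a y ≤ E4)
    (sa : ∑ y ∈ s, a y ≤ m * d) (sp : ∑ y ∈ s, (p y + r y) ≤ m * d) :
    ∑ y ∈ s, (a y + p y + r y) * (b y + q y) ≤
      3 / θ * E2 + 3 / θ * ((E0 + d * E1) / c ^ 2 + d * E1 / c + m * d * L / c + d * E3) +
      d * E4 + 8 * (E0 + d * E1) / c ^ 2 + d * E1 / c + 3 * m * d * L / c +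
      8 * θ * d ^ 2 * m / c + d * E3 := by
  have hθ3 : θ ≤ 1 := by linarith
  have k1 : (1 : ℝ) + 2 / θ ≤ 3 / θ := by
    rw [← sub_nonneg]
    have : 3 / θ - (1 + 2 / θ) = (1 - θ) / θ := by
      field_simp
      ring
    rw [this]
    exact div_nonneg (by linarith) hθ.le
  -- (p + r) q
  have hbase := fun y hy => one_y (ha y hy) (hb y hy) (hp y hy) (hr y hy) (hq y hy) (hx y hy)
    (hz y hy) (h1 y hy) (h2 y hy) hd hc hc1 hL hθ hθ1 hLθ (hzd y hy) (hsum y hy) (hxx y hy)
    (hzz y hy) (hpp y hy) (hqq y hy)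
  have hqd : ∀ y ∈ s, q y ≤ d := fun y hy => by
    linarith [hsum y hy, ha y hy, hb y hy, hp y hy, hr y hy]
  have hbd : ∀ y ∈ s, b y ≤ d := fun y hy => by
    linarith [hsum y hy, ha y hy, hq y hy, hp y hy, hr y hy]
  have hE5 : ∑ y ∈ s, (p y + r y) * q y ≤
      (E0 + d * E1) / c ^ 2 + d * E1 / c + m * d * L / c + d * E3 := by
    calc ∑ y ∈ s, (p y + r y) * q y ≤
        ∑ y ∈ s, ((x y * z y + d * e1 y) / c ^ 2 + d * e2 y / c + (p y + r y) * L / c +
          d * r y) := by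
          refine sum_le_sum fun y hy => ?_
          have g1 := (hbase y hy).1
          have g2 : r y * q y ≤ d * r y := by
            rw [mul_comm]
            exact mul_le_mul_of_nonneg_right (hqd y hy) (hr y hy)
          have g3 : 0 ≤ r y * L / c := div_nonneg (mul_nonneg (hr y hy) hL) hc.le
          have g4 : (p y + r y) * L / c = p y * L / c + r y * L / c := by ring
          rw [g4, add_mul]
          linarith
      _ = (∑ y ∈ s, x y * z y + d * ∑ y ∈ s, e1 y) / c ^ 2 + d * (∑ y ∈ s, e2 y) / c +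
          (∑ y ∈ s, (p y + r y)) * L / c + d * ∑ y ∈ s, r y := by
          rw [sum_add_distrib, sum_add_distrib, sum_add_distrib, ← sum_div, ← sum_div, ← sum_div,
            sum_add_distrib, ← mul_sum, ← mul_sum, ← mul_sum, ← sum_mul]
      _ ≤ _ := by
          have g1 : d * ∑ y ∈ s, e1 y ≤ d * E1 := mul_le_mul_of_nonneg_left s1 hd.le
          have g2 : d * ∑ y ∈ s, e2 y ≤ d * E1 := mul_le_mul_of_nonneg_left s1' hd.le
          have g3 : d * ∑ y ∈ s, r y ≤ d * E3 := mul_le_mul_of_nonneg_left s3 hd.le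
          have g4 : (∑ y ∈ s, (p y + r y)) * L ≤ m * d * L := mul_le_mul_of_nonneg_right sp hL
          have g5 := div_le_div_of_nonneg_right (add_le_add s0 g1) (sq_nonneg c)
          have g6 := div_le_div_of_nonneg_right g2 hc.le
          have g7 := div_le_div_of_nonneg_right g4 hc.le
          linarith
  have h53 : 0 ≤ ∑ y ∈ s, (p y + r y) * q y :=
    sum_nonneg fun y hy => mul_nonneg (add_nonneg (hp y hy) (hr y hy)) (hq y hy)
  have h52 : 0 ≤ ∑ y ∈ s, a y * b y := sum_nonneg fun y hy => mul_nonneg (ha y hy) (hb y hy)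
  have hmain : ∑ y ∈ s, (a y + p y + r y) * (b y + q y) ≤
      ∑ y ∈ s, ((1 + 2 / θ) * (a y * b y) + (1 + 2 / θ) * ((p y + r y) * q y) +
        (if d / 2 ≤ q y then d * a y else 0) + 8 * (x y * z y) / c ^ 2 + 2 * (d * e1 y) / c ^ 2 +
        d * e2 y / c + 3 * a y * L / c + 8 * θ * d / c * (p y + r y) + d * r y) := by
    refine sum_le_sum fun y hy => ?_
    obtain ⟨_, g2, g3⟩ := hbase y hy
    have g4 : r y * b y ≤ d * r y := by
      rw [mul_comm]
      exact mul_le_mul_of_nonneg_right (hbd y hy) (hr y hy)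
    have e1' : (1 + 2 / θ) * (a y * b y) = a y * b y + a y * b y / θ + a y * b y / θ := by ring
    have e2' : (1 + 2 / θ) * ((p y + r y) * q y) =
        (p y + r y) * q y + (p y + r y) * q y / θ + (p y + r y) * q y / θ := by ring
    have e3' : 2 * (x y * z y + d * e1 y) / c ^ 2 + 6 * (x y * z y) / c ^ 2 =
        8 * (x y * z y) / c ^ 2 + 2 * (d * e1 y) / c ^ 2 := by ring
    have e4 : (a y + p y + r y) * (b y + q y) = a y * b y + (p y + r y) * q y + a y * q y +
        p y * b y + r y * b y := by ring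
    rw [e1', e2', e4]
    linarith
  refine hmain.trans ?_
  have hsplit : ∑ y ∈ s, ((1 + 2 / θ) * (a y * b y) + (1 + 2 / θ) * ((p y + r y) * q y) +
        (if d / 2 ≤ q y then d * a y else 0) + 8 * (x y * z y) / c ^ 2 + 2 * (d * e1 y) / c ^ 2 +
        d * e2 y / c + 3 * a y * L / c + 8 * θ * d / c * (p y + r y) + d * r y) =
      (1 + 2 / θ) * (∑ y ∈ s, a y * b y) + (1 + 2 / θ) * (∑ y ∈ s, (p y + r y) * q y) +
      d * (∑ y ∈ s with d / 2 ≤ q y, a y) + 8 * (∑ y ∈ s, x y * z y) / c ^ 2 +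
      2 * (d * ∑ y ∈ s, e1 y) / c ^ 2 + d * (∑ y ∈ s, e2 y) / c + 3 * (∑ y ∈ s, a y) * L / c +
      8 * θ * d / c * (∑ y ∈ s, (p y + r y)) + d * ∑ y ∈ s, r y := by
    have f1 : ∑ y ∈ s, (if d / 2 ≤ q y then d * a y else 0) =
        d * ∑ y ∈ s with d / 2 ≤ q y, a y := by
      rw [mul_sum, sum_filter]
    have f2 : ∑ y ∈ s, 8 * (x y * z y) / c ^ 2 = 8 * (∑ y ∈ s, x y * z y) / c ^ 2 := by
      rw [← sum_div, ← mul_sum]
    have f3 : ∑ y ∈ s, 2 * (d * e1 y) / c ^ 2 = 2 * (d * ∑ y ∈ s, e1 y) / c ^ 2 := by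
      rw [← sum_div, ← mul_sum, ← mul_sum]
    have f4 : ∑ y ∈ s, d * e2 y / c = d * (∑ y ∈ s, e2 y) / c := by
      rw [← sum_div, ← mul_sum]
    have f5 : ∑ y ∈ s, 3 * a y * L / c = 3 * (∑ y ∈ s, a y) * L / c := by
      rw [← sum_div, ← sum_mul, ← mul_sum]
    simp only [sum_add_distrib]
    rw [f1, f2, f3, f4, f5, ← mul_sum, ← mul_sum, ← mul_sum, ← mul_sum]
    simp only [sum_add_distrib]
  rw [hsplit]
  have g1 : (1 + 2 / θ) * (∑ y ∈ s, a y * b y) ≤ 3 / θ * E2 :=
    mul_le_mul k1 s2 h52 (by positivity)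
  have g2 : (1 + 2 / θ) * (∑ y ∈ s, (p y + r y) * q y) ≤
      3 / θ * ((E0 + d * E1) / c ^ 2 + d * E1 / c + m * d * L / c + d * E3) :=
    mul_le_mul k1 hE5 h53 (by positivity)
  have g3 : d * (∑ y ∈ s with d / 2 ≤ q y, a y) ≤ d * E4 := mul_le_mul_of_nonneg_left s4 hd.le
  have hs1 : 0 ≤ ∑ y ∈ s, e1 y := sum_nonneg h1
  have g4 : 8 * (∑ y ∈ s, x y * z y) / c ^ 2 + 2 * (d * ∑ y ∈ s, e1 y) / c ^ 2 ≤
      8 * (E0 + d * E1) / c ^ 2 := by
    rw [← add_div]
    refine div_le_div_of_nonneg_right ?_ (sq_nonneg c)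
    have : d * ∑ y ∈ s, e1 y ≤ d * E1 := mul_le_mul_of_nonneg_left s1 hd.le
    have h0 : 0 ≤ d * ∑ y ∈ s, e1 y := mul_nonneg hd.le hs1
    linarith
  have g5 : d * (∑ y ∈ s, e2 y) / c ≤ d * E1 / c :=
    div_le_div_of_nonneg_right (mul_le_mul_of_nonneg_left s1' hd.le) hc.le
  have g6 : 3 * (∑ y ∈ s, a y) * L / c ≤ 3 * m * d * L / c := by
    refine div_le_div_of_nonneg_right ?_ hc.le
    have := mul_le_mul_of_nonneg_right sa hL
    linarith
  have g7 : 8 * θ * d / c * (∑ y ∈ s, (p y + r y)) ≤ 8 * θ * d ^ 2 * m / c := by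
    have h0 : 0 ≤ 8 * θ * d / c := by positivity
    have := mul_le_mul_of_nonneg_left sp h0
    have e : 8 * θ * d / c * (m * d) = 8 * θ * d ^ 2 * m / c := by ring
    linarith
  have g8 : d * ∑ y ∈ s, r y ≤ d * E3 := mul_le_mul_of_nonneg_left s3 hd.le
  linarith

end Pool.Agent.Work.MP_db9399_clj.helper75
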