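import Pool.Agent.Work.MP_db9399_clj_helper75.CLJ3
import Pool.Agent.Work.MP_db9399_clj_helper75.ONUM

/-!
# MP_db9399, SWG, block CLJ, part 4: the vertices of `O` (helper75, note 1584)
-/

set_option autoImplicit false
set_option linter.unusedSectionVars false

namespace Pool.Agent.Work.MP_db9399_clj.helper75

open Finset Classical
open Pool.Agent.Work.MP_db9399_all (nb)
open Pool.Agent.Work.MP_db9399_sg

universe u

section OPart

variable {W B I : Type u} [Fintype W] [Fintype B] [Fintype I]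

/-- `T_G` -/
noncomputable def TG (bl : W → Option B) (bo : I × Bool → Option B) (f : I × Bool → Prop)
    (T : Finset W) : Finset W := (T ∩ OO bl) ∪ FS bl bo f

variable {G Bk H : SimpleGraph W} {d : ℕ} {bl : W → Option B} {op : B → B}
  {nd0 : W → Option (I × Bool)} {bo : I × Bool → Option B} {c t1 t2 t3 t4 t5 t6 K1 Δ e m : ℝ}
  {T U : Finset W} {fT fU : I × Bool → Prop} {mT mU : I × Bool → ℝ}

theorem FS_not_OO {f : I × Bool → Prop} {w : W} (h : w ∈ FS bl bo f) : w ∉ OO bl := by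
  intro h2
  rw [mem_FS] at h
  rw [mem_OO] at h2
  obtain ⟨b, hb, _⟩ := h
  rw [h2] at hb
  exact Option.some_ne_none _ hb.symm

theorem NS_not_OO {f : I × Bool → Prop} {w : W} (h : w ∈ NS bl bo f) : w ∉ OO bl := by
  intro h2
  rw [mem_NS] at h
  rw [mem_OO] at h2
  obtain ⟨b, hb, _⟩ := h
  rw [h2] at hb
  exact Option.some_ne_none _ hb.symm

theorem NS_not_FS {f : I × Bool → Prop} {w : W} (h : w ∈ NS bl bo f) : w ∉ FS bl bo f := by
  intro h2
  rw [mem_NS] at h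
  rw [mem_FS] at h2
  obtain ⟨b, hb, hf⟩ := h
  obtain ⟨b', hb', hf'⟩ := h2
  rw [hb] at hb'
  rw [← Option.some.inj hb'] at hf'
  exact hf hf'

theorem cover (f : I × Bool → Prop) (w : W) : w ∈ OO bl ∨ w ∈ FS bl bo f ∨ w ∈ NS bl bo f := by
  rcases h : bl w with _ | b
  · exact Or.inl (mem_OO.2 h)
  · by_cases hf : ∀ p, bo p = some b → f p
    · exact Or.inr (Or.inl (mem_FS.2 ⟨b, h, hf⟩))
    · exact Or.inr (Or.inr (mem_NS.2 ⟨b, h, hf⟩))

/-- the part inside -/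
theorem split_in (f : I × Bool → Prop) (T Z : Finset W) :
    ((Z ∩ TG bl bo f T).card : ℝ) =
      ((Z ∩ (T ∩ OO bl)).card : ℝ) + ((Z ∩ FS bl bo f).card : ℝ) := by
  have h1 : Z ∩ TG bl bo f T = (Z ∩ (T ∩ OO bl)) ∪ (Z ∩ FS bl bo f) := by
    rw [TG, inter_union_distrib_left]
  rw [h1, card_union_of_disjoint]
  · push_cast
    rfl
  · rw [disjoint_left]
    intro x hx hx2
    rw [mem_inter, mem_inter] at hx
    rw [mem_inter] at hx2
    exact FS_not_OO hx2.2 hx.2.2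

/-- the part outside -/
theorem split_out (f : I × Bool → Prop) (T Z : Finset W) :
    ((Z \ TG bl bo f T).card : ℝ) =
      ((Z ∩ (OO bl \ T)).card : ℝ) + ((Z ∩ NS bl bo f).card : ℝ) := by
  have h1 : Z \ TG bl bo f T = (Z ∩ (OO bl \ T)) ∪ (Z ∩ NS bl bo f) := by
    ext x
    rw [TG, mem_sdiff, mem_union, mem_union, mem_inter, mem_inter, mem_inter, mem_sdiff, not_or]
    constructor
    · rintro ⟨hx, h1, h2⟩
      rcases cover (bl := bl) (bo := bo) f x with h3 | h3 | h3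
      · exact Or.inl ⟨hx, h3, fun h => h1 ⟨h, h3⟩⟩
      · exact absurd h3 h2
      · exact Or.inr ⟨hx, h3⟩
    · rintro (⟨hx, h1, h2⟩ | ⟨hx, h1⟩)
      · exact ⟨hx, fun h => h2 h.1, fun h => FS_not_OO h h1⟩
      · exact ⟨hx, fun h => NS_not_OO h1 h.2, fun h => NS_not_FS h1 h⟩
  rw [h1, card_union_of_disjoint]
  · push_cast
    rfl
  · rw [disjoint_left]
    intro x hx hx2
    rw [mem_inter, mem_sdiff] at hx
    rw [mem_inter] at hx2
    exact NS_not_OO hx2.2 hx.2.1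

omit [Fintype B] [Fintype I] in
theorem card_le_of_sub {A A' : Finset W} (h : A ⊆ A') : (A.card : ℝ) ≤ A'.card :=
  Nat.cast_le.2 (card_le_card h)

omit [Fintype B] [Fintype I] in
/-- codegrees through `O` -/
theorem scO2 (E : SimpleGraph W) (bl : W → Option B) (A A' : Finset W) :
    ∑ u ∈ A, ∑ w ∈ A', cO E bl u w =
      ∑ y ∈ OO bl, ((nb E y ∩ A).card : ℝ) * ((nb E y ∩ A').card : ℝ) := by
  have h1 : ∀ u w, cO E bl u w =
      ∑ y ∈ OO bl, (if E.Adj u y then (1 : ℝ) else 0) * (if E.Adj w y then (1 : ℝ) else 0) := by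
    intro u w
    rw [cO]
    have : ∀ y ∈ OO bl, (if E.Adj u y then (1 : ℝ) else 0) * (if E.Adj w y then (1 : ℝ) else 0) =
        if y ∈ nb E u ∩ nb E w then 1 else 0 := by
      intro y _
      simp only [mem_inter, mem_nb]
      by_cases h1 : E.Adj u y <;> by_cases h2 : E.Adj w y <;> simp [h1, h2]
    rw [sum_congr rfl this, ← sum_filter, sum_const, nsmul_eq_mul, mul_one]
    congr 2
    ext y
    rw [mem_inter, mem_filter]
    tauto
  have h2 : ∀ (y : W) (A : Finset W), ((nb E y ∩ A).card : ℝ) =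
      ∑ u ∈ A, (if E.Adj u y then (1 : ℝ) else 0) := by
    intro y A
    rw [← sum_filter, sum_const, nsmul_eq_mul, mul_one]
    congr 2
    ext u
    simp [mem_nb, and_comm, E.adj_comm]
  simp only [h1, h2]
  calc ∑ u ∈ A, ∑ w ∈ A', ∑ y ∈ OO bl, (if E.Adj u y then (1 : ℝ) else 0) *
        (if E.Adj w y then (1 : ℝ) else 0) =
      ∑ u ∈ A, ∑ y ∈ OO bl, ∑ w ∈ A', (if E.Adj u y then (1 : ℝ) else 0) *
        (if E.Adj w y then (1 : ℝ) else 0) := sum_congr rfl fun u _ => sum_comm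
    _ = ∑ y ∈ OO bl, ∑ u ∈ A, ∑ w ∈ A', (if E.Adj u y then (1 : ℝ) else 0) *
        (if E.Adj w y then (1 : ℝ) else 0) := sum_comm
    _ = _ := by
        refine sum_congr rfl fun y _ => ?_
        rw [sum_mul_sum]

/-- **E2**: the product of the numbers of the `O`-neighbours inside and outside `T` -/
theorem partE2 (hB : Blx G Bk H d bl op nd0 bo)
    (hS : Shr G Bk H d bl nd0 bo c t1 t2 t3 t4 t5 t6 K1) (hc : 0 < c) (ht5 : 0 ≤ t5)
    (T : Finset W) {E0 : ℝ}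
    (hE0 : ∑ y ∈ OO bl, ((nb H y ∩ T).card : ℝ) * ((nb H y \ T).card : ℝ) ≤ E0) :
    ∑ y ∈ OO bl, ((nb G y ∩ (T ∩ OO bl)).card : ℝ) * ((nb G y ∩ (OO bl \ T)).card : ℝ) ≤
      (E0 + ((T ∩ OO bl).card : ℝ) * (((T ∩ OO bl).card : ℝ) * t5 + t6)) / c := by
  have hcO : ∀ u w, cO H bl u w ≤ cO G bl u w := by
    intro u w
    refine card_le_of_sub fun x hx => ?_
    rw [mem_inter, mem_inter, mem_nb, mem_nb] at hx ⊢
    exact ⟨⟨(hB.HG u x hx.1.1).1, (hB.HG w x hx.1.2).1⟩, hx.2⟩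
  have h1 : ∀ u ∈ T ∩ OO bl, c * ∑ w ∈ OO bl \ T, cO G bl u w ≤
      ∑ w ∈ OO bl \ T, cO H bl u w + (((T ∩ OO bl).card : ℝ) * t5 + t6) := by
    intro u hu
    have hu1 := mem_inter.1 hu
    rw [← sum_filter_add_sum_filter_not (OO bl \ T) (fun w => cO G bl u w < t5),
      ← sum_filter_add_sum_filter_not (OO bl \ T) (fun w => cO G bl u w < t5)
        (f := fun w => cO H bl u w)]
    have h2 : c * ∑ w ∈ (OO bl \ T) with ¬ cO G bl u w < t5, cO G bl u w ≤
        ∑ w ∈ (OO bl \ T) with ¬ cO G bl u w < t5, cO H bl u w := by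
      rw [mul_sum]
      refine sum_le_sum fun w hw => ?_
      rw [mem_filter, mem_sdiff] at hw
      refine hS.f6 u hu1.2 w hw.1.1 ?_ (not_lt.1 hw.2)
      intro he
      exact hw.1.2 (he ▸ hu1.1)
    have h3 : c * ∑ w ∈ (OO bl \ T) with cO G bl u w < t5, cO G bl u w ≤
        ∑ w ∈ (OO bl \ T) with cO G bl u w < t5, cO H bl u w +
          (((T ∩ OO bl).card : ℝ) * t5 + t6) := by
      have h4 := hS.f6' u hu1.2
      have h5 : ∑ w ∈ (OO bl \ T) with cO G bl u w < t5, cO G bl u w ≤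
          ∑ w ∈ (OO bl) with cO G bl u w < t5, cO G bl u w := by
        refine sum_le_sum_of_subset_of_nonneg ?_ fun w _ _ => Nat.cast_nonneg _
        intro w hw
        rw [mem_filter, mem_sdiff] at hw
        exact mem_filter.2 ⟨hw.1.1, hw.2⟩
      have h6 : ∑ w ∈ (OO bl) with cO G bl u w < t5, cO H bl u w ≤
          ∑ w ∈ (OO bl \ T) with cO G bl u w < t5, cO H bl u w +
          ∑ w ∈ (T ∩ OO bl) with cO G bl u w < t5, cO H bl u w := by
        rw [← sum_union]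
        · refine sum_le_sum_of_subset_of_nonneg ?_ fun w _ _ => Nat.cast_nonneg _
          intro w hw
          rw [mem_filter] at hw
          rw [mem_union, mem_filter, mem_filter, mem_sdiff, mem_inter]
          by_cases hT : w ∈ T
          · exact Or.inr ⟨⟨hT, hw.1⟩, hw.2⟩
          · exact Or.inl ⟨⟨hw.1, hT⟩, hw.2⟩
        · rw [disjoint_left]
          intro w hw hw2
          rw [mem_filter, mem_sdiff] at hw
          rw [mem_filter, mem_inter] at hw2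
          exact hw.1.2 hw2.1.1
      have h7 : ∑ w ∈ (T ∩ OO bl) with cO G bl u w < t5, cO H bl u w ≤
          ((T ∩ OO bl).card : ℝ) * t5 := by
        rcases ((T ∩ OO bl).filter fun w => cO G bl u w < t5).eq_empty_or_nonempty with h8 | ⟨w0, hw0⟩
        · rw [h8, sum_empty]
          positivity
        · have ht : 0 ≤ t5 := ht5
          refine (sum_le_card_nsmul _ _ t5 fun w hw => ?_).trans ?_
          · exact (hcO u w).trans (mem_filter.1 hw).2.le
          · rw [nsmul_eq_mul]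
            exact mul_le_mul_of_nonneg_right (card_le_of_sub (filter_subset _ _)) ht
      have h8 := mul_le_mul_of_nonneg_left h5 hc.le
      linarith
    rw [mul_add]
    linarith
  have h2 : c * ∑ u ∈ T ∩ OO bl, ∑ w ∈ OO bl \ T, cO G bl u w ≤
      ∑ u ∈ T ∩ OO bl, ∑ w ∈ OO bl \ T, cO H bl u w +
        ((T ∩ OO bl).card : ℝ) * (((T ∩ OO bl).card : ℝ) * t5 + t6) := by
    rw [mul_sum, ← nsmul_eq_mul, ← sum_const, ← sum_add_distrib]
    exact sum_le_sum h1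
  rw [scO2, scO2] at h2
  have h3 : ∑ y ∈ OO bl, ((nb H y ∩ (T ∩ OO bl)).card : ℝ) * ((nb H y ∩ (OO bl \ T)).card : ℝ) ≤
      E0 := by
    refine (sum_le_sum fun y _ => ?_).trans hE0
    refine mul_le_mul (card_le_of_sub ?_) (card_le_of_sub ?_) (Nat.cast_nonneg _)
      (Nat.cast_nonneg _)
    · intro x hx
      rw [mem_inter, mem_inter] at hx
      exact mem_inter.2 ⟨hx.1, hx.2.1⟩
    · intro x hx
      rw [mem_inter, mem_sdiff] at hx
      exact mem_sdiff.2 ⟨hx.1, hx.2.2⟩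
  rw [le_div_iff₀ hc]
  linarith

/-- **E3**: scattered neighbours in the full blocks -/
theorem partE3 (hB : Blx G Bk H d bl op nd0 bo)
    (hS : Shr G Bk H d bl nd0 bo c t1 t2 t3 t4 t5 t6 K1) (hc : 0 < c) (ht2 : 0 ≤ t2)
    (ht3 : 0 ≤ t3) (hm : 0 ≤ m) (he : 0 ≤ e)
    (hΔ : ∀ v ∉ OO bl, ((nb H v).card : ℝ) ≤ Δ) (hΔ0 : 0 ≤ Δ)
    (hN : NC H nd0 T U fT fU mT mU e m K1) :
    ∑ y ∈ OO bl, ((nb G y ∩ FS bl bo fT ∩ scV G bl t2 y).card : ℝ) ≤
      K1 * ((m * Δ + e + ((U ∩ OO bl).card * t2 + t3)) / c) := by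
  refine (scF fT).trans ?_
  refine sum_fB hB hN.kT (fun b => eE G (blk bl b) (scO G bl t2 b)) ?_ fun p b hpb hp => ?_
  · positivity
  · rw [le_div_iff₀ hc, mul_comm]
    exact scatB hB hS ht2 hΔ hΔ0 hN hpb hp

/-- `q` in terms of `H` -/
theorem light_q (hB : Blx G Bk H d bl op nd0 bo)
    (hS : Shr G Bk H d bl nd0 bo c t1 t2 t3 t4 t5 t6 K1)
    (hc : 0 < c) (h12 : 2 * t1 ≤ c * t2) (ht2 : 0 ≤ t2)
    (hN : NC H nd0 T U fT fU mT mU e m K1) {y : W} (hy : y ∈ OO bl) :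
    c * ((nb G y ∩ NS bl bo fT).card : ℝ) ≤
      3 * (((nb H y \ T).card : ℝ) + ((nb H y ∩ RS nd0 fT T).card : ℝ)) + (K1 * t2 + t1) :=
  lightv hB hS hc h12 ht2 hy T fT hN.kT

/-- **E4**: `O`-neighbours in `T` of the vertices with many light neighbours outside -/
theorem partE4 (hB : Blx G Bk H d bl op nd0 bo)
    (hS : Shr G Bk H d bl nd0 bo c t1 t2 t3 t4 t5 t6 K1) (hd : 0 < d) (hc : 0 < c)
    (h12 : 2 * t1 ≤ c * t2) (ht2 : 0 ≤ t2) (hL : 4 * (K1 * t2 + t1) ≤ c * d)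
    (hΔ : ∀ v ∉ OO bl, ((nb H v).card : ℝ) ≤ Δ) (hΔ0 : 0 ≤ Δ)
    (hN : NC H nd0 T U fT fU mT mU e m K1) {E0 : ℝ}
    (hE0 : ∑ y ∈ OO bl, ((nb H y ∩ T).card : ℝ) * ((nb H y \ T).card : ℝ) ≤ E0) :
    ∑ y ∈ OO bl with (d : ℝ) / 2 ≤ ((nb G y ∩ NS bl bo fT).card : ℝ),
      ((nb G y ∩ (T ∩ OO bl)).card : ℝ) ≤
      (12 * (E0 + d * (m * Δ)) / (c * d) + ((T ∩ OO bl).card : ℝ) * t1) / c := by
  have hd0 : (0 : ℝ) < d := by exact_mod_cast hd
  have hNS : ∀ w, w ∈ NS bl bo fT ↔ w ∈ univ.filter fun w => ∃ b, bl w = some b ∧ b ∉ fB bo fT := by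
    intro w
    rw [mem_NS, mem_filter]
    constructor
    · rintro ⟨b, hb, h⟩
      exact ⟨mem_univ _, b, hb, fun h2 => h (mem_fB.1 h2)⟩
    · rintro ⟨_, b, hb, h⟩
      exact ⟨b, hb, fun h2 => h (mem_fB.2 h2)⟩
  have hl : (OO bl).filter (fun y => (d : ℝ) / 2 ≤ ((nb G y ∩ NS bl bo fT).card : ℝ)) =
      lgF G bl d (fB bo fT) := by
    ext y
    rw [lgF, mem_filter, mem_filter]
    have : nb G y ∩ NS bl bo fT =
        nb G y ∩ univ.filter fun w => ∃ b, bl w = some b ∧ b ∉ fB bo fT := by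
      ext w
      rw [mem_inter, mem_inter, hNS w]
    rw [this]
  rw [hl, dcount]
  have hreg : ∀ y, ((nb H y ∩ T).card : ℝ) ≤ d := by
    intro y
    rw [← hB.reg y]
    refine card_le_of_sub fun x hx => ?_
    rw [mem_inter, mem_nb] at hx
    exact mem_nb.2 (hB.HG y x hx.1).1
  have h1 : c * ∑ u ∈ T ∩ OO bl, ((nb G u ∩ lgF G bl d (fB bo fT)).card : ℝ) ≤
      ∑ u ∈ T ∩ OO bl, ((nb H u ∩ lgF G bl d (fB bo fT)).card : ℝ) +
        ((T ∩ OO bl).card : ℝ) * t1 := by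
    rw [mul_sum, ← nsmul_eq_mul (T ∩ OO bl).card t1, ← sum_const, ← sum_add_distrib]
    exact sum_le_sum fun u hu => hS.f7 u (mem_inter.1 hu).2 _ (card_fB hB hN.kT)
  have h2 : ∑ u ∈ T ∩ OO bl, ((nb H u ∩ lgF G bl d (fB bo fT)).card : ℝ) ≤
      12 * (E0 + d * (m * Δ)) / (c * d) := by
    rw [dcount]
    have h3 : ∀ y ∈ lgF G bl d (fB bo fT), ((nb H y ∩ (T ∩ OO bl)).card : ℝ) ≤
        12 / (c * d) * (((nb H y ∩ T).card : ℝ) * ((nb H y \ T).card : ℝ) +
          d * ((nb H y ∩ RS nd0 fT T).card : ℝ)) := by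
      intro y hy
      rw [← hl, mem_filter] at hy
      have h4 := light_q hB hS hc h12 ht2 hN hy.1
      have h5 := mul_le_mul_of_nonneg_left hy.2 hc.le
      have h6 : c * d ≤ 12 * (((nb H y \ T).card : ℝ) + ((nb H y ∩ RS nd0 fT T).card : ℝ)) := by
        linarith
      have h7 : ((nb H y ∩ (T ∩ OO bl)).card : ℝ) ≤ ((nb H y ∩ T).card : ℝ) :=
        card_le_of_sub (inter_subset_inter_left inter_subset_left)
      have h8 : (0 : ℝ) ≤ (nb H y ∩ T).card := Nat.cast_nonneg _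
      have h9 : (0 : ℝ) ≤ (nb H y ∩ RS nd0 fT T).card := Nat.cast_nonneg _
      rw [div_mul_eq_mul_div, le_div_iff₀ (by positivity)]
      have h10 := mul_le_mul_of_nonneg_left h6 h8
      have h11 := mul_le_mul_of_nonneg_right (hreg y) h9
      have h12' := mul_le_mul_of_nonneg_right h7 (show 0 ≤ c * (d : ℝ) by positivity)
      nlinarith
    refine (sum_le_sum h3).trans ?_
    rw [← mul_sum, sum_add_distrib, ← mul_sum]
    have h4 : ∑ y ∈ lgF G bl d (fB bo fT), ((nb H y ∩ T).card : ℝ) * ((nb H y \ T).card : ℝ) ≤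
        E0 := by
      refine le_trans (sum_le_sum_of_subset_of_nonneg ?_ fun y _ _ => by positivity) hE0
      exact filter_subset _ _
    have h5 : ∑ y ∈ lgF G bl d (fB bo fT), ((nb H y ∩ RS nd0 fT T).card : ℝ) ≤ m * Δ :=
      eE_RS hB hΔ hΔ0 hN.nT hN.mT0 hN.sT _
    have h6 := mul_le_mul_of_nonneg_left h5 hd0.le
    have h7 := mul_le_mul_of_nonneg_left (add_le_add h4 h6) (show 0 ≤ 12 / (c * (d : ℝ)) by positivity)
    refine h7.trans (le_of_eq ?_)
    ring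
  rw [le_div_iff₀ hc]
  linarith

/-- The bound of the sum over `O`. -/
noncomputable def EB (d : ℕ) (c t1 t2 t3 t5 t6 K1 Δ e m θ E0 k μ kU : ℝ) : ℝ :=
  3 / θ * ((E0 + k * (k * t5 + t6)) / c) +
    3 / θ * ((E0 + d * (m * Δ)) / (c / 3) ^ 2 + d * (m * Δ) / (c / 3) +
      μ * d * (K1 * t2 + t1) / (c / 3) + d * (K1 * ((m * Δ + e + (kU * t2 + t3)) / c))) +
    d * ((12 * (E0 + d * (m * Δ)) / (c * d) + k * t1) / c) +
    8 * (E0 + d * (m * Δ)) / (c / 3) ^ 2 + d * (m * Δ) / (c / 3) +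
    3 * μ * d * (K1 * t2 + t1) / (c / 3) + 8 * θ * d ^ 2 * μ / (c / 3) +
    d * (K1 * ((m * Δ + e + (kU * t2 + t3)) / c))

/-- **The sum over `O`.** -/
theorem opart (hB : Blx G Bk H d bl op nd0 bo)
    (hS : Shr G Bk H d bl nd0 bo c t1 t2 t3 t4 t5 t6 K1) (hd : 0 < d) (hc : 0 < c) (hc1 : c ≤ 1)
    (ht1 : 0 ≤ t1) (ht2 : 0 ≤ t2) (ht3 : 0 ≤ t3) (ht5 : 0 ≤ t5) (h12 : 2 * t1 ≤ c * t2)
    (hK1 : 0 ≤ K1) (hm : 0 ≤ m) (he : 0 ≤ e) {θ : ℝ} (hθ : 0 < θ) (hθ1 : 90 * θ ≤ c)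
    (hL : K1 * t2 + t1 ≤ θ * d)
    (hΔ : ∀ v ∉ OO bl, ((nb H v).card : ℝ) ≤ Δ) (hΔ0 : 0 ≤ Δ)
    (hN : NC H nd0 T U fT fU mT mU e m K1) {E0 : ℝ}
    (hE0 : ∑ y ∈ OO bl, ((nb H y ∩ T).card : ℝ) * ((nb H y \ T).card : ℝ) ≤ E0) :
    ∑ y ∈ OO bl, ((nb G y ∩ TG bl bo fT T).card : ℝ) * ((nb G y \ TG bl bo fT T).card : ℝ) ≤
      EB d c t1 t2 t3 t5 t6 K1 Δ e m θ E0 ((T ∩ OO bl).card) ((TG bl bo fT T).card)
        ((U ∩ OO bl).card) := by
  have hd0 : (0 : ℝ) < d := by exact_mod_cast hd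
  have hL0 : 0 ≤ K1 * t2 + t1 := by positivity
  have hHG : ∀ y x, x ∈ nb H y → x ∈ nb G y := fun y x hx =>
    mem_nb.2 (hB.HG y x (mem_nb.1 hx)).1
  have hc3 : c / 3 ≤ c := by linarith
  have h4L : 4 * (K1 * t2 + t1) ≤ c * d := by
    have : 90 * (θ * d) ≤ c * d := by nlinarith
    have h0 : 0 ≤ θ * d := by positivity
    linarith
  have hreg : ∀ y, ((nb G y).card : ℝ) = d := fun y => by rw [hB.reg y]
  have key := onum (OO bl) (fun y => ((nb G y ∩ (T ∩ OO bl)).card : ℝ))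
    (fun y => ((nb G y ∩ (OO bl \ T)).card : ℝ))
    (fun y => (((nb G y ∩ FS bl bo fT) \ scV G bl t2 y).card : ℝ))
    (fun y => ((nb G y ∩ FS bl bo fT ∩ scV G bl t2 y).card : ℝ))
    (fun y => ((nb G y ∩ NS bl bo fT).card : ℝ))
    (fun y => ((nb H y ∩ T).card : ℝ)) (fun y => ((nb H y \ T).card : ℝ))
    (fun y => ((nb H y ∩ QS nd0 fT T).card : ℝ)) (fun y => ((nb H y ∩ RS nd0 fT T).card : ℝ))
    (d := (d : ℝ)) (c := c / 3) (L := K1 * t2 + t1) (θ := θ) (m := ((TG bl bo fT T).card : ℝ))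
    (E0 := E0) (E1 := m * Δ)
    (E2 := (E0 + ((T ∩ OO bl).card : ℝ) * (((T ∩ OO bl).card : ℝ) * t5 + t6)) / c)
    (E3 := K1 * ((m * Δ + e + ((U ∩ OO bl).card * t2 + t3)) / c))
    (E4 := (12 * (E0 + d * (m * Δ)) / (c * d) + ((T ∩ OO bl).card : ℝ) * t1) / c)
    (fun y _ => Nat.cast_nonneg _) (fun y _ => Nat.cast_nonneg _) (fun y _ => Nat.cast_nonneg _)
    (fun y _ => Nat.cast_nonneg _) (fun y _ => Nat.cast_nonneg _) (fun y _ => Nat.cast_nonneg _)
    (fun y _ => Nat.cast_nonneg _) (fun y _ => Nat.cast_nonneg _) (fun y _ => Nat.cast_nonneg _)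
    hd0 (by positivity) (by linarith) hL0 hθ (by linarith) hL
    (by
      intro y _
      refine le_trans ?_ (hreg y).le
      exact card_le_of_sub fun x hx => hHG y x (mem_sdiff.1 hx).1)
    (by
      intro y _
      have h1 := card_isd (nb G y) (TG bl bo fT T)
      rw [split_in, split_out, hreg y, ← card_isd (nb G y ∩ FS bl bo fT) (scV G bl t2 y)] at h1
      linarith)
    (by
      intro y hy
      have h1 := hS.f8 y hy
      have h2 : ((nb G y ∩ OO bl).card : ℝ) = ((nb G y ∩ (T ∩ OO bl)).card : ℝ) +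
          ((nb G y ∩ (OO bl \ T)).card : ℝ) := by
        rw [← card_isd (nb G y ∩ OO bl) T]
        have e1 : nb G y ∩ OO bl ∩ T = nb G y ∩ (T ∩ OO bl) := by
          ext x
          simp only [mem_inter]
          tauto
        have e2 : (nb G y ∩ OO bl) \ T = nb G y ∩ (OO bl \ T) := by
          ext x
          simp only [mem_inter, mem_sdiff]
          tauto
        rw [e1, e2]
      have h3 : ((nb H y ∩ OO bl).card : ℝ) ≤ ((nb H y ∩ T).card : ℝ) +
          ((nb G y ∩ (OO bl \ T)).card : ℝ) := by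
        rw [← card_isd (nb H y ∩ OO bl) T]
        refine add_le_add (card_le_of_sub fun x hx => ?_) (card_le_of_sub fun x hx => ?_)
        · rw [mem_inter, mem_inter] at hx
          exact mem_inter.2 ⟨hx.1.1, hx.2⟩
        · rw [mem_sdiff, mem_inter] at hx
          exact mem_inter.2 ⟨hHG y x hx.1.1, mem_sdiff.2 ⟨hx.1.2, hx.2⟩⟩
      have h4 : (0 : ℝ) ≤ ((nb G y ∩ (T ∩ OO bl)).card : ℝ) +
          ((nb G y ∩ (OO bl \ T)).card : ℝ) := by positivity
      rw [h2] at h1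
      have h5 := mul_le_mul_of_nonneg_right hc3 h4
      have h6 : 0 ≤ K1 * t2 := by positivity
      linarith)
    (by
      intro y hy
      have h1 := hS.f8 y hy
      have h2 : ((nb G y ∩ OO bl).card : ℝ) = ((nb G y ∩ (T ∩ OO bl)).card : ℝ) +
          ((nb G y ∩ (OO bl \ T)).card : ℝ) := by
        rw [← card_isd (nb G y ∩ OO bl) T]
        have e1 : nb G y ∩ OO bl ∩ T = nb G y ∩ (T ∩ OO bl) := by
          ext x
          simp only [mem_inter]
          tauto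
        have e2 : (nb G y ∩ OO bl) \ T = nb G y ∩ (OO bl \ T) := by
          ext x
          simp only [mem_inter, mem_sdiff]
          tauto
        rw [e1, e2]
      have h3 : ((nb H y ∩ OO bl).card : ℝ) ≤ ((nb G y ∩ (T ∩ OO bl)).card : ℝ) +
          ((nb H y \ T).card : ℝ) := by
        rw [← card_isd (nb H y ∩ OO bl) T]
        refine add_le_add (card_le_of_sub fun x hx => ?_) (card_le_of_sub fun x hx => ?_)
        · rw [mem_inter, mem_inter] at hx
          exact mem_inter.2 ⟨hHG y x hx.1.1, mem_inter.2 ⟨hx.2, hx.1.2⟩⟩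
        · rw [mem_sdiff, mem_inter] at hx
          exact mem_sdiff.2 ⟨hx.1.1, hx.2⟩
      have h4 : (0 : ℝ) ≤ ((nb G y ∩ (T ∩ OO bl)).card : ℝ) +
          ((nb G y ∩ (OO bl \ T)).card : ℝ) := by positivity
      rw [h2] at h1
      have h5 := mul_le_mul_of_nonneg_right hc3 h4
      have h6 : 0 ≤ K1 * t2 := by positivity
      linarith)
    (by
      intro y hy
      have h1 := fullv hB hS hc h12 hy T fT
      have h2 : (0 : ℝ) ≤ ((nb H y ∩ T).card : ℝ) + ((nb H y ∩ QS nd0 fT T).card : ℝ) := by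
        positivity
      linarith)
    (by
      intro y hy
      have h1 := light_q hB hS hc h12 ht2 hN hy
      linarith)
    hE0
    (eE_QS hB hΔ hΔ0 hN.lT hN.mT0 hN.sT _)
    (eE_RS hB hΔ hΔ0 hN.nT hN.mT0 hN.sT _)
    (partE2 hB hS hc ht5 T hE0)
    (partE3 hB hS hc ht2 ht3 hm he hΔ hΔ0 hN)
    (partE4 hB hS hd hc h12 ht2 h4L hΔ hΔ0 hN hE0)
    (by
      rw [dcount]
      have h1 : ∀ u ∈ T ∩ OO bl, ((nb G u ∩ OO bl).card : ℝ) ≤ d := fun u _ =>
        (card_le_of_sub inter_subset_left).trans (hreg u).le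
      refine (sum_le_card_nsmul _ _ _ h1).trans ?_
      rw [nsmul_eq_mul]
      exact mul_le_mul_of_nonneg_right (card_le_of_sub subset_union_left) hd0.le)
    (by
      have h0 : ∀ y ∈ OO bl, (((nb G y ∩ FS bl bo fT) \ scV G bl t2 y).card : ℝ) +
          ((nb G y ∩ FS bl bo fT ∩ scV G bl t2 y).card : ℝ) = ((nb G y ∩ FS bl bo fT).card : ℝ) := by
        intro y _
        rw [← card_isd (nb G y ∩ FS bl bo fT) (scV G bl t2 y)]
        ring
      rw [sum_congr rfl h0, dcount]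
      have h1 : ∀ u ∈ FS bl bo fT, ((nb G u ∩ OO bl).card : ℝ) ≤ d := fun u _ =>
        (card_le_of_sub inter_subset_left).trans (hreg u).le
      refine (sum_le_card_nsmul _ _ _ h1).trans ?_
      rw [nsmul_eq_mul]
      exact mul_le_mul_of_nonneg_right (card_le_of_sub subset_union_right) hd0.le)
  refine le_trans (le_of_eq ?_) (key.trans (le_of_eq ?_))
  · refine sum_congr rfl fun y _ => ?_
    rw [split_in, split_out, ← card_isd (nb G y ∩ FS bl bo fT) (scV G bl t2 y)]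
    ring
  · rw [EB]

end OPart

end Pool.Agent.Work.MP_db9399_clj.helper75
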