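import Pool.Agent.Work.MP_db9399_clj_helper75.CLJ4

/-!
# MP_db9399, SWG, block CLJ, part 5: the pair `T_G`, `U_G` (helper75, note 1584)
-/

set_option autoImplicit false
set_option linter.unusedSectionVars false

namespace Pool.Agent.Work.MP_db9399_clj.helper75

open Finset Classical
open Pool.Agent.Work.MP_db9399_all (nb)
open Pool.Agent.Work.MP_db9399_sg

universe u

section Pair

variable {W B I : Type u} [Fintype W] [Fintype B] [Fintype I]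

/-- vertices with at least half of the neighbours in `Z` -/
noncomputable def UO (G : SimpleGraph W) (d : ℕ) (Z : Finset W) : Finset W :=
  univ.filter fun y => (d : ℝ) ≤ 2 * ((nb G y ∩ Z).card : ℝ)

theorem mem_UO {G : SimpleGraph W} {d : ℕ} {Z : Finset W} {y : W} :
    y ∈ UO G d Z ↔ (d : ℝ) ≤ 2 * ((nb G y ∩ Z).card : ℝ) := by simp [UO]

/-- `U_G` -/
noncomputable def UG (G : SimpleGraph W) (d : ℕ) (bl : W → Option B) (bo : I × Bool → Option B)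
    (fT fU : I × Bool → Prop) (T : Finset W) : Finset W :=
  TG bl bo fU (UO G d (TG bl bo fT T))

variable {G Bk H : SimpleGraph W} {d : ℕ} {bl : W → Option B} {op : B → B}
  {nd0 : W → Option (I × Bool)} {bo : I × Bool → Option B} {c t1 t2 t3 t4 t5 t6 K1 Δ e m : ℝ}
  {T U : Finset W} {fT fU : I × Bool → Prop} {mT mU : I × Bool → ℝ}

omit [Fintype B] [Fintype I] in
theorem half_sum {d : ℕ} (hd : 0 < d) (hreg : ∀ v, (nb G v).card = d) (Z A O : Finset W)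
    (hA : A ⊆ O) {E : ℝ}
    (hE : ∑ y ∈ O, ((nb G y ∩ Z).card : ℝ) * ((nb G y \ Z).card : ℝ) ≤ E) :
    (∑ y ∈ A \ UO G d Z, ((nb G y ∩ Z).card : ℝ) ≤ 2 * E / d) ∧
    ∑ y ∈ UO G d Z ∩ A, ((nb G y \ Z).card : ℝ) ≤ 2 * E / d := by
  have hd0 : (0 : ℝ) < d := by exact_mod_cast hd
  constructor
  · rw [le_div_iff₀ hd0]
    have h1 : ∀ y ∈ A \ UO G d Z, ((nb G y ∩ Z).card : ℝ) * d ≤
        2 * (((nb G y ∩ Z).card : ℝ) * ((nb G y \ Z).card : ℝ)) := by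
      intro y hy
      rw [mem_sdiff, mem_UO, not_le] at hy
      have h2 := card_isd (nb G y) Z
      rw [hreg y] at h2
      have h3 : (d : ℝ) ≤ 2 * ((nb G y \ Z).card : ℝ) := by linarith
      have h4 := mul_le_mul_of_nonneg_left h3 (Nat.cast_nonneg (α := ℝ) (nb G y ∩ Z).card)
      linarith
    rw [sum_mul]
    refine (sum_le_sum h1).trans ?_
    rw [← mul_sum]
    refine mul_le_mul_of_nonneg_left ?_ (by norm_num)
    refine le_trans (sum_le_sum_of_subset_of_nonneg ?_ fun y _ _ => by positivity) hE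
    exact sdiff_subset.trans hA
  · rw [le_div_iff₀ hd0]
    have h1 : ∀ y ∈ UO G d Z ∩ A, ((nb G y \ Z).card : ℝ) * d ≤
        2 * (((nb G y ∩ Z).card : ℝ) * ((nb G y \ Z).card : ℝ)) := by
      intro y hy
      rw [mem_inter, mem_UO] at hy
      have h4 := mul_le_mul_of_nonneg_right hy.1 (Nat.cast_nonneg (α := ℝ) (nb G y \ Z).card)
      linarith
    rw [sum_mul]
    refine (sum_le_sum h1).trans ?_
    rw [← mul_sum]
    refine mul_le_mul_of_nonneg_left ?_ (by norm_num)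
    refine le_trans (sum_le_sum_of_subset_of_nonneg ?_ fun y _ _ => by positivity) hE
    exact inter_subset_right.trans hA

/-- bulk edges from a full block lead into full blocks -/
theorem no_bulk (hB : Blx G Bk H d bl op nd0 bo) (hTU : ∀ i s, fT (i, s) ↔ fU (i, !s))
    {v : W} (hv : v ∈ FS bl bo fT) : nb G v ∩ NS bl bo fU = nb (G \ Bk) v ∩ NS bl bo fU := by
  ext w
  rw [mem_inter, mem_inter, mem_nb, mem_nb, SimpleGraph.sdiff_adj]
  constructor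
  · rintro ⟨h1, h2⟩
    refine ⟨⟨h1, fun h3 => ?_⟩, h2⟩
    obtain ⟨b, hb, hb'⟩ := hB.bk v w h3
    rw [mem_FS] at hv
    rw [mem_NS] at h2
    obtain ⟨b1, hb1, hf1⟩ := hv
    obtain ⟨b2, hb2, hf2⟩ := h2
    rw [hb] at hb1
    rw [hb'] at hb2
    have e1 := Option.some.inj hb1
    have e2 := Option.some.inj hb2
    subst e1
    refine hf2 fun p hp => ?_
    obtain ⟨i, s⟩ := p
    have h4 : bo (i, !s) = some b := by
      rw [hB.bop, hp, ← e2, Option.map_some, hB.opp]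
    have h5 := (hTU i (!s)).1 (hf1 _ h4)
    rwa [Bool.not_not] at h5
  · rintro ⟨h1, h2⟩
    exact ⟨h1.1, h2⟩

/-- thin edges from the full blocks to blocks which are not full -/
theorem sum_thin (hB : Blx G Bk H d bl op nd0 bo)
    (hS : Shr G Bk H d bl nd0 bo c t1 t2 t3 t4 t5 t6 K1) (hc : 0 < c) (ht3 : 0 ≤ t3)
    (h34 : 2 * t3 ≤ c * t4) (ht4 : 0 ≤ t4) (hK1 : 0 ≤ K1) (hm : 0 ≤ m) (he : 0 ≤ e)
    (hΔ : ∀ v ∉ OO bl, ((nb H v).card : ℝ) ≤ Δ)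
    (hΔ0 : 0 ≤ Δ) (hN : NC H nd0 T U fT fU mT mU e m K1) (hTU : ∀ i s, fT (i, s) ↔ fU (i, !s)) :
    ∑ v ∈ FS bl bo fT, ((nb G v ∩ NS bl bo fU).card : ℝ) ≤
      K1 * ((3 * (2 * m * Δ + e) + (K1 * t4 + t3)) / c) := by
  have h1 : ∑ v ∈ FS bl bo fT, ((nb G v ∩ NS bl bo fU).card : ℝ) =
      eE (G \ Bk) (FS bl bo fT) (NS bl bo fU) := by
    unfold eE
    exact sum_congr rfl fun v hv => by rw [no_bulk hB hTU hv]
  rw [h1]
  refine (eE_FS _ _ _).trans ?_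
  refine sum_fB hB hN.kT (fun b => eE (G \ Bk) (blk bl b) (NS bl bo fU)) (by positivity)
    fun p b hpb hp => ?_
  rw [le_div_iff₀ hc, mul_comm]
  exact thinB hB hS hc h34 ht4 hΔ hΔ0 hN hpb hp

/-- **Edges from `T_G` leaving `U_G`.** -/
theorem goalA (hB : Blx G Bk H d bl op nd0 bo)
    (hS : Shr G Bk H d bl nd0 bo c t1 t2 t3 t4 t5 t6 K1) (hd : 0 < d) (hc : 0 < c)
    (ht2 : 0 ≤ t2) (ht3 : 0 ≤ t3) (h12 : 2 * t1 ≤ c * t2)
    (h34 : 2 * t3 ≤ c * t4) (ht4 : 0 ≤ t4) (hK1 : 0 ≤ K1) (hm : 0 ≤ m) (he : 0 ≤ e)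
    (hΔ : ∀ v ∉ OO bl, ((nb H v).card : ℝ) ≤ Δ)
    (hΔ0 : 0 ≤ Δ) (hN : NC H nd0 T U fT fU mT mU e m K1) (hTU : ∀ i s, fT (i, s) ↔ fU (i, !s))
    {E : ℝ} (hE : ∑ y ∈ OO bl, ((nb G y ∩ TG bl bo fT T).card : ℝ) *
      ((nb G y \ TG bl bo fT T).card : ℝ) ≤ E) :
    ∑ v ∈ TG bl bo fT T, ((nb G v \ UG G d bl bo fT fU T).card : ℝ) ≤
      2 * E / d + (3 * (e + m * Δ) + (T ∩ OO bl).card * (K1 * t2 + t1)) / c +
        K1 * ((3 * (2 * m * Δ + e) + (K1 * t4 + t3)) / c) := by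
  have h0 : ∀ v ∈ TG bl bo fT T, ((nb G v \ UG G d bl bo fT fU T).card : ℝ) =
      ((nb G v ∩ (OO bl \ UO G d (TG bl bo fT T))).card : ℝ) +
        ((nb G v ∩ NS bl bo fU).card : ℝ) := fun v _ => by
    rw [UG, split_out]
  rw [sum_congr rfl h0, sum_add_distrib, dcount]
  have h1 := (half_sum hd hB.reg (TG bl bo fT T) (OO bl) (OO bl) subset_rfl hE).1
  have h2 : ∑ v ∈ TG bl bo fT T, ((nb G v ∩ NS bl bo fU).card : ℝ) ≤
      ∑ v ∈ T ∩ OO bl, ((nb G v ∩ NS bl bo fU).card : ℝ) +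
        ∑ v ∈ FS bl bo fT, ((nb G v ∩ NS bl bo fU).card : ℝ) := by
    rw [TG]
    have h3 : (T ∩ OO bl) ∪ FS bl bo fT = (T ∩ OO bl) ∪ (FS bl bo fT \ (T ∩ OO bl)) := by
      rw [union_sdiff_self_eq_union]
    rw [h3, sum_union disjoint_sdiff]
    refine add_le_add le_rfl ?_
    exact sum_le_sum_of_subset_of_nonneg sdiff_subset fun _ _ _ => Nat.cast_nonneg _
  have h3 : ∑ v ∈ T ∩ OO bl, ((nb G v ∩ NS bl bo fU).card : ℝ) ≤
      (3 * (e + m * Δ) + (T ∩ OO bl).card * (K1 * t2 + t1)) / c := by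
    rw [le_div_iff₀ hc, mul_comm, mul_sum]
    have h4 : ∀ v ∈ T ∩ OO bl, c * ((nb G v ∩ NS bl bo fU).card : ℝ) ≤
        3 * (((nb H v \ U).card : ℝ) + ((nb H v ∩ RS nd0 fU U).card : ℝ)) + (K1 * t2 + t1) :=
      fun v hv => lightv hB hS hc h12 ht2 (mem_inter.1 hv).2 U fU hN.kU
    refine (sum_le_sum h4).trans ?_
    rw [sum_add_distrib, ← mul_sum, sum_add_distrib, sum_const, nsmul_eq_mul]
    have h5 : ∑ v ∈ T ∩ OO bl, ((nb H v \ U).card : ℝ) ≤ e := by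
      refine le_trans (sum_le_sum_of_subset_of_nonneg inter_subset_left
        fun _ _ _ => Nat.cast_nonneg _) hN.eT
    have h6 : ∑ v ∈ T ∩ OO bl, ((nb H v ∩ RS nd0 fU U).card : ℝ) ≤ m * Δ :=
      eE_RS hB hΔ hΔ0 hN.nU hN.mU0 hN.sU _
    linarith
  have h4 := sum_thin hB hS hc ht3 h34 ht4 hK1 hm he hΔ hΔ0 hN hTU
  linarith

/-- **Edges from `U_G` leaving `T_G`.** -/
theorem goalB (hB : Blx G Bk H d bl op nd0 bo)
    (hS : Shr G Bk H d bl nd0 bo c t1 t2 t3 t4 t5 t6 K1) (hd : 0 < d) (hc : 0 < c)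
    (ht2 : 0 ≤ t2) (ht3 : 0 ≤ t3) (h12 : 2 * t1 ≤ c * t2)
    (h34 : 2 * t3 ≤ c * t4) (ht4 : 0 ≤ t4) (hK1 : 0 ≤ K1) (hm : 0 ≤ m) (he : 0 ≤ e)
    (hΔ : ∀ v ∉ OO bl, ((nb H v).card : ℝ) ≤ Δ)
    (hΔ0 : 0 ≤ Δ) (hN : NC H nd0 T U fT fU mT mU e m K1) (hTU : ∀ i s, fT (i, s) ↔ fU (i, !s))
    {E : ℝ} (hE : ∑ y ∈ OO bl, ((nb G y ∩ TG bl bo fT T).card : ℝ) *
      ((nb G y \ TG bl bo fT T).card : ℝ) ≤ E) :
    ∑ v ∈ UG G d bl bo fT fU T, ((nb G v \ TG bl bo fT T).card : ℝ) ≤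
      2 * E / d + K1 * ((3 * (m * Δ + e) + ((T ∩ OO bl).card * t2 + t3)) / c) +
        K1 * ((3 * (2 * m * Δ + e) + (K1 * t4 + t3)) / c) := by
  have h1 := (half_sum hd hB.reg (TG bl bo fT T) (OO bl) (OO bl) subset_rfl hE).2
  have h2 : ∑ v ∈ UG G d bl bo fT fU T, ((nb G v \ TG bl bo fT T).card : ℝ) ≤
      ∑ v ∈ UO G d (TG bl bo fT T) ∩ OO bl, ((nb G v \ TG bl bo fT T).card : ℝ) +
        ∑ v ∈ FS bl bo fU, ((nb G v \ TG bl bo fT T).card : ℝ) := by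
    rw [UG]
    nth_rewrite 1 [TG]
    have h3 : (UO G d (TG bl bo fT T) ∩ OO bl) ∪ FS bl bo fU =
        (UO G d (TG bl bo fT T) ∩ OO bl) ∪
          (FS bl bo fU \ (UO G d (TG bl bo fT T) ∩ OO bl)) := by
      rw [union_sdiff_self_eq_union]
    rw [h3, sum_union disjoint_sdiff]
    refine add_le_add le_rfl ?_
    exact sum_le_sum_of_subset_of_nonneg sdiff_subset fun _ _ _ => Nat.cast_nonneg _
  have h3 : ∑ v ∈ FS bl bo fU, ((nb G v \ TG bl bo fT T).card : ℝ) =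
      ∑ v ∈ FS bl bo fU, ((nb G v ∩ (OO bl \ T)).card : ℝ) +
        ∑ v ∈ FS bl bo fU, ((nb G v ∩ NS bl bo fT).card : ℝ) := by
    rw [← sum_add_distrib]
    exact sum_congr rfl fun v _ => split_out _ _ _
  have hTU' : ∀ i s, fU (i, s) ↔ fT (i, !s) := by
    intro i s
    have := hTU i (!s)
    rw [Bool.not_not] at this
    exact this.symm
  have h4 := sum_thin hB hS hc ht3 h34 ht4 hK1 hm he hΔ hΔ0 hN.swap hTU'
  have h5 : ∑ v ∈ FS bl bo fU, ((nb G v ∩ (OO bl \ T)).card : ℝ) ≤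
      K1 * ((3 * (m * Δ + e) + ((T ∩ OO bl).card * t2 + t3)) / c) := by
    refine (eE_FS G fU (OO bl \ T)).trans ?_
    have h6 : 0 ≤ (3 * (m * Δ + e) + ((T ∩ OO bl).card * t2 + t3)) / c :=
      div_nonneg (add_nonneg (by positivity)
        (add_nonneg (mul_nonneg (Nat.cast_nonneg _) ht2) ht3)) hc.le
    refine sum_fB hB hN.kU (fun b => eE G (blk bl b) (OO bl \ T)) h6 fun p b hpb hp => ?_
    rw [le_div_iff₀ hc, mul_comm]
    exact outO hB hS hc h12 ht2 hΔ hΔ0 hN.swap hpb hp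
  linarith

/-- **Size of `U_G`.** -/
theorem card_UG (hd : 0 < d) (hreg : ∀ v, (nb G v).card = d) (T' U' : Finset W) {g2 : ℝ}
    (h : ∑ v ∈ U', ((nb G v \ T').card : ℝ) ≤ g2) :
    (U'.card : ℝ) ≤ T'.card + g2 / d := by
  have hd0 : (0 : ℝ) < d := by exact_mod_cast hd
  have h1 : (U'.card : ℝ) * d = ∑ v ∈ U', ((nb G v ∩ T').card : ℝ) +
      ∑ v ∈ U', ((nb G v \ T').card : ℝ) := by
    rw [← sum_add_distrib, ← nsmul_eq_mul, ← sum_const]
    refine sum_congr rfl fun v _ => ?_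
    rw [card_isd, hreg]
  have h2 : ∑ v ∈ U', ((nb G v ∩ T').card : ℝ) ≤ T'.card * d := by
    rw [dcount, ← nsmul_eq_mul]
    refine sum_le_card_nsmul _ _ _ fun v _ => ?_
    rw [← hreg v]
    exact card_le_of_sub inter_subset_left
  have h3 : (U'.card : ℝ) * d ≤ (T'.card + g2 / d) * d := by
    rw [add_mul, div_mul_cancel₀ _ hd0.ne']
    linarith
  exact le_of_mul_le_mul_right h3 hd0

end Pair

end Pool.Agent.Work.MP_db9399_clj.helper75
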