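import Pool.Agent.Work.MP_db9399_clj_helper75.CLJ5

/-!
# MP_db9399, SWG, block CLJ, part 6: from the class graph with gadgets to the real graph
(helper75, note 1584)
-/

set_option autoImplicit false
set_option linter.unusedSectionVars false

namespace Pool.Agent.Work.MP_db9399_clj.helper75

open Finset Classical
open Pool.Agent.Work.MP_db9399_all (nb)
open Pool.Agent.Work.MP_db9399_cg (cdg)
open Pool.Agent.Work.MP_db9399_sg

universe u

section Transfer

variable {W B I V : Type u} [Fintype W] [Fintype B] [Fintype I] [Fintype V]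

/-- the real part -/
noncomputable def rl (ι : W → V) (T : Finset V) : Finset W := univ.filter fun v => ι v ∈ T

theorem mem_rl {ι : W → V} {T : Finset V} {v : W} : v ∈ rl ι T ↔ ι v ∈ T := by simp [rl]

/-- The class graph with its gadgets. `ι` = inclusion of the real vertices, the other vertices are
dummies. -/
structure Gdx (ι : W → V) (H : SimpleGraph W) (bl : W → Option B) (bo : I × Bool → Option B)
    (Gh : SimpleGraph V) (nd : V → Option (I × Bool)) (A : Finset V) (D : ℕ)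
    (C2 c0 : ℝ) : Prop where
  inj : Function.Injective ι
  real : ∀ v w, Gh.Adj (ι v) (ι w) ↔ H.Adj v w
  act : ∀ v ∈ A, nd v = none → ∃ w, v = ι w ∧ bl w = none
  sup : ∀ v w, Gh.Adj v w → v ∈ A
  gad : ∀ v x, (∀ w, x ≠ ι w) → Gh.Adj v x → ∃ i s, nd v = some (i, s) ∧ nd x = some (i, !s)
  deg : ∀ v ∈ A, (nb Gh v).card ≤ D ∧ D ≤ (nb Gh v).card + 1
  ndA : ∀ v, nd v ≠ none → v ∈ A
  lgt : ∀ v, bl v ≠ none → 8 * (nb H v).card ≤ D
  sz1 : ∀ i s, 8 * D ≤ (nsd nd i s).card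
  sz3 : ∀ p b, bo p = some b → ((blk bl b).card : ℝ) ≤ C2 * (nsd nd p.1 p.2).card
  cod : ∀ i s, ∀ u ∈ nsd nd i s, ∀ w ∈ nsd nd i s, c0 * D ≤ cdg Gh u w

variable {G Bk H : SimpleGraph W} {d D : ℕ} {bl : W → Option B} {op : B → B}
  {bo : I × Bool → Option B} {c t1 t2 t3 t4 t5 t6 K1 Δ e m C2 c0 g MS : ℝ}
  {ι : W → V} {Gh : SimpleGraph V} {nd : V → Option (I × Bool)} {A T : Finset V}

theorem card_inl (hι : Function.Injective ι) {S : Finset W} {S' : Finset V}
    (h : ∀ w ∈ S, ι w ∈ S') : (S.card : ℝ) ≤ S'.card := by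
  refine Nat.cast_le.2 ?_
  exact card_le_card_of_injOn ι (fun w hw => h w hw) hι.injOn

theorem sum_inl (hι : Function.Injective ι) (T : Finset V) (f : V → ℝ) (hf : ∀ v, 0 ≤ f v)
    (g : W → ℝ) (hg : ∀ v, g v ≤ f (ι v)) : ∑ v ∈ rl ι T, g v ≤ ∑ v ∈ T, f v := by
  calc ∑ v ∈ rl ι T, g v ≤ ∑ v ∈ rl ι T, f (ι v) := sum_le_sum fun v _ => hg v
    _ = ∑ v ∈ (rl ι T).map ⟨ι, hι⟩, f v := by
        rw [sum_map]
        rfl
    _ ≤ _ := by
        refine sum_le_sum_of_subset_of_nonneg ?_ fun v _ _ => hf v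
        intro v hv
        obtain ⟨w, hw, rfl⟩ := mem_map.1 hv
        exact mem_rl.1 hw

theorem degle (hG : Gdx ι H bl bo Gh nd A D C2 c0) (v : V) : (nb Gh v).card ≤ D := by
  by_cases h : v ∈ A
  · exact (hG.deg v h).1
  · have : nb Gh v = ∅ := by
      rw [eq_empty_iff_forall_notMem]
      intro w hw
      exact h (hG.sup v w (mem_nb.1 hw))
    rw [this]
    simp

theorem degge (hG : Gdx ι H bl bo Gh nd A D C2 c0) (v : V) (h : nb Gh v ∩ T ≠ ∅) :
    D ≤ (nb Gh v).card + 1 := by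
  obtain ⟨w, hw⟩ := nonempty_iff_ne_empty.2 h
  exact (hG.deg v (hG.sup v w (mem_nb.1 (mem_inter.1 hw).1))).2

/-- size of the partner -/
theorem card_Up (hG : Gdx ι H bl bo Gh nd A D C2 c0) (hD : 0 < D) :
    ((Up Gh D T).card : ℝ) ≤ 2 * T.card := by
  have hD0 : (0 : ℝ) < D := by exact_mod_cast hD
  have h1 : ((Up Gh D T).card : ℝ) * (D / 2) ≤ ∑ y ∈ Up Gh D T, ((nb Gh y ∩ T).card : ℝ) := by
    rw [← nsmul_eq_mul]
    refine card_nsmul_le_sum _ _ _ fun y hy => ?_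
    have h2 : D ≤ 2 * (nb Gh y ∩ T).card := (mem_filter.1 hy).2
    have h3 : (D : ℝ) ≤ 2 * ((nb Gh y ∩ T).card : ℝ) := by exact_mod_cast h2
    linarith
  rw [dcount] at h1
  have h2 : ∑ v ∈ T, ((nb Gh v ∩ Up Gh D T).card : ℝ) ≤ T.card * D := by
    rw [← nsmul_eq_mul]
    refine sum_le_card_nsmul _ _ _ fun v _ => ?_
    exact (Nat.cast_le.2 (card_le_card inter_subset_left)).trans
      (by exact_mod_cast degle hG v)
  have h3 : ((Up Gh D T).card : ℝ) * (D / 2) ≤ (2 * T.card) * (D / 2) := by linarith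
  exact le_of_mul_le_mul_right h3 (by positivity)

/-- home neighbours -/
theorem home (hB : Blx G Bk H d bl op (fun v => nd (ι v)) bo)
    (hG : Gdx ι H bl bo Gh nd A D C2 c0) {i : I} {s : Bool} {v : V}
    (hv : v ∈ nsd nd i (!s)) :
    (1 - (1 / 8 : ℝ)) * D - 1 ≤ ((nb Gh v ∩ nsd nd i s).card : ℝ) := by
  rw [mem_nsd] at hv
  have hA : v ∈ A := hG.ndA v (by rw [hv]; exact Option.some_ne_none _)
  have h1 := (hG.deg v hA).2
  have h1' : (D : ℝ) ≤ (nb Gh v).card + 1 := by exact_mod_cast h1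
  by_cases hr : ∃ v', v = ι v'
  · obtain ⟨v', rfl⟩ := hr
    have h2 : nb Gh (ι v') ⊆ (nb Gh (ι v') ∩ nsd nd i s) ∪ (nb H v').map ⟨ι, hG.inj⟩ := by
      intro w hw
      by_cases hw' : ∃ w', w = ι w'
      · obtain ⟨w', rfl⟩ := hw'
        refine mem_union_right _ (mem_map.2 ⟨w', ?_, rfl⟩)
        exact mem_nb.2 ((hG.real v' w').1 (mem_nb.1 hw))
      · refine mem_union_left _ (mem_inter.2 ⟨hw, ?_⟩)
        obtain ⟨i', s', h3, h4⟩ := hG.gad _ w (fun w' h => hw' ⟨w', h⟩) (mem_nb.1 hw)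
        rw [hv] at h3
        have h5 := Prod.mk.inj (Option.some.inj h3)
        rw [mem_nsd, h4, ← h5.1, ← h5.2, Bool.not_not]
    have h3 := (card_le_card h2).trans (card_union_le _ _)
    rw [card_map] at h3
    have h4 : bl v' ≠ none := by
      intro h
      exact nd_notO hB (v := v') (p := (i, !s)) hv (mem_OO.2 h)
    have h5 := hG.lgt v' h4
    have h6 : ((nb Gh (ι v')).card : ℝ) ≤
        ((nb Gh (ι v') ∩ nsd nd i s).card : ℝ) + (nb H v').card := by exact_mod_cast h3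
    have h7 : 8 * ((nb H v').card : ℝ) ≤ D := by exact_mod_cast h5
    linarith
  · have h2 : nb Gh v ∩ nsd nd i s = nb Gh v := by
      rw [inter_eq_left]
      intro w hw
      obtain ⟨i', s', h3, h4⟩ := hG.gad w v (fun w' h => hr ⟨w', h⟩) (mem_nb.1 hw).symm
      rw [hv] at h4
      have h5 := Prod.mk.inj (Option.some.inj h4)
      rw [mem_nsd, h3, ← h5.1]
      have h6 : s' = s := by
        have := h5.2
        revert this
        cases s <;> cases s' <;> simp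
      rw [h6]
    rw [h2]
    have : (0 : ℝ) ≤ D := Nat.cast_nonneg _
    linarith

/-- **The near-closed pair of real vertices.** -/
theorem nc (hG : Gdx ι H bl bo Gh nd A D C2 c0) (hD : 2 ≤ D) (hc0 : 0 < c0) (hg : 0 ≤ g)
    (hMS : 0 ≤ MS) (hT : (T.card : ℝ) ≤ MS * D) (hc : cut2 Gh D T ≤ g * D) :
    NC H (fun v => nd (ι v)) (rl ι T) (rl ι (Up Gh D T)) (full nd T) (full nd (Up Gh D T))
      (mn nd T) (mn nd (Up Gh D T)) (4 * g * (D : ℝ) ^ 2) (2 * g * D / c0) MS := by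
  have hD0 : (0 : ℝ) < D := by
    have : 0 < D := by omega
    exact_mod_cast this
  have hpT := pairT (S := Gh) hD (fun y hy => degge hG y hy) hc
  have hpU := pairU (S := Gh) (by omega) hc
  have hg1 : 0 ≤ g * (D : ℝ) ^ 2 := by positivity
  refine ⟨?_, ?_, ?_, ?_, ?_, ?_, fun p => mn_nonneg _ _, fun p => mn_nonneg _ _, ?_, ?_, ?_, ?_⟩
  · refine le_trans (sum_inl hG.inj T (fun v => ((nb Gh v \ Up Gh D T).card : ℝ))
      (fun _ => Nat.cast_nonneg _) _ fun v => ?_) hpT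
    refine card_inl hG.inj fun w hw => ?_
    rw [mem_sdiff, mem_rl] at hw
    exact mem_sdiff.2 ⟨mem_nb.2 ((hG.real v w).2 (mem_nb.1 hw.1)), hw.2⟩
  · refine le_trans (sum_inl hG.inj (Up Gh D T) (fun v => ((nb Gh v \ T).card : ℝ))
      (fun _ => Nat.cast_nonneg _) _ fun v => ?_) (hpU.trans (by linarith))
    refine card_inl hG.inj fun w hw => ?_
    rw [mem_sdiff, mem_rl] at hw
    exact mem_sdiff.2 ⟨mem_nb.2 ((hG.real v w).2 (mem_nb.1 hw.1)), hw.2⟩
  · intro p hp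
    rw [mn_full hp]
    refine card_inl hG.inj fun w hw => ?_
    rw [mem_sdiff, mem_rl, mem_nsd] at hw
    exact mem_sdiff.2 ⟨mem_nsd.2 hw.1, hw.2⟩
  · intro p hp
    rw [mn_not hp]
    refine card_inl hG.inj fun w hw => ?_
    rw [mem_inter, mem_rl, mem_nsd] at hw
    exact mem_inter.2 ⟨hw.1, mem_nsd.2 hw.2⟩
  · intro p hp
    rw [mn_full hp]
    refine card_inl hG.inj fun w hw => ?_
    rw [mem_sdiff, mem_rl, mem_nsd] at hw
    exact mem_sdiff.2 ⟨mem_nsd.2 hw.1, hw.2⟩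
  · intro p hp
    rw [mn_not hp]
    refine card_inl hG.inj fun w hw => ?_
    rw [mem_inter, mem_rl, mem_nsd] at hw
    exact mem_inter.2 ⟨hw.1, mem_nsd.2 hw.2⟩
  · refine (sidesT (by omega) hc0 hG.sz1 hG.cod hc).trans ?_
    rw [div_le_div_iff₀ (by positivity) hc0]
    have : 0 ≤ g * D * c0 := by positivity
    linarith
  · refine (sidesU (by omega) hc0 (degle hG) hG.sz1 hG.cod hpT hpU).trans ?_
    rw [div_le_div_iff₀ (by positivity) hc0]
    have : 0 ≤ g * (D : ℝ) ^ 2 * c0 := by positivity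
    nlinarith
  · refine (nfull (by omega) hG.sz1 hT).trans ?_
    linarith
  · have h1 : ((Up Gh D T).card : ℝ) ≤ 2 * MS * D := by
      have := card_Up (T := T) hG (by omega)
      linarith
    refine (nfull (by omega) hG.sz1 h1).trans ?_
    linarith

/-- opposite sides -/
theorem opp_full (hB : Blx G Bk H d bl op (fun v => nd (ι v)) bo)
    (hG : Gdx ι H bl bo Gh nd A D C2 c0) (hD : 24 ≤ D) (hc0 : 0 < c0)
    (hgc : g ≤ c0) (hc : cut2 Gh D T ≤ g * D) (i : I) (s : Bool) :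
    full nd T (i, s) ↔ full nd (Up Gh D T) (i, !s) := by
  have hD0 : (0 : ℝ) < D := by
    have : 0 < D := by omega
    exact_mod_cast this
  refine oppo (β := 1 / 8) hD le_rfl (degle hG) (fun v hv => home hB hG hv) (hG.sz1 i _) ?_
  have h1 := sidesT (T := T) (g := g) (by omega : 0 < D) hc0 hG.sz1 hG.cod hc
  have h2 := (single_le_sum (fun q _ => mn_nonneg (nd := nd) T q) (mem_univ (i, s))).trans h1
  refine lt_of_le_of_lt h2 ?_
  rw [div_lt_iff₀ (by positivity)]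
  have h3 : g * D ≤ c0 * D := mul_le_mul_of_nonneg_right hgc hD0.le
  have h4 : 0 < c0 * D := by positivity
  nlinarith

/-- the sum over `O` for `H` -/
theorem e0 (hG : Gdx ι H bl bo Gh nd A D C2 c0) (hD : 0 < D) (hc : cut2 Gh D T ≤ g * D) :
    ∑ y ∈ OO bl, ((nb H y ∩ rl ι T).card : ℝ) * ((nb H y \ rl ι T).card : ℝ) ≤ g * (D : ℝ) ^ 3 := by
  refine le_trans ?_ (cut_sum hD hc)
  have h1 : ∑ y ∈ OO bl, ((nb H y ∩ rl ι T).card : ℝ) * ((nb H y \ rl ι T).card : ℝ) ≤
      ∑ y ∈ rl ι univ, ((nb H y ∩ rl ι T).card : ℝ) * ((nb H y \ rl ι T).card : ℝ) := by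
    refine sum_le_sum_of_subset_of_nonneg (fun v _ => mem_rl.2 (mem_univ _)) fun y _ _ => ?_
    positivity
  refine h1.trans (sum_inl hG.inj univ (fun y => ((nb Gh y ∩ T).card : ℝ) * ((nb Gh y \ T).card : ℝ))
    (fun y => by positivity) _ fun y => ?_)
  refine mul_le_mul ?_ ?_ (Nat.cast_nonneg _) (Nat.cast_nonneg _)
  · refine card_inl hG.inj fun w hw => ?_
    rw [mem_inter, mem_rl] at hw
    exact mem_inter.2 ⟨mem_nb.2 ((hG.real y w).2 (mem_nb.1 hw.1)), hw.2⟩
  · refine card_inl hG.inj fun w hw => ?_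
    rw [mem_sdiff, mem_rl] at hw
    exact mem_sdiff.2 ⟨mem_nb.2 ((hG.real y w).2 (mem_nb.1 hw.1)), hw.2⟩

/-- `T ∩ O` -/
theorem real_O (hG : Gdx ι H bl bo Gh nd A D C2 c0) (hTA : T ⊆ A) :
    ((T.filter fun v => nd v = none).card : ℝ) ≤ ((rl ι T ∩ OO bl).card : ℝ) := by
  refine Nat.cast_le.2 ?_
  have h1 : T.filter (fun v => nd v = none) ⊆ (rl ι T ∩ OO bl).map ⟨ι, hG.inj⟩ := by
    intro v hv
    rw [mem_filter] at hv
    obtain ⟨w, rfl, hw⟩ := hG.act v (hTA hv.1) hv.2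
    exact mem_map.2 ⟨w, mem_inter.2 ⟨mem_rl.2 hv.1, mem_OO.2 hw⟩, rfl⟩
  exact (card_le_card h1).trans (card_map _).le

/-- size of `T_G` -/
theorem card_TG (hB : Blx G Bk H d bl op (fun v => nd (ι v)) bo)
    (hG : Gdx ι H bl bo Gh nd A D C2 c0) (hC2 : 0 ≤ C2) (T : Finset V) :
    ((TG bl bo (full nd T) (rl ι T)).card : ℝ) ≤ (1 + 2 * C2) * T.card := by
  have h1 : ((TG bl bo (full nd T) (rl ι T)).card : ℝ) ≤ ((rl ι T ∩ OO bl).card : ℝ) +
      ((FS bl bo (full nd T)).card : ℝ) := by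
    exact_mod_cast card_union_le _ _
  have h2 : ((rl ι T ∩ OO bl).card : ℝ) ≤ T.card := by
    refine card_inl hG.inj fun w hw => mem_rl.1 (mem_inter.1 hw).1
  have h3 : ((FS bl bo (full nd T)).card : ℝ) ≤ ∑ b ∈ fB bo (full nd T), ((blk bl b).card : ℝ) := by
    have h4 : FS bl bo (full nd T) ⊆ (fB bo (full nd T)).biUnion fun b => blk bl b := by
      intro w hw
      rw [mem_FS] at hw
      obtain ⟨b, hb, hf⟩ := hw
      exact mem_biUnion.2 ⟨b, mem_fB.2 hf, mem_blk.2 hb⟩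
    exact_mod_cast (card_le_card h4).trans card_biUnion_le
  have h4 : ∑ b ∈ fB bo (full nd T), ((blk bl b).card : ℝ) ≤ 2 * C2 * T.card := by
    rcases (fB bo (full nd T)).eq_empty_or_nonempty with h5 | ⟨b0, hb0⟩
    · rw [h5, sum_empty]
      positivity
    obtain ⟨p0, _⟩ := hB.bex b0
    have : Nonempty (I × Bool) := ⟨p0⟩
    choose! q hq using hB.bex
    have h6 : ∀ b ∈ fB bo (full nd T), ((blk bl b).card : ℝ) ≤
        2 * C2 * ((T ∩ nsd nd (q b).1 (q b).2).card : ℝ) := by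
      intro b hb
      have h7 := hG.sz3 (q b) b (hq b)
      have h8 := half_full (mem_fB.1 hb (q b) (hq b))
      have h9 := mul_le_mul_of_nonneg_left h8 hC2
      have e : C2 * (2 * ((T ∩ nsd nd (q b).1 (q b).2).card : ℝ)) =
        2 * C2 * ((T ∩ nsd nd (q b).1 (q b).2).card : ℝ) := by ring
      rw [← e]
      exact h7.trans h9
    refine (sum_le_sum h6).trans ?_
    rw [← mul_sum]
    refine mul_le_mul_of_nonneg_left ?_ (by positivity)
    refine disj_sum (fB bo (full nd T)) (fun b => T ∩ nsd nd (q b).1 (q b).2) T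
      (fun b _ => inter_subset_left) ?_
    intro b _ b' _ hbb
    refine Disjoint.mono inter_subset_right inter_subset_right (nsd_disj fun h => hbb ?_)
    have h1 := hq b
    rw [h, hq b'] at h1
    exact (Option.some.inj h1).symm
  linarith

end Transfer

end Pool.Agent.Work.MP_db9399_clj.helper75
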