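import Pool.Agent.Work.MP_db9399_clj_helper75.CLJ6

/-!
# MP_db9399, SWG, block CLJ, part 7: constants (helper75, note 1584)
-/

set_option autoImplicit false
set_option linter.unusedSectionVars false

namespace Pool.Agent.Work.MP_db9399_clj.helper75

open Finset Classical

/-- the constant of the sum over `O` -/
noncomputable def PP (MS M c c0 : ℝ) : ℝ :=
  (1 + MS ^ 2 + MS) + (1 + 1 / (4 * c0)) + M * (MS + 1) +
    MS * (1 / (4 * c0) + 4 + 2 * MS + 1) / c + (12 * (1 + 1 / (4 * c0)) / c + MS) / c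

/-- the constant of the rest -/
noncomputable def P2 (MS c c0 : ℝ) : ℝ :=
  (3 * (4 + 1 / (4 * c0)) + MS * (MS + 1)) / c +
    MS * (3 * (1 / (2 * c0) + 4) + MS + 1) / c + MS * (3 * (1 / (4 * c0) + 4) + MS + 1) / c

section Num

variable {MS M c c0 C g τ θ t1 t2 t3 t4 t5 t6 k μ kU : ℝ} {d D : ℕ}

/-- the bound of `EB` -/
theorem EB_le (hMS : 0 ≤ MS) (hM : 0 ≤ M) (hc : 0 < c) (hc1 : c ≤ 1) (hc0 : 0 < c0)
    (hd : 0 < d) (hDd : (D : ℝ) ≤ d) (hg : 0 ≤ g) (hgτ : g ≤ τ) (hθ : 0 < θ) (hθ1 : θ ≤ 1)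
    (ht1 : 0 ≤ t1) (ht2 : 0 ≤ t2) (_ht3 : 0 ≤ t3) (ht5 : 0 ≤ t5) (ht6 : 0 ≤ t6)
    (h1 : t1 ≤ τ * d) (h2 : t2 ≤ τ * d) (h3 : t3 ≤ τ * d ^ 2) (h5 : t5 ≤ τ * d)
    (h6 : t6 ≤ τ * d ^ 2) (hk : 0 ≤ k) (hk1 : k ≤ MS * d) (_hμ : 0 ≤ μ) (hμ1 : μ ≤ M * d)
    (_hkU : 0 ≤ kU) (hkU1 : kU ≤ 2 * MS * d) :
    EB d c t1 t2 t3 t5 t6 MS ((D : ℝ) / 8) (4 * g * (D : ℝ) ^ 2) (2 * g * D / c0) θ
      (g * (D : ℝ) ^ 3) k μ kU ≤
      137 * (PP MS M c c0 * (τ * (d : ℝ) ^ 3) / c ^ 2) / θ + 24 * M / c * θ * (d : ℝ) ^ 3 := by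
  have hd0 : (0 : ℝ) < d := by exact_mod_cast hd
  have hD0 : (0 : ℝ) ≤ D := Nat.cast_nonneg _
  have hτ : 0 ≤ τ := hg.trans hgτ
  set x : ℝ := τ * (d : ℝ) ^ 3 with hx
  have hx0 : 0 ≤ x := by positivity
  have hD2 : (D : ℝ) ^ 2 ≤ (d : ℝ) ^ 2 := by gcongr
  have hD3 : (D : ℝ) ^ 3 ≤ (d : ℝ) ^ 3 := by gcongr
  have hE0 : g * (D : ℝ) ^ 3 ≤ x := by
    rw [hx]
    exact mul_le_mul hgτ hD3 (by positivity) hτ
  have hmΔ : 2 * g * D / c0 * ((D : ℝ) / 8) ≤ 1 / (4 * c0) * (τ * (d : ℝ) ^ 2) := by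
    have e : 2 * g * D / c0 * ((D : ℝ) / 8) = 1 / (4 * c0) * (g * (D : ℝ) ^ 2) := by
      field_simp
      ring
    rw [e]
    refine mul_le_mul_of_nonneg_left ?_ (by positivity)
    exact mul_le_mul hgτ hD2 (by positivity) hτ
  have hmΔ0 : 0 ≤ 2 * g * D / c0 * ((D : ℝ) / 8) := by positivity
  have he : 4 * g * (D : ℝ) ^ 2 ≤ 4 * (τ * (d : ℝ) ^ 2) := by
    have := mul_le_mul hgτ hD2 (by positivity) hτ
    linarith
  have hτd2 : 0 ≤ τ * (d : ℝ) ^ 2 := by positivity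
  have hi4 : 0 ≤ 1 / (4 * c0) := by positivity
  -- the coefficients
  have q1 : 0 ≤ 1 + MS ^ 2 + MS := by positivity
  have q2 : 0 ≤ 1 + 1 / (4 * c0) := by positivity
  have q3 : 0 ≤ M * (MS + 1) := by positivity
  have q4 : 0 ≤ MS * (1 / (4 * c0) + 4 + 2 * MS + 1) / c := by positivity
  have q5 : 0 ≤ (12 * (1 + 1 / (4 * c0)) / c + MS) / c := by positivity
  set P : ℝ := PP MS M c c0 with hP
  have hPe : P = (1 + MS ^ 2 + MS) + (1 + 1 / (4 * c0)) + M * (MS + 1) +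
    MS * (1 / (4 * c0) + 4 + 2 * MS + 1) / c + (12 * (1 + 1 / (4 * c0)) / c + MS) / c := rfl
  have hP0 : 0 ≤ P := by rw [hPe]; positivity
  have mono : ∀ {q : ℝ}, q ≤ P → q * x ≤ P * x := fun h => mul_le_mul_of_nonneg_right h hx0
  have a1 : g * (D : ℝ) ^ 3 + k * (k * t5 + t6) ≤ P * x := by
    refine le_trans ?_ (mono (show 1 + MS ^ 2 + MS ≤ P by rw [hPe]; linarith))
    have e1 : k * t5 ≤ MS * d * (τ * d) := mul_le_mul hk1 h5 ht5 (by positivity)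
    have e2 : k * (k * t5 + t6) ≤ MS * d * (MS * d * (τ * d) + τ * d ^ 2) :=
      mul_le_mul hk1 (add_le_add e1 h6) (by positivity) (by positivity)
    have e3 : (1 + MS ^ 2 + MS) * x = x + MS * d * (MS * d * (τ * d) + τ * d ^ 2) := by
      rw [hx]
      ring
    rw [e3]
    exact add_le_add hE0 e2
  have hdm : (d : ℝ) * (2 * g * D / c0 * ((D : ℝ) / 8)) ≤ 1 / (4 * c0) * x := by
    have := mul_le_mul_of_nonneg_left hmΔ hd0.le
    refine this.trans (le_of_eq ?_)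
    rw [hx]
    ring
  have a2 : g * (D : ℝ) ^ 3 + d * (2 * g * D / c0 * ((D : ℝ) / 8)) ≤ (1 + 1 / (4 * c0)) * x := by
    have e : (1 + 1 / (4 * c0)) * x = x + 1 / (4 * c0) * x := by ring
    rw [e]
    exact add_le_add hE0 hdm
  have a2' : g * (D : ℝ) ^ 3 + d * (2 * g * D / c0 * ((D : ℝ) / 8)) ≤ P * x :=
    a2.trans (mono (by rw [hPe]; linarith))
  have a3 : (d : ℝ) * (2 * g * D / c0 * ((D : ℝ) / 8)) ≤ P * x :=
    hdm.trans (mono (by rw [hPe]; linarith))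
  have hL : MS * t2 + t1 ≤ (MS + 1) * (τ * d) := by
    have := mul_le_mul_of_nonneg_left h2 hMS
    linarith
  have a4 : μ * d * (MS * t2 + t1) ≤ P * x := by
    refine le_trans ?_ (mono (show M * (MS + 1) ≤ P by rw [hPe]; linarith))
    have e1 : μ * d * (MS * t2 + t1) ≤ M * d * d * ((MS + 1) * (τ * d)) :=
      mul_le_mul (mul_le_mul_of_nonneg_right hμ1 hd0.le) hL (by positivity) (by positivity)
    refine e1.trans (le_of_eq ?_)
    rw [hx]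
    ring
  have hkt : kU * t2 + t3 ≤ (2 * MS + 1) * (τ * (d : ℝ) ^ 2) := by
    have e1 : kU * t2 ≤ 2 * MS * d * (τ * d) := mul_le_mul hkU1 h2 ht2 (by positivity)
    have e2 : 2 * MS * d * (τ * d) = 2 * MS * (τ * (d : ℝ) ^ 2) := by ring
    linarith
  have a5 : d * (MS * ((2 * g * D / c0 * ((D : ℝ) / 8) + 4 * g * (D : ℝ) ^ 2 +
      (kU * t2 + t3)) / c)) ≤ P * x := by
    refine le_trans ?_ (mono (show MS * (1 / (4 * c0) + 4 + 2 * MS + 1) / c ≤ P by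
      rw [hPe]; linarith))
    have e1 : (2 * g * D / c0 * ((D : ℝ) / 8) + 4 * g * (D : ℝ) ^ 2 + (kU * t2 + t3)) / c ≤
        ((1 / (4 * c0) + 4 + 2 * MS + 1) * (τ * (d : ℝ) ^ 2)) / c := by
      refine div_le_div_of_nonneg_right ?_ hc.le
      linarith
    have e2 := mul_le_mul_of_nonneg_left (mul_le_mul_of_nonneg_left e1 hMS) hd0.le
    refine e2.trans (le_of_eq ?_)
    rw [hx]
    field_simp
  have a6 : d * ((12 * (g * (D : ℝ) ^ 3 + d * (2 * g * D / c0 * ((D : ℝ) / 8))) / (c * d) +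
      k * t1) / c) ≤ P * x := by
    refine le_trans ?_ (mono (show (12 * (1 + 1 / (4 * c0)) / c + MS) / c ≤ P by
      rw [hPe]; linarith))
    have e1 : 12 * (g * (D : ℝ) ^ 3 + d * (2 * g * D / c0 * ((D : ℝ) / 8))) / (c * d) ≤
        12 * ((1 + 1 / (4 * c0)) * x) / (c * d) :=
      div_le_div_of_nonneg_right (mul_le_mul_of_nonneg_left a2 (by norm_num)) (by positivity)
    have e2 : 12 * ((1 + 1 / (4 * c0)) * x) / (c * d) =
        12 * (1 + 1 / (4 * c0)) / c * (τ * (d : ℝ) ^ 2) := by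
      rw [hx]
      field_simp
    have e3 : k * t1 ≤ MS * (τ * (d : ℝ) ^ 2) := by
      have := mul_le_mul hk1 h1 ht1 (by positivity)
      refine this.trans (le_of_eq ?_)
      ring
    have e4 : (12 * (g * (D : ℝ) ^ 3 + d * (2 * g * D / c0 * ((D : ℝ) / 8))) / (c * d) +
        k * t1) / c ≤ (12 * (1 + 1 / (4 * c0)) / c * (τ * (d : ℝ) ^ 2) +
          MS * (τ * (d : ℝ) ^ 2)) / c := by
      refine div_le_div_of_nonneg_right ?_ hc.le
      rw [← e2]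
      exact add_le_add e1 e3
    refine (mul_le_mul_of_nonneg_left e4 hd0.le).trans (le_of_eq ?_)
    rw [hx]
    ring
  have a8 : 8 * θ * (d : ℝ) ^ 2 * μ / (c / 3) ≤ 24 * M / c * θ * (d : ℝ) ^ 3 := by
    have e1 : 8 * θ * (d : ℝ) ^ 2 * μ ≤ 8 * θ * (d : ℝ) ^ 2 * (M * d) :=
      mul_le_mul_of_nonneg_left hμ1 (by positivity)
    refine (div_le_div_of_nonneg_right e1 (by positivity)).trans (le_of_eq ?_)
    field_simp
    ring
  -- the quotients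
  set z : ℝ := P * x / c ^ 2 with hz
  have hz0 : 0 ≤ z := by positivity
  have hPx : 0 ≤ P * x := by positivity
  have hc2 : c ^ 2 ≤ c := by nlinarith
  have d1 : ∀ {a : ℝ}, a ≤ P * x → a ≤ z := by
    intro a ha
    refine ha.trans ?_
    rw [hz, le_div_iff₀ (by positivity)]
    nlinarith
  have d2 : ∀ {a : ℝ}, a ≤ P * x → a / c ≤ z := by
    intro a ha
    refine (div_le_div_of_nonneg_right ha hc.le).trans ?_
    rw [hz]
    exact div_le_div_of_nonneg_left hPx (by positivity) hc2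
  have d3 : ∀ {a : ℝ}, a ≤ P * x → a / (c / 3) ≤ 3 * z := by
    intro a ha
    have e : a / (c / 3) = 3 * (a / c) := by
      field_simp
    rw [e]
    exact mul_le_mul_of_nonneg_left (d2 ha) (by norm_num)
  have d4 : ∀ {a : ℝ}, a ≤ P * x → a / (c / 3) ^ 2 ≤ 9 * z := by
    intro a ha
    have e : a / (c / 3) ^ 2 = 9 * (a / c ^ 2) := by
      field_simp
      ring
    rw [e, hz]
    exact mul_le_mul_of_nonneg_left (div_le_div_of_nonneg_right ha (by positivity)) (by norm_num)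
  have d5 : 8 * (g * (D : ℝ) ^ 3 + d * (2 * g * D / c0 * ((D : ℝ) / 8))) / (c / 3) ^ 2 ≤
      72 * z := by
    have e : 8 * (g * (D : ℝ) ^ 3 + d * (2 * g * D / c0 * ((D : ℝ) / 8))) / (c / 3) ^ 2 =
      8 * ((g * (D : ℝ) ^ 3 + d * (2 * g * D / c0 * ((D : ℝ) / 8))) / (c / 3) ^ 2) := by ring
    rw [e]
    linarith [d4 a2']
  have d6 : 3 * μ * d * (MS * t2 + t1) / (c / 3) ≤ 9 * z := by
    have e : 3 * μ * d * (MS * t2 + t1) / (c / 3) = 3 * (μ * d * (MS * t2 + t1) / (c / 3)) := by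
      ring
    rw [e]
    linarith [d3 a4]
  have h3θ : 0 ≤ 3 / θ := by positivity
  have s1 : 3 / θ * ((g * (D : ℝ) ^ 3 + k * (k * t5 + t6)) / c) ≤ 3 / θ * z :=
    mul_le_mul_of_nonneg_left (d2 a1) h3θ
  have s2 : 3 / θ * ((g * (D : ℝ) ^ 3 + d * (2 * g * D / c0 * ((D : ℝ) / 8))) / (c / 3) ^ 2 +
      d * (2 * g * D / c0 * ((D : ℝ) / 8)) / (c / 3) + μ * d * (MS * t2 + t1) / (c / 3) +
      d * (MS * ((2 * g * D / c0 * ((D : ℝ) / 8) + 4 * g * (D : ℝ) ^ 2 +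
      (kU * t2 + t3)) / c))) ≤ 3 / θ * (16 * z) := by
    refine mul_le_mul_of_nonneg_left ?_ h3θ
    linarith [d4 a2', d3 a3, d3 a4, d1 a5]
  have s3 : z ≤ z / θ := by
    rw [le_div_iff₀ hθ]
    nlinarith
  have s4 : 137 * z / θ = 3 / θ * z + 3 / θ * (16 * z) + 86 * (z / θ) := by ring
  unfold EB
  rw [s4]
  linarith [d3 a3, d1 a5, d1 a6]

/-- the common bound of the two numbers of edges -/
noncomputable def GB (MS M c c0 τ θ : ℝ) (d : ℕ) : ℝ :=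
  (274 * (PP MS M c c0 / c ^ 2) * (τ / θ) + 48 * M / c * θ + P2 MS c c0 * τ) * (d : ℝ) ^ 2

theorem GB_le {E : ℝ} (hMS : 0 ≤ MS) (hc : 0 < c) (hc0 : 0 < c0)
    (hd : 0 < d) (hDd : (D : ℝ) ≤ d) (hg : 0 ≤ g) (hgτ : g ≤ τ) (hθ : 0 < θ)
    (ht1 : 0 ≤ t1) (ht2 : 0 ≤ t2) (ht3 : 0 ≤ t3) (ht4 : 0 ≤ t4)
    (h1 : t1 ≤ τ * d) (h2 : t2 ≤ τ * d) (h3 : t3 ≤ τ * d ^ 2) (h4 : t4 ≤ τ * d ^ 2)
    (hk : 0 ≤ k) (hk1 : k ≤ MS * d)
    (hE : E ≤ 137 * (PP MS M c c0 * (τ * (d : ℝ) ^ 3) / c ^ 2) / θ +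
      24 * M / c * θ * (d : ℝ) ^ 3) :
    2 * E / d + (3 * (4 * g * (D : ℝ) ^ 2 + 2 * g * D / c0 * ((D : ℝ) / 8)) +
        k * (MS * t2 + t1)) / c +
        MS * ((3 * (2 * (2 * g * D / c0) * ((D : ℝ) / 8) + 4 * g * (D : ℝ) ^ 2) +
          (MS * t4 + t3)) / c) ≤ GB MS M c c0 τ θ d ∧
    2 * E / d + MS * ((3 * (2 * g * D / c0 * ((D : ℝ) / 8) + 4 * g * (D : ℝ) ^ 2) +
        (k * t2 + t3)) / c) +
        MS * ((3 * (2 * (2 * g * D / c0) * ((D : ℝ) / 8) + 4 * g * (D : ℝ) ^ 2) +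
          (MS * t4 + t3)) / c) ≤ GB MS M c c0 τ θ d := by
  have hd0 : (0 : ℝ) < d := by exact_mod_cast hd
  have hD0 : (0 : ℝ) ≤ D := Nat.cast_nonneg _
  have hτ : 0 ≤ τ := hg.trans hgτ
  have hD2 : (D : ℝ) ^ 2 ≤ (d : ℝ) ^ 2 := by gcongr
  set w : ℝ := τ * (d : ℝ) ^ 2 with hw
  have hw0 : 0 ≤ w := by positivity
  have hgD : g * (D : ℝ) ^ 2 ≤ w := mul_le_mul hgτ hD2 (by positivity) hτ
  have hmΔ : 2 * g * D / c0 * ((D : ℝ) / 8) ≤ 1 / (4 * c0) * w := by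
    have e : 2 * g * D / c0 * ((D : ℝ) / 8) = 1 / (4 * c0) * (g * (D : ℝ) ^ 2) := by
      field_simp
      ring
    rw [e]
    exact mul_le_mul_of_nonneg_left hgD (by positivity)
  have hmΔ2 : 2 * (2 * g * D / c0) * ((D : ℝ) / 8) ≤ 1 / (2 * c0) * w := by
    have e : 2 * (2 * g * D / c0) * ((D : ℝ) / 8) = 1 / (2 * c0) * (g * (D : ℝ) ^ 2) := by
      field_simp
      ring
    rw [e]
    exact mul_le_mul_of_nonneg_left hgD (by positivity)
  have b1 : 2 * E / d ≤ (274 * (PP MS M c c0 / c ^ 2) * (τ / θ) + 48 * M / c * θ) *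
      (d : ℝ) ^ 2 := by
    rw [div_le_iff₀ hd0]
    refine (mul_le_mul_of_nonneg_left hE (by norm_num)).trans (le_of_eq ?_)
    ring
  have b2 : k * (MS * t2 + t1) ≤ MS * (MS + 1) * w := by
    have e1 : MS * t2 + t1 ≤ (MS + 1) * (τ * d) := by
      have := mul_le_mul_of_nonneg_left h2 hMS
      linarith
    refine (mul_le_mul hk1 e1 (by positivity) (by positivity)).trans (le_of_eq ?_)
    rw [hw]
    ring
  have b3 : k * t2 + t3 ≤ (MS + 1) * w := by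
    have e1 := mul_le_mul hk1 h2 ht2 (by positivity)
    have e2 : MS * d * (τ * d) = MS * w := by rw [hw]; ring
    linarith
  have b4 : MS * t4 + t3 ≤ (MS + 1) * w := by
    have e1 := mul_le_mul_of_nonneg_left h4 hMS
    linarith
  have c1 : (3 * (4 * g * (D : ℝ) ^ 2 + 2 * g * D / c0 * ((D : ℝ) / 8)) +
      k * (MS * t2 + t1)) / c ≤ (3 * (4 + 1 / (4 * c0)) + MS * (MS + 1)) / c * w := by
    have e : (3 * (4 + 1 / (4 * c0)) + MS * (MS + 1)) / c * w =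
      (3 * (4 + 1 / (4 * c0)) + MS * (MS + 1)) * w / c := by ring
    rw [e]
    refine div_le_div_of_nonneg_right ?_ hc.le
    linarith
  have c2 : MS * ((3 * (2 * (2 * g * D / c0) * ((D : ℝ) / 8) + 4 * g * (D : ℝ) ^ 2) +
      (MS * t4 + t3)) / c) ≤ MS * (3 * (1 / (2 * c0) + 4) + MS + 1) / c * w := by
    have e : MS * (3 * (1 / (2 * c0) + 4) + MS + 1) / c * w =
        MS * ((3 * (1 / (2 * c0) + 4) + MS + 1) * w / c) := by ring
    rw [e]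
    refine mul_le_mul_of_nonneg_left (div_le_div_of_nonneg_right ?_ hc.le) hMS
    linarith
  have c3 : MS * ((3 * (2 * g * D / c0 * ((D : ℝ) / 8) + 4 * g * (D : ℝ) ^ 2) +
      (k * t2 + t3)) / c) ≤ MS * (3 * (1 / (4 * c0) + 4) + MS + 1) / c * w := by
    have e : MS * (3 * (1 / (4 * c0) + 4) + MS + 1) / c * w =
        MS * ((3 * (1 / (4 * c0) + 4) + MS + 1) * w / c) := by ring
    rw [e]
    refine mul_le_mul_of_nonneg_left (div_le_div_of_nonneg_right ?_ hc.le) hMS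
    linarith
  have n1 : 0 ≤ (3 * (4 + 1 / (4 * c0)) + MS * (MS + 1)) / c * w := by positivity
  have n3 : 0 ≤ MS * (3 * (1 / (4 * c0) + 4) + MS + 1) / c * w := by positivity
  have e : GB MS M c c0 τ θ d = (274 * (PP MS M c c0 / c ^ 2) * (τ / θ) + 48 * M / c * θ) *
      (d : ℝ) ^ 2 + ((3 * (4 + 1 / (4 * c0)) + MS * (MS + 1)) / c * w +
      MS * (3 * (1 / (2 * c0) + 4) + MS + 1) / c * w +
      MS * (3 * (1 / (4 * c0) + 4) + MS + 1) / c * w) := by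
    rw [GB, P2, hw]
    ring
  rw [e]
  constructor <;> linarith

end Num

end Pool.Agent.Work.MP_db9399_clj.helper75
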