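import Pool.Agent.Work.MP_db9399_clj_helper75.CLJ7

/-!
# MP_db9399, SWG, block CLJ, part 8: the closedness of the class graphs (helper75, note 1584)
-/

set_option autoImplicit false
set_option linter.unusedSectionVars false

namespace Pool.Agent.Work.MP_db9399_clj.helper75

open Finset Classical
open Pool.Agent.Work.MP_db9399_all (nb)
open Pool.Agent.Work.MP_db9399_cg (cdg)
open Pool.Agent.Work.MP_db9399_sg
open Pool.Agent.Work.MP_db9399_xc.helper38 (Clx lgt)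

universe u

section Fin

variable {W B I V : Type u} [Fintype W] [Fintype B] [Fintype I] [Fintype V]

/-- the two numbers of edges, one bound -/
theorem two {G Bk H : SimpleGraph W} {d D : ℕ} {bl : W → Option B} {op : B → B}
    {bo : I × Bool → Option B} {c t1 t2 t3 t4 t5 t6 C2 c0 g MS M τ θ : ℝ}
    {ι : W → V} {Gh : SimpleGraph V} {nd : V → Option (I × Bool)} {A T : Finset V}
    (hB : Blx G Bk H d bl op (fun v => nd (ι v)) bo)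
    (hS : Shr G Bk H d bl (fun v => nd (ι v)) bo c t1 t2 t3 t4 t5 t6 MS)
    (hG : Gdx ι H bl bo Gh nd A D C2 c0) (hD : 24 ≤ D) (hDd : D ≤ d) (hMS : 0 ≤ MS)
    (hC2 : 0 ≤ C2) (hM : M = (1 + 2 * C2) * MS) (hc : 0 < c) (hc1 : c ≤ 1) (hc0 : 0 < c0)
    (hg : 0 ≤ g) (hgτ : g ≤ τ) (hgc : g ≤ c0) (hθ : 0 < θ) (hθ1 : 90 * θ ≤ c)
    (ht1 : 0 ≤ t1) (ht2 : 0 ≤ t2) (ht3 : 0 ≤ t3) (ht4 : 0 ≤ t4) (ht5 : 0 ≤ t5) (ht6 : 0 ≤ t6)
    (h12 : 2 * t1 ≤ c * t2) (h34 : 2 * t3 ≤ c * t4)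
    (h1 : t1 ≤ τ * d) (h2 : t2 ≤ τ * d) (h3 : t3 ≤ τ * d ^ 2) (h4 : t4 ≤ τ * d ^ 2)
    (h5 : t5 ≤ τ * d) (h6 : t6 ≤ τ * d ^ 2) (hτθ : (MS + 1) * τ ≤ θ)
    (hT : (T.card : ℝ) ≤ MS * D) (hcut : cut2 Gh D T ≤ g * D) :
    (∑ v ∈ TG bl bo (full nd T) (rl ι T),
      ((nb G v \ UG G d bl bo (full nd T) (full nd (Up Gh D T)) (rl ι T)).card : ℝ) ≤
        GB MS M c c0 τ θ d) ∧
    ∑ v ∈ UG G d bl bo (full nd T) (full nd (Up Gh D T)) (rl ι T),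
      ((nb G v \ TG bl bo (full nd T) (rl ι T)).card : ℝ) ≤ GB MS M c c0 τ θ d := by
  have hd : 0 < d := by omega
  have hd0 : (0 : ℝ) < d := by exact_mod_cast hd
  have hD0 : (0 : ℝ) < D := by
    have : 0 < D := by omega
    exact_mod_cast this
  have hDr : (D : ℝ) ≤ d := by exact_mod_cast hDd
  have hN := nc (T := T) hG (by omega) hc0 hg hMS hT hcut
  have hTU := opp_full (T := T) hB hG hD hc0 hgc hcut
  have hΔ : ∀ v ∉ OO bl, ((nb H v).card : ℝ) ≤ (D : ℝ) / 8 := by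
    intro v hv
    have h := hG.lgt v (fun h => hv (mem_OO.2 h))
    have h' : 8 * ((nb H v).card : ℝ) ≤ D := by exact_mod_cast h
    linarith
  have hm : 0 ≤ 2 * g * D / c0 := by positivity
  have he : 0 ≤ 4 * g * (D : ℝ) ^ 2 := by positivity
  have hτ0 : 0 ≤ τ := hg.trans hgτ
  have hθ2 : θ ≤ 1 := by linarith
  have hL : MS * t2 + t1 ≤ θ * d := by
    have e1 := mul_le_mul_of_nonneg_left h2 hMS
    have e2 := mul_le_mul_of_nonneg_right hτθ hd0.le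
    linarith
  have hk1 : (((rl ι T) ∩ OO bl).card : ℝ) ≤ MS * d := by
    have e1 : (((rl ι T) ∩ OO bl).card : ℝ) ≤ T.card :=
      card_inl hG.inj fun w hw => mem_rl.1 (mem_inter.1 hw).1
    have e2 := mul_le_mul_of_nonneg_left hDr hMS
    linarith
  have hkU1 : (((rl ι (Up Gh D T)) ∩ OO bl).card : ℝ) ≤ 2 * MS * d := by
    have e1 : (((rl ι (Up Gh D T)) ∩ OO bl).card : ℝ) ≤ (Up Gh D T).card :=
      card_inl hG.inj fun w hw => mem_rl.1 (mem_inter.1 hw).1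
    have e2 := card_Up (T := T) hG (by omega)
    have e3 := mul_le_mul_of_nonneg_left hDr hMS
    linarith
  have hμ1 : ((TG bl bo (full nd T) (rl ι T)).card : ℝ) ≤ M * d := by
    have e1 := card_TG hB hG hC2 T
    have e2 : (T.card : ℝ) ≤ MS * d := hT.trans (mul_le_mul_of_nonneg_left hDr hMS)
    have e3 := mul_le_mul_of_nonneg_left e2 (show 0 ≤ 1 + 2 * C2 by linarith)
    rw [hM]
    linarith
  have hM0 : 0 ≤ M := by
    rw [hM]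
    positivity
  have hE := opart hB hS hd hc hc1 ht1 ht2 ht3 ht5 h12 hMS hm he hθ hθ1 hL hΔ
    (by positivity : 0 ≤ (D : ℝ) / 8) hN (e0 (T := T) hG (by omega) hcut)
  have hEB := EB_le (MS := MS) (M := M) (c := c) (c0 := c0) (g := g) (τ := τ) (θ := θ)
    (t1 := t1) (t2 := t2) (t3 := t3) (t5 := t5) (t6 := t6)
    (k := (((rl ι T) ∩ OO bl).card : ℝ)) (μ := ((TG bl bo (full nd T) (rl ι T)).card : ℝ))
    (kU := (((rl ι (Up Gh D T)) ∩ OO bl).card : ℝ)) (d := d) (D := D)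
    hMS hM0 hc hc1 hc0 hd hDr hg hgτ hθ hθ2 ht1 ht2 ht3 ht5 ht6 h1 h2 h3 h5 h6
    (Nat.cast_nonneg _) hk1 (Nat.cast_nonneg _) hμ1 (Nat.cast_nonneg _) hkU1
  have hE' := hE.trans hEB
  have hfin := GB_le (MS := MS) (M := M) (c := c) (c0 := c0) (g := g) (τ := τ) (θ := θ)
    (t1 := t1) (t2 := t2) (t3 := t3) (t4 := t4)
    (k := (((rl ι T) ∩ OO bl).card : ℝ)) (d := d) (D := D)
    hMS hc hc0 hd hDr hg hgτ hθ ht1 ht2 ht3 ht4 h1 h2 h3 h4 (Nat.cast_nonneg _) hk1 le_rfl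
  constructor
  · exact (goalA hB hS hd hc ht2 ht3 h12 h34 ht4 hMS hm he hΔ (by positivity) hN hTU hE').trans
      hfin.1
  · exact (goalB hB hS hd hc ht2 ht3 h12 h34 ht4 hMS hm he hΔ (by positivity) hN hTU hE').trans
      hfin.2

/-- **Near-closed sets meet `O` in few vertices.** -/
theorem few {G : SimpleGraph W} {d : ℕ} {bl : W → Option B} {M ζ a gC κ : ℝ}
    {Cs : Finset (Finset W)} (hd : 0 < d) (hM : 0 ≤ M) (hκ : 0 ≤ κ) (hζ : ζ ≤ 1 / 8) (ha : 0 < a)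
    (ha1 : a ≤ 1 / 3) (hgC1 : gC ≤ 1) (hCl : Clx G d M ζ a gC Cs)
    (hQ : ∀ Q ∈ Cs, ((Q ∩ OO bl ∩ lgt G d a Cs).card : ℝ) ≤ κ * d)
    (T U T0 : Finset W) (hT0 : T0 ⊆ T) (hTM : (T.card : ℝ) ≤ M * d)
    (hU : (U.card : ℝ) ≤ (1 + gC) * T.card)
    (hTU : ∑ v ∈ T, ((nb G v \ U).card : ℝ) ≤ gC * d * T.card) :
    ((T0 ∩ OO bl).card : ℝ) ≤ 50 * M * a ^ 2 * d + 6 * M * (κ * d) := by
  have hd0 : (0 : ℝ) < d := by exact_mod_cast hd
  set Cs' := Cs.filter fun Q => ((Q \ (T ∪ U)).card : ℝ) ≤ 4 * a ^ 3 * d with hCs'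
  have h1 := hCl.ex T U hTM hU hTU
  have hcard : (Cs'.card : ℝ) ≤ 6 * M := by
    have h2 : ∀ Q ∈ Cs', (d : ℝ) / 2 ≤ ((Q ∩ (T ∪ U)).card : ℝ) := by
      intro Q hQ'
      rw [hCs', mem_filter] at hQ'
      have h3 := hCl.lo Q hQ'.1
      have h4 := card_isd Q (T ∪ U)
      have h5 : 4 * a ^ 3 ≤ 1 / 4 := by
        have : a ^ 3 ≤ (1 / 3 : ℝ) ^ 3 := by gcongr
        linarith [show (4 : ℝ) * (1 / 3) ^ 3 ≤ 1 / 4 by norm_num]
      have h6 := mul_le_mul_of_nonneg_right h5 hd0.le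
      have h7 := mul_le_mul_of_nonneg_right hζ hd0.le
      linarith [hQ'.2]
    have h3 : (Cs'.card : ℝ) * (d / 2) ≤ ∑ Q ∈ Cs', ((Q ∩ (T ∪ U)).card : ℝ) := by
      rw [← nsmul_eq_mul]
      exact card_nsmul_le_sum _ _ _ h2
    have h4 : ∑ Q ∈ Cs', ((Q ∩ (T ∪ U)).card : ℝ) ≤ (T ∪ U).card := by
      refine disj_sum Cs' (fun Q => Q ∩ (T ∪ U)) _ (fun Q _ => inter_subset_right) ?_
      intro Q hQ1 Q' hQ2 hne
      exact Disjoint.mono inter_subset_left inter_subset_left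
        (hCl.dis Q (mem_filter.1 hQ1).1 Q' (mem_filter.1 hQ2).1 hne)
    have h5 : ((T ∪ U).card : ℝ) ≤ T.card + U.card := by exact_mod_cast card_union_le _ _
    have h6 : gC * (T.card : ℝ) ≤ T.card := by
      have := mul_le_mul_of_nonneg_right hgC1 (Nat.cast_nonneg (α := ℝ) T.card)
      linarith
    have h7 : (Cs'.card : ℝ) * (d / 2) ≤ (6 * M) * (d / 2) := by linarith
    exact le_of_mul_le_mul_right h7 (by positivity)
  have h2 : T0 ∩ OO bl ⊆ ((T ∪ U) \ lgt G d a Cs') ∪ Cs'.biUnion fun Q =>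
      Q ∩ OO bl ∩ lgt G d a Cs := by
    intro v hv
    rw [mem_inter] at hv
    by_cases hl : v ∈ lgt G d a Cs'
    · refine mem_union_right _ ?_
      obtain ⟨Q, hQ', hvQ, hl2⟩ := (mem_filter.1 hl).2
      refine mem_biUnion.2 ⟨Q, hQ', mem_inter.2 ⟨mem_inter.2 ⟨hvQ, hv.2⟩, ?_⟩⟩
      exact mem_filter.2 ⟨mem_univ _, Q, (mem_filter.1 hQ').1, hvQ, hl2⟩
    · exact mem_union_left _ (mem_sdiff.2 ⟨mem_union_left _ (hT0 hv.1), hl⟩)
  have h3 : ((T0 ∩ OO bl).card : ℝ) ≤ (((T ∪ U) \ lgt G d a Cs').card : ℝ) +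
      ∑ Q ∈ Cs', ((Q ∩ OO bl ∩ lgt G d a Cs).card : ℝ) := by
    have h4 := (card_le_card h2).trans (card_union_le _ _)
    have h5 := h4.trans (Nat.add_le_add_left card_biUnion_le _)
    exact_mod_cast h5
  have h4 : ∑ Q ∈ Cs', ((Q ∩ OO bl ∩ lgt G d a Cs).card : ℝ) ≤ 6 * M * (κ * d) := by
    rcases Cs'.eq_empty_or_nonempty with h5 | ⟨Q0, hQ0⟩
    · rw [h5, sum_empty]
      positivity
    have h6 : 0 ≤ κ * (d : ℝ) :=
      (Nat.cast_nonneg _).trans (hQ Q0 (mem_filter.1 hQ0).1)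
    refine (sum_le_card_nsmul _ _ _ fun Q hQ' => hQ Q (mem_filter.1 hQ').1).trans ?_
    rw [nsmul_eq_mul]
    exact mul_le_mul_of_nonneg_right hcard h6
  linarith

/-- Sizes of the errors and thresholds. -/
structure Tls (d : ℕ) (c t t1 t2 t3 t4 t5 t6 : ℝ) : Prop where
  n1 : 0 ≤ t1
  n2 : 0 ≤ t2
  n3 : 0 ≤ t3
  n4 : 0 ≤ t4
  n5 : 0 ≤ t5
  n6 : 0 ≤ t6
  h12 : 2 * t1 ≤ c * t2
  h34 : 2 * t3 ≤ c * t4
  u1 : t1 ≤ t * d
  u2 : t2 ≤ t * d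
  u3 : t3 ≤ t * d ^ 2
  u4 : t4 ≤ t * d ^ 2
  u5 : t5 ≤ t * d
  u6 : t6 ≤ t * d ^ 2

end Fin

end Pool.Agent.Work.MP_db9399_clj.helper75
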